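import Mathlib

/-!
# Lemmas for `Primrec` goals
-/

namespace Pool.Agent.H78Ext

open Encodable Primrec

section PrimTac

variable {α β γ δ : Type} [Primcodable α] [Primcodable β] [Primcodable γ] [Primcodable δ]

theorem P.id : Primrec fun x : α => x := Primrec.id
theorem P.const (b : β) : Primrec fun _ : α => b := Primrec.const b
theorem P.fst {f : α → β × γ} (h : Primrec f) : Primrec fun a => (f a).1 := Primrec.fst.comp h
theorem P.snd {f : α → β × γ} (h : Primrec f) : Primrec fun a => (f a).2 := Primrec.snd.comp h
theorem P.pair {f : α → β} {g : α → γ} (hf : Primrec f) (hg : Primrec g) :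
    Primrec fun a => (f a, g a) := Primrec.pair hf hg
theorem P.some {f : α → β} (hf : Primrec f) : Primrec fun a => Option.some (f a) :=
  Primrec.option_some.comp hf
theorem P.encode {f : α → β} (hf : Primrec f) : Primrec fun a => Encodable.encode (f a) :=
  Primrec.encode.comp hf
theorem P.cons {f : α → β} {g : α → List β} (hf : Primrec f) (hg : Primrec g) :
    Primrec fun a => f a :: g a := Primrec.list_cons.comp hf hg
theorem P.append {f : α → List β} {g : α → List β} (hf : Primrec f) (hg : Primrec g) :
    Primrec fun a => f a ++ g a := Primrec.list_append.comp hf hg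
theorem P.length {g : α → List β} (hg : Primrec g) : Primrec fun a => (g a).length :=
  Primrec.list_length.comp hg
theorem P.range {g : α → ℕ} (hg : Primrec g) : Primrec fun a => List.range (g a) :=
  Primrec.list_range.comp hg
theorem P.getElem? {f : α → List β} {g : α → ℕ} (hf : Primrec f) (hg : Primrec g) :
    Primrec fun a => (f a)[g a]? := Primrec.list_getElem?.comp hf hg
theorem P.add {f g : α → ℕ} (hf : Primrec f) (hg : Primrec g) : Primrec fun a => f a + g a :=
  Primrec.nat_add.comp hf hg
theorem P.mul {f g : α → ℕ} (hf : Primrec f) (hg : Primrec g) : Primrec fun a => f a * g a :=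
  Primrec.nat_mul.comp hf hg
theorem P.natPair {f g : α → ℕ} (hf : Primrec f) (hg : Primrec g) :
    Primrec fun a => Nat.pair (f a) (g a) := Primrec₂.natPair.comp hf hg
theorem P.unpair {f : α → ℕ} (hf : Primrec f) :
    Primrec fun a => Nat.unpair (f a) := Primrec.unpair.comp hf

end PrimTac


end Pool.Agent.H78Ext
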