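import Mathlib

/-!
# Sigma-1 predicates and countable Sigma-classes
-/

namespace Pool.Agent.H78Ext

open Encodable Primrec

/-- `Σ⁰₁` predicates, as projections of primitive recursive relations. -/
def S1 {α : Type} [Primcodable α] (p : α → Prop) : Prop :=
  ∃ R : α → ℕ → Prop, PrimrecRel R ∧ ∀ a, p a ↔ ∃ n, R a n

section Prim

variable {α β γ : Type} [Primcodable α] [Primcodable β] [Primcodable γ]

theorem PrimrecPred.exists_opt {f : α → Option β} (hf : Primrec f) {R : β → α → Prop}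
    (hR : PrimrecRel R) : PrimrecPred fun a => ∃ b, f a = some b ∧ R b a := by
  classical
  have h1 : Primrec fun a => (f a).toList := by
    refine (Primrec.option_casesOn (g := fun (_ : α) (b : β) => [b]) hf (Primrec.const []) ?_).of_eq
      fun a => by cases f a <;> rfl
    exact Primrec.list_cons.comp Primrec.snd (Primrec.const [])
  refine (PrimrecRel.comp (hR.exists_mem_list) h1 Primrec.id).of_eq fun a => ?_
  simp [Option.mem_toList]

end Prim

namespace S1

variable {α β γ : Type} [Primcodable α] [Primcodable β] [Primcodable γ]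

theorem of_eq {p q : α → Prop} (hp : S1 p) (h : ∀ a, p a ↔ q a) : S1 q := by
  have : p = q := funext fun a => propext (h a)
  exact this ▸ hp

theorem prim {p : α → Prop} (hp : PrimrecPred p) : S1 p :=
  ⟨fun a _ => p a, hp.comp Primrec.fst, fun _ => ⟨fun h => ⟨0, h⟩, fun ⟨_, h⟩ => h⟩⟩

theorem comp {p : β → Prop} (hp : S1 p) {f : α → β} (hf : Primrec f) : S1 fun a => p (f a) := by
  obtain ⟨R, hR, h⟩ := hp
  exact ⟨fun a n => R (f a) n, PrimrecRel.comp hR (hf.comp Primrec.fst) Primrec.snd, fun a => h _⟩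

theorem ex {p : α → β → Prop} (hp : S1 fun x : α × β => p x.1 x.2) : S1 fun a => ∃ b, p a b := by
  obtain ⟨R, hR, h⟩ := hp
  refine ⟨fun a n => ∃ b, decode (α := β) n.unpair.1 = some b ∧ R (a, b) n.unpair.2, ?_, ?_⟩
  · have h1 : Primrec fun x : α × ℕ => decode (α := β) x.2.unpair.1 :=
      Primrec.decode.comp (Primrec.fst.comp (Primrec.unpair.comp Primrec.snd))
    refine PrimrecPred.exists_opt h1 (R := fun b x => R (x.1, b) x.2.unpair.2) ?_
    refine PrimrecRel.comp hR ?_ ?_
    · exact Primrec.pair (Primrec.fst.comp Primrec.snd) Primrec.fst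
    · exact Primrec.snd.comp (Primrec.unpair.comp (Primrec.snd.comp Primrec.snd))
  · intro a
    constructor
    · rintro ⟨b, hb⟩
      obtain ⟨n, hn⟩ := (h (a, b)).1 hb
      exact ⟨Nat.pair (encode b) n, b, by simp, by simpa using hn⟩
    · rintro ⟨n, b, hb, hR⟩
      exact ⟨b, (h (a, b)).2 ⟨_, hR⟩⟩

theorem and {p q : α → Prop} (hp : S1 p) (hq : S1 q) : S1 fun a => p a ∧ q a := by
  obtain ⟨R, hR, h⟩ := hp
  obtain ⟨R', hR', h'⟩ := hq
  refine (ex (β := ℕ × ℕ) (p := fun a n => R a n.1 ∧ R' a n.2) (prim ?_)).of_eq fun a => ?_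
  · refine PrimrecPred.and ?_ ?_
    · exact PrimrecRel.comp hR Primrec.fst (Primrec.fst.comp Primrec.snd)
    · exact PrimrecRel.comp hR' Primrec.fst (Primrec.snd.comp Primrec.snd)
  · rw [h, h']
    constructor
    · rintro ⟨⟨n, m⟩, h1, h2⟩
      exact ⟨⟨n, h1⟩, ⟨m, h2⟩⟩
    · rintro ⟨⟨n, h1⟩, ⟨m, h2⟩⟩
      exact ⟨(n, m), h1, h2⟩

theorem or {p q : α → Prop} (hp : S1 p) (hq : S1 q) : S1 fun a => p a ∨ q a := by
  obtain ⟨R, hR, h⟩ := hp
  obtain ⟨R', hR', h'⟩ := hq
  refine ⟨fun a n => R a n ∨ R' a n, PrimrecPred.or hR hR', fun a => ?_⟩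
  show (p a ∨ q a) ↔ ∃ n, R a n ∨ R' a n
  rw [h, h']
  constructor
  · rintro (⟨n, hn⟩ | ⟨n, hn⟩)
    · exact ⟨n, Or.inl hn⟩
    · exact ⟨n, Or.inr hn⟩
  · rintro ⟨n, hn | hn⟩
    · exact Or.inl ⟨n, hn⟩
    · exact Or.inr ⟨n, hn⟩

/-- bounded universal quantification over a list -/
theorem ball {p : α → β → Prop} (hp : S1 fun x : α × β => p x.1 x.2) {l : α → List β}
    (hl : Primrec l) : S1 fun a => ∀ b ∈ l a, p a b := by
  classical
  obtain ⟨R, hR, h⟩ := hp
  refine ⟨fun a N => ∀ b ∈ l a, ∃ n < N, R (a, b) n, ?_, fun a => ?_⟩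
  · -- inner bounded quantifier
    have h1 : PrimrecRel fun (L : List ℕ) (x : α × β) => ∃ n ∈ L, R x n := by
      refine PrimrecRel.exists_mem_list (R := fun n x => R x n) ?_
      exact PrimrecRel.comp hR Primrec.snd Primrec.fst
    have h2 : PrimrecRel fun (b : β) (x : α × ℕ) => ∃ n < x.2, R (x.1, b) n := by
      have := PrimrecRel.comp h1 (f := fun y : β × (α × ℕ) => List.range y.2.2)
        (g := fun y : β × (α × ℕ) => (y.2.1, y.1))
        (Primrec.list_range.comp (Primrec.snd.comp Primrec.snd))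
        (Primrec.pair (Primrec.fst.comp Primrec.snd) Primrec.fst)
      refine PrimrecPred.of_eq this fun y => ?_
      simp
    exact PrimrecRel.comp (PrimrecRel.forall_mem_list h2) (hl.comp Primrec.fst) Primrec.id
  · have aux : ∀ L : List β, (∀ b ∈ L, p a b) ↔ ∃ N, ∀ b ∈ L, ∃ n < N, R (a, b) n := by
      intro L
      constructor
      · intro hL
        induction L with
        | nil => exact ⟨0, by simp⟩
        | cons b L ih =>
          obtain ⟨N, hN⟩ := ih fun b hb => hL b (List.mem_cons_of_mem _ hb)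
          obtain ⟨n, hn⟩ := (h (a, b)).1 (hL b (by simp))
          refine ⟨max N (n + 1), fun c hc => ?_⟩
          rcases List.mem_cons.1 hc with rfl | hc
          · exact ⟨n, lt_of_lt_of_le (Nat.lt_succ_self n) (le_max_right _ _), hn⟩
          · obtain ⟨m, hm, hR⟩ := hN c hc
            exact ⟨m, lt_of_lt_of_le hm (le_max_left _ _), hR⟩
      · rintro ⟨N, hN⟩ b hb
        obtain ⟨n, _, hn⟩ := hN b hb
        exact (h (a, b)).2 ⟨n, hn⟩
    exact aux _

end S1

end Pool.Agent.H78Ext
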