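import Mathlib
import Pool.Agent.H78Ext.Sigma

/-!
# Link with Mathlib's r.e. predicates
-/

namespace Pool.Agent.H78Ext

open Encodable Primrec
open Nat.Partrec (Code)

variable {α β γ : Type} [Primcodable α] [Primcodable β] [Primcodable γ]

/-- The graph of a partial recursive function is `Σ₁`. -/
theorem S1.graph {f : α →. β} (hf : Partrec f) : S1 fun x : α × β => x.2 ∈ f x.1 := by
  classical
  obtain ⟨c, hc⟩ := Code.exists_code.1 hf
  refine ⟨fun x k => Code.evaln k c (encode x.1) = some (encode x.2), ?_, fun x => ?_⟩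
  · have h1 : Primrec fun y : (α × β) × ℕ => Code.evaln y.2 c (encode y.1.1) :=
      Code.primrec_evaln.comp (Primrec.pair (Primrec.pair Primrec.snd (Primrec.const c))
        (Primrec.encode.comp (Primrec.fst.comp Primrec.fst)))
    have h2 : Primrec fun y : (α × β) × ℕ => some (encode y.1.2) :=
      Primrec.option_some.comp (Primrec.encode.comp (Primrec.snd.comp Primrec.fst))
    exact PrimrecRel.comp Primrec.eq h1 h2
  · have h1 : x.2 ∈ f x.1 ↔ encode x.2 ∈ c.eval (encode x.1) := by
      rw [hc]
      simp [encodek]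
    refine h1.trans ?_
    constructor
    · intro h
      obtain ⟨k, hk⟩ := Code.evaln_complete.1 h
      exact ⟨k, hk⟩
    · rintro ⟨k, hk⟩
      exact Code.evaln_complete.2 ⟨k, hk⟩

theorem S1.of_re {p : α → Prop} (hp : REPred p) : S1 p := by
  have h := S1.graph hp
  refine (h.comp (f := fun a => (a, ())) (Primrec.pair Primrec.id (Primrec.const ()))).of_eq
    fun a => ?_
  simp

theorem S1.re {p : α → Prop} (hp : S1 p) : REPred p := by
  classical
  obtain ⟨R, ⟨hd, hR⟩, h⟩ := hp
  have h0 : Partrec₂ fun (a : α) (n : ℕ) => (Part.some (@decide (R a n) (hd (a, n))) : Part Bool) :=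
    hR.to_comp.partrec
  have h1 : Partrec fun a : α =>
      Nat.rfind fun n => (Part.some (@decide (R a n) (hd (a, n))) : Part Bool) :=
    Partrec.rfind h0
  refine (h1.dom_re).of_eq fun a => ?_
  rw [h]
  refine Nat.rfind_dom.trans ?_
  constructor
  · rintro ⟨n, hn, -⟩
    refine ⟨n, ?_⟩
    simpa using hn
  · rintro ⟨n, hn⟩
    exact ⟨n, by simpa using hn, fun _ => trivial⟩

theorem s1_iff_re {p : α → Prop} : S1 p ↔ REPred p := ⟨S1.re, S1.of_re⟩

/-- There are only countably many `Σ₁` predicates. -/
theorem countable_s1 : {p : ℕ → Prop | S1 p}.Countable := by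
  have : {p : ℕ → Prop | S1 p} ⊆ Set.range fun c : Code => fun n => (c.eval n).Dom := by
    intro p hp
    have hp' : REPred p := S1.re hp
    obtain ⟨c, hc⟩ := Code.exists_code.1 hp'
    refine ⟨c, funext fun n => propext ?_⟩
    show (c.eval n).Dom ↔ p n
    rw [hc]
    simp [Part.assert]
  exact (Set.countable_range _).mono this

end Pool.Agent.H78Ext
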