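import Mathlib
import Pool.Agent.H78Ext.RE
import Pool.Agent.H78Ext.PrimTac

/-!
# Countable ideals of predicates closed under enumeration reducibility
-/

namespace Pool.Agent.H78Ext

open Encodable Primrec

/-- A countable family of predicates on `ℕ` closed under (joint) enumeration reducibility. -/
structure EIdeal where
  carrier : Set (ℕ → Prop)
  countable : carrier.Countable
  nonempty : carrier.Nonempty
  closed : ∀ X ∈ carrier, ∀ Y ∈ carrier, ∀ Θ : ℕ × List ℕ × List ℕ → Prop, S1 Θ →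
    (fun n => ∃ l l', (∀ a ∈ l, X a) ∧ (∀ a ∈ l', Y a) ∧ Θ (n, l, l')) ∈ carrier

variable {α β γ δ : Type} [Primcodable α] [Primcodable β] [Primcodable γ] [Primcodable δ]

theorem primrecPred_eq [DecidableEq β] {f g : α → β} (hf : Primrec f) (hg : Primrec g) :
    PrimrecPred fun a => f a = g a := PrimrecRel.comp Primrec.eq hf hg

namespace EIdeal

variable (E : EIdeal)

/-- The predicate `p` belongs to the ideal. -/
def Ce (p : α → Prop) : Prop := (fun n : ℕ => ∃ a, encode a = n ∧ p a) ∈ E.carrier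

variable {E}

theorem Ce.of_eq {p q : α → Prop} (hp : E.Ce p) (h : ∀ a, p a ↔ q a) : E.Ce q := by
  have : p = q := funext fun a => propext (h a)
  exact this ▸ hp

theorem ce_nat {p : ℕ → Prop} : E.Ce p ↔ p ∈ E.carrier := by
  unfold Ce
  have : (fun n : ℕ => ∃ a, encode a = n ∧ p a) = p := by
    funext n
    simp
  rw [this]

theorem Ce.gen {X : α → Prop} {Y : β → Prop} (hX : E.Ce X) (hY : E.Ce Y)
    {Θ : γ × List α × List β → Prop} (hΘ : S1 Θ) :
    E.Ce fun c => ∃ l l', (∀ a ∈ l, X a) ∧ (∀ b ∈ l', Y b) ∧ Θ (c, l, l') := by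
  classical
  have key : S1 fun x : ℕ × List ℕ × List ℕ => ∃ c : γ, ∃ l : List α, ∃ l' : List β,
      encode c = x.1 ∧ x.2.1 = l.map encode ∧ x.2.2 = l'.map encode ∧ Θ (c, l, l') := by
    refine S1.ex (S1.ex (S1.ex ?_))
    refine S1.and (S1.prim (primrecPred_eq ?_ ?_)) (S1.and (S1.prim (primrecPred_eq ?_ ?_))
      (S1.and (S1.prim (primrecPred_eq ?_ ?_)) (hΘ.comp ?_)))
    · exact P.encode (P.snd (P.fst (P.fst P.id)))
    · exact P.fst (P.fst (P.fst (P.fst P.id)))
    · exact P.fst (P.snd (P.fst (P.fst (P.fst P.id))))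
    · refine Primrec.list_map (f := fun x : (((ℕ × List ℕ × List ℕ) × γ) × List α) × List β =>
        x.1.2) ?_ ?_
      · exact P.snd (P.fst P.id)
      · exact (Primrec.encode.comp Primrec.snd)
    · exact P.snd (P.snd (P.fst (P.fst (P.fst P.id))))
    · refine Primrec.list_map (f := fun x : (((ℕ × List ℕ × List ℕ) × γ) × List α) × List β =>
        x.2) ?_ ?_
      · exact P.snd P.id
      · exact (Primrec.encode.comp Primrec.snd)
    · exact P.pair (P.snd (P.fst (P.fst P.id))) (P.pair (P.snd (P.fst P.id)) (P.snd P.id))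
  have := E.closed _ hX _ hY _ key
  unfold Ce
  convert this using 1
  funext n
  apply propext
  constructor
  · rintro ⟨c, rfl, l, l', hl, hl', h⟩
    refine ⟨l.map encode, l'.map encode, ?_, ?_, c, l, l', rfl, rfl, rfl, h⟩
    · intro a ha
      obtain ⟨b, hb, rfl⟩ := List.mem_map.1 ha
      exact ⟨b, rfl, hl b hb⟩
    · intro a ha
      obtain ⟨b, hb, rfl⟩ := List.mem_map.1 ha
      exact ⟨b, rfl, hl' b hb⟩
  · rintro ⟨L, L', hL, hL', c, l, l', rfl, rfl, rfl, h⟩
    refine ⟨c, rfl, l, l', ?_, ?_, h⟩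
    · intro a ha
      obtain ⟨b, hb, hX⟩ := hL (encode a) (List.mem_map.2 ⟨a, ha, rfl⟩)
      exact (Encodable.encode_injective hb) ▸ hX
    · intro a ha
      obtain ⟨b, hb, hX⟩ := hL' (encode a) (List.mem_map.2 ⟨a, ha, rfl⟩)
      exact (Encodable.encode_injective hb) ▸ hX

theorem Ce.s1 {p : α → Prop} (hp : S1 p) : E.Ce p := by
  obtain ⟨X, hX⟩ := E.nonempty
  have hX' : E.Ce X := ce_nat.2 hX
  refine (Ce.gen hX' hX' (Θ := fun x : α × List ℕ × List ℕ => p x.1)
    (hp.comp Primrec.fst)).of_eq fun a => ?_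
  constructor
  · rintro ⟨l, l', _, _, h⟩
    exact h
  · intro h
    exact ⟨[], [], by simp, by simp, h⟩

theorem Ce.prim {p : α → Prop} (hp : PrimrecPred p) : E.Ce p := Ce.s1 (S1.prim hp)

theorem Ce.comp {p : β → Prop} (hp : E.Ce p) {f : α → β} (hf : Primrec f) :
    E.Ce fun a => p (f a) := by
  classical
  refine (Ce.gen hp hp (Θ := fun x : α × List β × List β => x.2.1 = [f x.1]) (S1.prim
    (primrecPred_eq ?_ ?_))).of_eq fun a => ?_
  · exact P.fst (P.snd P.id)
  · have : Primrec fun x : α × List β × List β => f x.1 := hf.comp Primrec.fst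
    exact P.cons ((by assumption)) (P.const _)
  · constructor
    · rintro ⟨l, l', h, _, h1⟩
      exact h _ (by simp [show l = [f a] from h1])
    · intro h
      exact ⟨[f a], [], by simpa using h, by simp, rfl⟩

theorem Ce.and {p q : α → Prop} (hp : E.Ce p) (hq : E.Ce q) : E.Ce fun a => p a ∧ q a := by
  classical
  refine (Ce.gen hp hq (Θ := fun x : α × List α × List α => x.2.1 = [x.1] ∧ x.2.2 = [x.1])
    (S1.and (S1.prim (primrecPred_eq ?_ ?_)) (S1.prim (primrecPred_eq ?_ ?_)))).of_eq fun a => ?_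
  · exact P.fst (P.snd P.id)
  · exact P.cons (P.fst P.id) (P.const _)
  · exact P.snd (P.snd P.id)
  · exact P.cons (P.fst P.id) (P.const _)
  · constructor
    · rintro ⟨l, l', h, h', h1, h2⟩
      exact ⟨h _ (by simp [show l = [a] from h1]), h' _ (by simp [show l' = [a] from h2])⟩
    · rintro ⟨h, h'⟩
      exact ⟨[a], [a], by simpa using h, by simpa using h', rfl, rfl⟩

theorem Ce.or {p q : α → Prop} (hp : E.Ce p) (hq : E.Ce q) : E.Ce fun a => p a ∨ q a := by
  classical
  refine (Ce.gen hp hq (Θ := fun x : α × List α × List α => x.2.1 = [x.1] ∨ x.2.2 = [x.1])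
    (S1.or (S1.prim (primrecPred_eq ?_ ?_)) (S1.prim (primrecPred_eq ?_ ?_)))).of_eq fun a => ?_
  · exact P.fst (P.snd P.id)
  · exact P.cons (P.fst P.id) (P.const _)
  · exact P.snd (P.snd P.id)
  · exact P.cons (P.fst P.id) (P.const _)
  · constructor
    · rintro ⟨l, l', h, h', h1 | h1⟩
      · exact Or.inl (h _ (by simp [show l = [a] from h1]))
      · exact Or.inr (h' _ (by simp [show l' = [a] from h1]))
    · rintro (h | h)
      · exact ⟨[a], [], by simpa using h, by simp, Or.inl rfl⟩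
      · exact ⟨[], [a], by simp, by simpa using h, Or.inr rfl⟩

theorem Ce.ex {p : α → β → Prop} (hp : E.Ce fun x : α × β => p x.1 x.2) :
    E.Ce fun a => ∃ b, p a b := by
  classical
  refine (Ce.gen hp hp (Θ := fun x : α × List (α × β) × List (α × β) =>
    ∃ b : β, x.2.1 = [(x.1, b)]) (S1.ex (S1.prim (primrecPred_eq ?_ ?_)))).of_eq fun a => ?_
  · exact P.fst (P.snd (P.fst P.id))
  · exact P.cons (P.pair (P.fst (P.fst P.id)) (P.snd P.id)) (P.const _)
  · constructor
    · rintro ⟨l, l', h, h', b, h1⟩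
      exact ⟨b, h (a, b) (by simp [show l = [(a, b)] from h1])⟩
    · rintro ⟨b, h⟩
      exact ⟨[(a, b)], [], by simpa using h, by simp, b, rfl⟩

theorem Ce.ball {p : α → β → Prop} (hp : E.Ce fun x : α × β => p x.1 x.2) {l : α → List β}
    (hl : Primrec l) : E.Ce fun a => ∀ b ∈ l a, p a b := by
  classical
  refine (Ce.gen hp hp (Θ := fun x : α × List (α × β) × List (α × β) =>
    x.2.1 = (l x.1).map fun b => (x.1, b)) (S1.prim (primrecPred_eq ?_ ?_))).of_eq fun a => ?_
  · exact P.fst (P.snd P.id)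
  · refine Primrec.list_map (f := fun x : α × List (α × β) × List (α × β) => l x.1)
      (hl.comp Primrec.fst) ?_
    exact Primrec.pair (Primrec.fst.comp Primrec.fst) Primrec.snd
  · constructor
    · rintro ⟨L, l', h, h', h1⟩ b hb
      have h1' : L = (l a).map fun b => (a, b) := h1
      exact h (a, b) (by rw [h1']; exact List.mem_map.2 ⟨b, hb, rfl⟩)
    · intro h
      refine ⟨(l a).map fun b => (a, b), [], ?_, by simp, rfl⟩
      intro x hx
      obtain ⟨b, hb, rfl⟩ := List.mem_map.1 hx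
      exact h b hb

theorem Ce.bex {p : α → β → Prop} (hp : E.Ce fun x : α × β => p x.1 x.2) {l : α → List β}
    (hl : Primrec l) : E.Ce fun a => ∃ b ∈ l a, p a b := by
  classical
  refine Ce.ex (Ce.and (Ce.prim ?_) hp)
  have h : PrimrecRel fun (L : List β) (b : β) => b ∈ L := by
    refine (PrimrecRel.exists_mem_list (R := fun a b : β => a = b) Primrec.eq).of_eq fun L b => ?_
    simp
  exact PrimrecRel.comp h (hl.comp Primrec.fst) Primrec.snd

theorem Ce.rel {R : α → β → Prop} (h : E.Ce fun x : α × β => R x.1 x.2) {f : γ → α} {g : γ → β}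
    (hf : Primrec f) (hg : Primrec g) : E.Ce fun c => R (f c) (g c) :=
  h.comp (Primrec.pair hf hg)

theorem Ce.const (q : Prop) : E.Ce fun _ : α => q := by
  classical
  exact Ce.prim ⟨fun _ => inferInstance, Primrec.const _⟩

end EIdeal

end Pool.Agent.H78Ext
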