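import Mathlib
import Pool.Agent.H78Ext.Ideal

/-!
# Lemmas for goals `E.Ce (fun x => ...)`
-/

namespace Pool.Agent.H78Ext

open Encodable Primrec

variable {α β γ δ : Type} [Primcodable α] [Primcodable β] [Primcodable γ] [Primcodable δ]

theorem primrecRel_mem [DecidableEq α] : PrimrecRel fun (L : List α) (b : α) => b ∈ L := by
  refine (PrimrecRel.exists_mem_list (R := fun a b : α => a = b) Primrec.eq).of_eq fun L b => ?_
  simp

theorem primrecPred_mem {f : α → β} {g : α → List β} (hf : Primrec f) (hg : Primrec g) :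
    PrimrecPred fun a => f a ∈ g a := by
  classical
  exact PrimrecRel.comp primrecRel_mem hg hf

namespace EIdeal

variable {E : EIdeal}

theorem Ce.eq {f g : α → β} (hf : Primrec f) (hg : Primrec g) : E.Ce fun a => f a = g a := by
  classical
  exact Ce.prim (primrecPred_eq hf hg)

theorem Ce.ne {f g : α → β} (hf : Primrec f) (hg : Primrec g) : E.Ce fun a => f a ≠ g a := by
  classical
  exact Ce.prim (primrecPred_eq hf hg).not

theorem Ce.not_eq {f g : α → β} (hf : Primrec f) (hg : Primrec g) : E.Ce fun a => ¬ f a = g a := by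
  classical
  exact Ce.prim (primrecPred_eq hf hg).not

theorem Ce.mem {f : α → β} {g : α → List β} (hf : Primrec f) (hg : Primrec g) :
    E.Ce fun a => f a ∈ g a := Ce.prim (primrecPred_mem hf hg)

theorem Ce.not_mem {f : α → β} {g : α → List β} (hf : Primrec f) (hg : Primrec g) :
    E.Ce fun a => ¬ f a ∈ g a := Ce.prim (primrecPred_mem hf hg).not

theorem Ce.lt {f g : α → ℕ} (hf : Primrec f) (hg : Primrec g) : E.Ce fun a => f a < g a :=
  Ce.prim (PrimrecRel.comp Primrec.nat_lt hf hg)

theorem Ce.le {f g : α → ℕ} (hf : Primrec f) (hg : Primrec g) : E.Ce fun a => f a ≤ g a :=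
  Ce.prim (PrimrecRel.comp Primrec.nat_le hf hg)

end EIdeal

/-- negated atoms -/
theorem EIdeal.Ce.nrel {E : EIdeal} {R : α → β → Prop} (h : E.Ce fun x : α × β => ¬ R x.1 x.2)
    {f : γ → α} {g : γ → β}
    (hf : Primrec f) (hg : Primrec g) : E.Ce fun c => ¬ R (f c) (g c) :=
  h.comp (Primrec.pair hf hg)

/-- negated atoms -/
theorem EIdeal.Ce.ncomp {E : EIdeal} {p : α → Prop} (h : E.Ce fun x : α => ¬ p x)
    {f : γ → α} (hf : Primrec f) : E.Ce fun c => ¬ p (f c) :=
  h.comp hf


end Pool.Agent.H78Ext
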