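import Mathlib
import Pool.Agent.H78Ext.CeTac

/-!
# Adjoining an oracle to an ideal, unions of chains, thin ideals
-/

namespace Pool.Agent.H78Ext

open Encodable Primrec

variable {α β γ δ : Type} [Primcodable α] [Primcodable β] [Primcodable γ] [Primcodable δ]

theorem collect {σ τ : Type} {A : σ → Prop} {Q : τ → List σ → Prop} :
    ∀ l : List τ, (∀ a ∈ l, ∃ m : List σ, (∀ b ∈ m, A b) ∧ Q a m) →
      ∃ M : List σ, (∀ b ∈ M, A b) ∧ ∀ a ∈ l, ∃ m : List σ, (∀ b ∈ m, b ∈ M) ∧ Q a m := by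
  intro l
  induction l with
  | nil => intro _; exact ⟨[], by simp, by simp⟩
  | cons a l ih =>
    intro h
    obtain ⟨M, hM, h1⟩ := ih fun a ha => h a (List.mem_cons_of_mem _ ha)
    obtain ⟨m, hm, h2⟩ := h a (by simp)
    refine ⟨m ++ M, ?_, ?_⟩
    · intro b hb
      rcases List.mem_append.1 hb with hb | hb
      · exact hm b hb
      · exact hM b hb
    · intro c hc
      rcases List.mem_cons.1 hc with rfl | hc
      · exact ⟨m, fun b hb => List.mem_append.2 (Or.inl hb), h2⟩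
      · obtain ⟨m', hm', h3⟩ := h1 c hc
        exact ⟨m', fun b hb => List.mem_append.2 (Or.inr (hm' b hb)), h3⟩

namespace EIdeal

theorem countable_ce (E : EIdeal) : {p : α → Prop | E.Ce p}.Countable := by
  have h : Set.InjOn (fun (p : α → Prop) (n : ℕ) => ∃ a, encode a = n ∧ p a)
      {p : α → Prop | E.Ce p} := by
    intro p _ q _ hpq
    funext a
    have h1 := congrFun hpq (encode a)
    simp only [encode_inj, exists_eq_left] at h1
    exact h1
  refine Set.MapsTo.countable_of_injOn (t := E.carrier) (fun p hp => hp) h E.countable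

instance : LE EIdeal := ⟨fun E F => E.carrier ⊆ F.carrier⟩

instance : Preorder EIdeal where
  le_refl E := Set.Subset.refl _
  le_trans _ _ _ h h' := Set.Subset.trans h h'

theorem Ce.mono {E F : EIdeal} (h : E ≤ F) {p : α → Prop} (hp : E.Ce p) : F.Ce p := h hp

/-- adjoining positive information about a predicate -/
def adj (E : EIdeal) (A : α → Prop) : EIdeal where
  carrier := {p | ∃ Θ : ℕ × List α → Prop, E.Ce Θ ∧
    ∀ n, p n ↔ ∃ l, (∀ a ∈ l, A a) ∧ Θ (n, l)}
  countable := by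
    have : {p : ℕ → Prop | ∃ Θ : ℕ × List α → Prop, E.Ce Θ ∧
        ∀ n, p n ↔ ∃ l, (∀ a ∈ l, A a) ∧ Θ (n, l)} ⊆
        (fun (Θ : ℕ × List α → Prop) (n : ℕ) => ∃ l, (∀ a ∈ l, A a) ∧ Θ (n, l)) ''
          {Θ | E.Ce Θ} := by
      rintro p ⟨Θ, h, hp⟩
      exact ⟨Θ, h, funext fun n => propext (hp n).symm⟩
    exact ((countable_ce E).image _).mono this
  nonempty := ⟨fun _ => True, fun _ => True, Ce.const _, fun n => ⟨fun _ => ⟨[], by simp, trivial⟩,
    fun _ => trivial⟩⟩
  closed := by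
    rintro X ⟨Θ₁, h1, hX⟩ Y ⟨Θ₂, h2, hY⟩ Θ hΘ
    refine ⟨fun x : ℕ × List α => ∃ l l' : List ℕ,
      (∀ a ∈ l, ∃ m : List α, (∀ b ∈ m, b ∈ x.2) ∧ Θ₁ (a, m)) ∧
      (∀ a ∈ l', ∃ m : List α, (∀ b ∈ m, b ∈ x.2) ∧ Θ₂ (a, m)) ∧ Θ (x.1, l, l'), ?_, ?_⟩
    · have hΘ' : E.Ce Θ := Ce.s1 hΘ
      apply EIdeal.Ce.ex
      apply EIdeal.Ce.ex
      apply EIdeal.Ce.and
      · apply EIdeal.Ce.ball
        · apply EIdeal.Ce.ex
          apply EIdeal.Ce.and
          · apply EIdeal.Ce.ball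
            · apply EIdeal.Ce.mem
              · exact P.snd P.id
              · exact P.snd (P.fst (P.fst (P.fst (P.fst (P.fst P.id)))))
            · exact P.snd P.id
          · apply EIdeal.Ce.comp h1
            exact P.pair (P.snd (P.fst P.id)) (P.snd P.id)
        · exact P.snd (P.fst P.id)
      · apply EIdeal.Ce.and
        · apply EIdeal.Ce.ball
          · apply EIdeal.Ce.ex
            apply EIdeal.Ce.and
            · apply EIdeal.Ce.ball
              · apply EIdeal.Ce.mem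
                · exact P.snd P.id
                · exact P.snd (P.fst (P.fst (P.fst (P.fst (P.fst P.id)))))
              · exact P.snd P.id
            · apply EIdeal.Ce.comp h2
              exact P.pair (P.snd (P.fst P.id)) (P.snd P.id)
          · exact P.snd P.id
        · apply EIdeal.Ce.comp hΘ'
          exact P.pair (P.fst (P.fst (P.fst P.id))) (P.pair (P.snd (P.fst P.id)) (P.snd P.id))
    · intro n
      constructor
      · rintro ⟨l, l', hl, hl', h⟩
        obtain ⟨M, hM, h3⟩ := collect l fun a ha => (hX a).1 (hl a ha)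
        obtain ⟨M', hM', h4⟩ := collect l' fun a ha => (hY a).1 (hl' a ha)
        refine ⟨M ++ M', ?_, l, l', ?_, ?_, h⟩
        · intro b hb
          rcases List.mem_append.1 hb with hb | hb
          · exact hM b hb
          · exact hM' b hb
        · intro a ha
          obtain ⟨m, hm, hQ⟩ := h3 a ha
          exact ⟨m, fun b hb => List.mem_append.2 (Or.inl (hm b hb)), hQ⟩
        · intro a ha
          obtain ⟨m, hm, hQ⟩ := h4 a ha
          exact ⟨m, fun b hb => List.mem_append.2 (Or.inr (hm b hb)), hQ⟩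
      · rintro ⟨M, hM, l, l', hl, hl', h⟩
        refine ⟨l, l', fun a ha => ?_, fun a ha => ?_, h⟩
        · obtain ⟨m, hm, hQ⟩ := hl a ha
          exact (hX a).2 ⟨m, fun b hb => hM b (hm b hb), hQ⟩
        · obtain ⟨m, hm, hQ⟩ := hl' a ha
          exact (hY a).2 ⟨m, fun b hb => hM b (hm b hb), hQ⟩

theorem ce_adj_iff {E : EIdeal} {A : α → Prop} {p : β → Prop} :
    (E.adj A).Ce p ↔ ∃ Θ : β × List α → Prop, E.Ce Θ ∧
      ∀ b, p b ↔ ∃ l, (∀ a ∈ l, A a) ∧ Θ (b, l) := by
  constructor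
  · rintro ⟨Θ, h, hp⟩
    refine ⟨fun x => Θ (encode x.1, x.2), h.comp (by exact P.pair (P.encode (P.fst P.id)) (P.snd P.id)), fun b => ?_⟩
    rw [← hp (encode b)]
    simp
  · rintro ⟨Θ, h, hp⟩
    refine ⟨fun x => ∃ b, encode b = x.1 ∧ Θ (b, x.2), ?_, fun n => ?_⟩
    · apply EIdeal.Ce.ex
      apply EIdeal.Ce.and
      · apply EIdeal.Ce.eq
        · exact P.encode (P.snd P.id)
        · exact P.fst (P.fst P.id)
      · apply EIdeal.Ce.comp h
        exact P.pair (P.snd P.id) (P.snd (P.fst P.id))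
    · constructor
      · rintro ⟨b, hb, hpb⟩
        obtain ⟨l, hl, h'⟩ := (hp b).1 hpb
        exact ⟨l, hl, b, hb, h'⟩
      · rintro ⟨l, hl, b, hb, h'⟩
        exact ⟨b, hb, (hp b).2 ⟨l, hl, h'⟩⟩

theorem le_adj (E : EIdeal) (A : α → Prop) : E ≤ E.adj A := by
  intro p hp
  refine ⟨fun x => p x.1, (ce_nat.2 hp).comp (by exact P.fst P.id), fun n => ?_⟩
  exact ⟨fun h => ⟨[], by simp, h⟩, fun ⟨_, _, h⟩ => h⟩

theorem adj_self (E : EIdeal) (A : α → Prop) : (E.adj A).Ce A := by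
  classical
  rw [ce_adj_iff]
  refine ⟨fun x => x.2 = [x.1], by
        apply EIdeal.Ce.eq
        · exact P.snd P.id
        · exact P.cons (P.fst P.id) (P.const _), fun a => ?_⟩
  constructor
  · intro h
    exact ⟨[a], by simpa using h, rfl⟩
  · rintro ⟨l, hl, h⟩
    exact hl a (by simp [show l = [a] from h])

theorem adj_le {E F : EIdeal} (h : E ≤ F) {A : α → Prop} (hA : F.Ce A) : E.adj A ≤ F := by
  rintro p ⟨Θ, hΘ, hp⟩
  refine ce_nat.1 (Ce.of_eq (p := fun n => ∃ l, (∀ a ∈ l, A a) ∧ Θ (n, l)) ?_ fun n => (hp n).symm)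
  have h1 := hΘ.mono h
  apply EIdeal.Ce.ex
  apply EIdeal.Ce.and
  · apply EIdeal.Ce.ball
    · apply EIdeal.Ce.comp hA
      exact P.snd P.id
    · exact P.snd P.id
  · apply EIdeal.Ce.comp h1
    exact P.pair (P.fst P.id) (P.snd P.id)

theorem adj_mono {E F : EIdeal} (h : E ≤ F) (A : α → Prop) : E.adj A ≤ F.adj A :=
  adj_le (h.trans (le_adj _ _)) (adj_self _ _)

/-- the union of a chain of ideals -/
def chain (E : ℕ → EIdeal) (hE : Monotone E) : EIdeal where
  carrier := ⋃ n, (E n).carrier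
  countable := Set.countable_iUnion fun n => (E n).countable
  nonempty := by
    obtain ⟨p, hp⟩ := (E 0).nonempty
    exact ⟨p, Set.mem_iUnion.2 ⟨0, hp⟩⟩
  closed := by
    intro X hX Y hY Θ hΘ
    obtain ⟨m, hm⟩ := Set.mem_iUnion.1 hX
    obtain ⟨n, hn⟩ := Set.mem_iUnion.1 hY
    exact Set.mem_iUnion.2 ⟨max m n, (E (max m n)).closed X (hE (le_max_left m n) hm) Y
      (hE (le_max_right m n) hn) Θ hΘ⟩

theorem le_chain (E : ℕ → EIdeal) (hE : Monotone E) (n : ℕ) : E n ≤ chain E hE :=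
  Set.subset_iUnion (fun n => (E n).carrier) n

theorem ce_chain {E : ℕ → EIdeal} {hE : Monotone E} {p : α → Prop} :
    (chain E hE).Ce p ↔ ∃ n, (E n).Ce p := Set.mem_iUnion

/-- the least ideal: all `Σ₁` predicates -/
def base : EIdeal where
  carrier := {p | S1 p}
  countable := countable_s1
  nonempty := ⟨fun _ => True, S1.of_eq (p := fun n : ℕ => n = n)
    (S1.prim (primrecPred_eq (by exact P.id) (by exact P.id))) (by simp)⟩
  closed := by
    intro X hX Y hY Θ hΘ
    refine S1.ex (S1.ex (S1.and ?_ (S1.and ?_ ?_)))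
    · refine S1.ball (p := fun (x : (ℕ × List ℕ) × List ℕ) (a : ℕ) => X a)
        (l := fun x => x.1.2) (S1.comp hX (by exact P.snd P.id)) (by exact P.snd (P.fst P.id))
    · refine S1.ball (p := fun (x : (ℕ × List ℕ) × List ℕ) (a : ℕ) => Y a)
        (l := fun x => x.2) (S1.comp hY (by exact P.snd P.id)) (by exact P.snd P.id)
    · exact S1.comp hΘ (f := fun x : (ℕ × List ℕ) × List ℕ => (x.1.1, x.1.2, x.2)) (by exact P.pair (P.fst (P.fst P.id)) (P.pair (P.snd (P.fst P.id)) (P.snd P.id)))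

theorem ce_base {p : ℕ → Prop} : base.Ce p ↔ S1 p := ce_nat

/-- membership together with the complement -/
def Dec (E : EIdeal) (p : α → Prop) : Prop := E.Ce p ∧ E.Ce fun a => ¬ p a

theorem Dec.mono {E F : EIdeal} (h : E ≤ F) {p : α → Prop} (hp : E.Dec p) : F.Dec p :=
  ⟨hp.1.mono h, hp.2.mono h⟩

end EIdeal

/-- An ideal is thin (for `K`) if the complement of `K` does not belong to it. -/
def Thin (K : ℕ → Prop) (E : EIdeal) : Prop := ¬ E.Ce fun n => ¬ K n

theorem Thin.anti {K : ℕ → Prop} {E F : EIdeal} (h : E ≤ F) (hF : Thin K F) : Thin K E :=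
  fun hE => hF (hE.mono h)

theorem thin_chain {K : ℕ → Prop} {E : ℕ → EIdeal} {hE : Monotone E} (h : ∀ n, Thin K (E n)) :
    Thin K (EIdeal.chain E hE) := by
  intro hc
  obtain ⟨n, hn⟩ := EIdeal.ce_chain.1 hc
  exact h n hn

end Pool.Agent.H78Ext
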