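import Mathlib
import Pool.Agent.H78Ext.Adj

/-!
# Generic sequences and the cone avoidance basis theorem for `Π⁰₁` classes
-/

namespace Pool.Agent.H78Ext

open Encodable Primrec EIdeal

/-- A bookkeeping lemma: generic sequences for a family of requirements that may grow with the
condition. -/
theorem exists_generic {ℙ R : Type*} (ext : ℙ → ℙ → Prop) (hrefl : ∀ p, ext p p)
    (htrans : ∀ p q r, ext p q → ext q r → ext p r) (Req : ℙ → Set R)
    (hc : ∀ p, (Req p).Countable) (hmono : ∀ p q, ext p q → Req p ⊆ Req q)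
    (Meets : ℙ → R → Prop) (hd : ∀ p, ∀ r ∈ Req p, ∃ q, ext p q ∧ Meets q r) (p₀ : ℙ) :
    ∃ s : ℕ → ℙ, s 0 = p₀ ∧ (∀ m n, m ≤ n → ext (s m) (s n)) ∧
      ∀ n, ∀ r ∈ Req (s n), ∃ m, Meets (s m) r := by
  classical
  have henum : ∀ p, ∃ f : ℕ → Option R, ∀ r ∈ Req p, ∃ n, f n = some r := by
    intro p
    rcases (Req p).eq_empty_or_nonempty with h | h
    · exact ⟨fun _ => none, by simp [h]⟩
    · obtain ⟨f, hf⟩ := (hc p).exists_eq_range h
      exact ⟨fun n => some (f n), fun r hr => by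
        rw [hf] at hr
        obtain ⟨n, rfl⟩ := hr
        exact ⟨n, rfl⟩⟩
  choose enum henum using henum
  have hnext : ∀ (p : ℙ) (o : Option R), ∃ q, ext p q ∧ ∀ r ∈ Req p, o = some r → Meets q r := by
    intro p o
    by_cases h : ∃ r ∈ Req p, o = some r
    · obtain ⟨r, hr, rfl⟩ := h
      obtain ⟨q, hq, hm⟩ := hd p r hr
      exact ⟨q, hq, fun r' _ h => by
        obtain rfl := Option.some.inj h
        exact hm⟩
    · exact ⟨p, hrefl p, fun r hr ho => absurd ⟨r, hr, ho⟩ h⟩
  choose next hnext1 hnext2 using hnext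
  let F : ℕ → ℕ → ℙ := fun n => Nat.rec (fun _ => p₀)
    (fun n f => Function.update f (n + 1) (next (f n) (enum (f n.unpair.1) n.unpair.2))) n
  have hF : ∀ n i, i ≤ n → F (n + 1) i = F n i := by
    intro n i hi
    show Function.update (F n) (n + 1) _ i = F n i
    rw [Function.update_of_ne (by omega)]
  have hF' : ∀ n i, i ≤ n → F n i = F i i := by
    intro n
    induction n with
    | zero => intro i hi; obtain rfl : i = 0 := by omega
              rfl
    | succ n ih =>
      intro i hi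
      rcases Nat.lt_or_ge n i with h | h
      · obtain rfl : i = n + 1 := by omega
        rfl
      · rw [hF n i h, ih i h]
  have hstep : ∀ n, F (n + 1) (n + 1) =
      next (F n n) (enum (F n.unpair.1 n.unpair.1) n.unpair.2) := by
    intro n
    show Function.update (F n) (n + 1) (next (F n n) (enum (F n n.unpair.1) n.unpair.2)) (n + 1) = _
    rw [Function.update_self, hF' n n.unpair.1 (Nat.unpair_left_le n)]
  have hext : ∀ m n, m ≤ n → ext (F m m) (F n n) := by
    intro m n h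
    induction n, h using Nat.le_induction with
    | base => exact hrefl _
    | succ n hmn ih =>
      rw [hstep]
      exact htrans _ _ _ ih (hnext1 _ _)
  refine ⟨fun n => F n n, rfl, hext, ?_⟩
  intro n r hr
  obtain ⟨k, hk⟩ := henum _ r hr
  refine ⟨Nat.pair n k + 1, ?_⟩
  show Meets (F (Nat.pair n k + 1) (Nat.pair n k + 1)) r
  rw [hstep]
  refine hnext2 _ _ r ?_ ?_
  · exact hmono _ _ (hext n _ (Nat.left_le_pair n k)) hr
  · simpa using hk

/-! ### Closed classes in Cantor space -/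

/-- The class of all `σ` that satisfy no condition of `U`. -/
def cls (U : List (ℕ × Bool) → Prop) : Set (ℕ → Bool) :=
  {σ | ∀ l, U l → ¬ ∀ a ∈ l, σ a.1 = a.2}

theorem isClosed_cls (U : List (ℕ × Bool) → Prop) : IsClosed (cls U) := by
  have h1 : ∀ l : List (ℕ × Bool), IsOpen {σ : ℕ → Bool | ∀ a ∈ l, σ a.1 = a.2} := by
    intro l
    induction l with
    | nil => simp
    | cons b l ih =>
      have : {σ : ℕ → Bool | ∀ a ∈ b :: l, σ a.1 = a.2} =
          {σ : ℕ → Bool | σ b.1 = b.2} ∩ {σ : ℕ → Bool | ∀ a ∈ l, σ a.1 = a.2} := by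
        ext σ
        simp
      rw [this]
      refine IsOpen.inter ?_ ih
      have h2 : IsOpen ({b.2} : Set Bool) := isOpen_discrete _
      exact h2.preimage (continuous_apply b.1 : Continuous fun σ : ℕ → Bool => σ b.1)
  have : cls U = ⋂ l : List (ℕ × Bool), ⋂ _ : U l, {σ : ℕ → Bool | ∀ a ∈ l, σ a.1 = a.2}ᶜ := by
    ext σ
    simp [cls]
  rw [this]
  exact isClosed_iInter fun l => isClosed_iInter fun _ => (h1 l).isClosed_compl

theorem cls_anti {U V : List (ℕ × Bool) → Prop} (h : ∀ l, U l → V l) : cls V ⊆ cls U :=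
  fun _ hσ l hl => hσ l (h l hl)

theorem cls_iUnion_nonempty {U : ℕ → List (ℕ × Bool) → Prop}
    (hmono : ∀ n l, U n l → U (n + 1) l) (hne : ∀ n, (cls (U n)).Nonempty) :
    (cls fun l => ∃ n, U n l).Nonempty := by
  have h := IsCompact.nonempty_iInter_of_sequence_nonempty_isCompact_isClosed
    (fun n => cls (U n)) (fun n => cls_anti (hmono n)) hne (isClosed_cls (U 0)).isCompact
    (fun n => isClosed_cls (U n))
  obtain ⟨σ, hσ⟩ := h
  refine ⟨σ, ?_⟩
  rintro l ⟨n, hn⟩
  exact Set.mem_iInter.1 hσ n l hn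

/-- all binary strings of length `n` -/
def strs (n : ℕ) : List (List Bool) :=
  Nat.rec [[]] (fun _ L => L.map (List.cons false) ++ L.map (List.cons true)) n

theorem mem_strs {n : ℕ} {τ : List Bool} : τ ∈ strs n ↔ τ.length = n := by
  induction n generalizing τ with
  | zero =>
    show τ ∈ [[]] ↔ _
    simp [List.length_eq_zero_iff]
  | succ n ih =>
    show τ ∈ (strs n).map (List.cons false) ++ (strs n).map (List.cons true) ↔ _
    rw [List.mem_append, List.mem_map, List.mem_map]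
    constructor
    · rintro (⟨ρ, hρ, rfl⟩ | ⟨ρ, hρ, rfl⟩) <;> simp [ih.1 hρ]
    · intro h
      rcases τ with _ | ⟨b, ρ⟩
      · simp at h
      · have hρ : ρ ∈ strs n := ih.2 (by simpa using h)
        cases b
        · exact Or.inl ⟨ρ, hρ, rfl⟩
        · exact Or.inr ⟨ρ, hρ, rfl⟩

theorem primrec_strs : Primrec strs := by
  have h : Primrec₂ fun (_ : ℕ) (L : List (List Bool)) =>
      L.map (List.cons false) ++ L.map (List.cons true) := by
    refine Primrec.list_append.comp ?_ ?_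
    · exact Primrec.list_map Primrec.snd
        (Primrec.list_cons.comp (Primrec.const false) Primrec.snd).to₂
    · exact Primrec.list_map Primrec.snd
        (Primrec.list_cons.comp (Primrec.const true) Primrec.snd).to₂
  exact Primrec.nat_rec₁ [[]] h

/-- effective compactness -/
theorem cls_empty_iff {U : List (ℕ × Bool) → Prop} :
    ¬ (cls U).Nonempty ↔
      ∃ N, ∀ τ ∈ strs N, ∃ l, U l ∧ ∀ a ∈ l, τ[a.1]? = some a.2 := by
  constructor
  · intro h
    by_contra hc
    push Not at hc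
    apply h
    have h1 := cls_iUnion_nonempty (U := fun N l => U l ∧ ∀ a ∈ l, a.1 < N) ?_ ?_
    · obtain ⟨σ, hσ⟩ := h1
      refine ⟨σ, fun l hl => hσ l ?_⟩
      have : ∃ N, ∀ a ∈ l, a.1 < N := by
        clear hl
        induction l with
        | nil => exact ⟨0, by simp⟩
        | cons b l ih =>
          obtain ⟨N, hN⟩ := ih
          refine ⟨max N (b.1 + 1), fun a ha => ?_⟩
          rcases List.mem_cons.1 ha with rfl | ha
          · omega
          · have := hN a ha
            omega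
      obtain ⟨N, hN⟩ := this
      exact ⟨N, hl, hN⟩
    · rintro n l ⟨h1, h2⟩
      exact ⟨h1, fun a ha => (h2 a ha).trans (Nat.lt_succ_self n)⟩
    · intro N
      obtain ⟨τ, hτ, h2⟩ := hc N
      rw [mem_strs] at hτ
      refine ⟨fun i => (τ[i]?).getD false, ?_⟩
      rintro l ⟨hU, hN⟩ hl
      obtain ⟨a, ha, hne⟩ := h2 l hU
      apply hne
      have h3 := hl a ha
      have h4 : a.1 < τ.length := hτ ▸ hN a ha
      simp only [List.getElem?_eq_getElem h4, Option.getD_some] at h3 ⊢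
      rw [h3]
  · rintro ⟨N, hN⟩ ⟨σ, hσ⟩
    obtain ⟨l, hl, h⟩ := hN ((List.range N).map σ) (mem_strs.2 (by simp))
    refine hσ l hl fun a ha => ?_
    have := h a ha
    simp only [List.getElem?_map, Option.map_eq_some_iff] at this
    obtain ⟨i, hi, h2⟩ := this
    have h3 := List.getElem?_eq_some_iff.1 hi
    obtain ⟨h4, h5⟩ := h3
    simp only [List.getElem_range] at h5
    rw [h5]
    exact h2

/-- One step of the cone avoidance construction. -/
theorem basis_step {K : ℕ → Prop} {E : EIdeal} (hE : Thin K E)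
    {U : List (ℕ × Bool) → Prop} (hU : E.Ce U) (hne : (cls U).Nonempty)
    {Θ : ℕ × List (ℕ × Bool) → Prop} (hΘ : E.Ce Θ) :
    ∃ V : List (ℕ × Bool) → Prop, E.Ce V ∧ (cls V).Nonempty ∧ (∀ l, U l → V l) ∧
      ∀ σ ∈ cls V, ¬ ∀ n, (¬ K n ↔ ∃ l, (∀ a ∈ l, σ a.1 = a.2) ∧ Θ (n, l)) := by
  by_cases h : ∃ n, ¬ K n ∧ (cls fun l => U l ∨ Θ (n, l)).Nonempty
  · obtain ⟨n, hn, hne'⟩ := h
    refine ⟨fun l => U l ∨ Θ (n, l), ?_, hne', fun l hl => Or.inl hl, ?_⟩
    · have h1 : E.Ce fun l => Θ (n, l) := hΘ.comp (f := fun l => (n, l))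
        (Primrec.pair (Primrec.const n) Primrec.id)
      exact Ce.or hU h1
    · intro σ hσ hc
      obtain ⟨l, hl, hl'⟩ := (hc n).1 hn
      exact hσ l (Or.inr hl') hl
  · -- otherwise some `n ∈ K` is enumerated by all members
    push Not at h
    have h2 : ∃ n, K n ∧ ¬ (cls fun l => U l ∨ Θ (n, l)).Nonempty := by
      by_contra hc
      push Not at hc
      apply hE
      have h3 : E.Ce fun n => ∃ N, ∀ τ ∈ strs N, ∃ l : List (ℕ × Bool), (U l ∨ Θ (n, l)) ∧
          ∀ a ∈ l, τ[a.1]? = some a.2 := by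
        have hs : ∀ {γ : Type} [Primcodable γ] {f : γ → ℕ}, Primrec f →
          Primrec fun x => strs (f x) := fun hf => primrec_strs.comp hf
        refine Ce.ex (Ce.ball (l := fun x : ℕ × ℕ => strs x.2) ?_ (hs (by exact P.snd P.id)))
        apply EIdeal.Ce.ex
        apply EIdeal.Ce.and
        · apply EIdeal.Ce.or
          · apply EIdeal.Ce.comp hU
            exact P.snd P.id
          · apply EIdeal.Ce.comp hΘ
            exact P.pair (P.fst (P.fst (P.fst P.id))) (P.snd P.id)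
        · apply EIdeal.Ce.ball
          · apply EIdeal.Ce.eq
            · exact P.getElem? (P.snd (P.fst (P.fst P.id))) (P.fst (P.snd P.id))
            · exact P.some (P.snd (P.snd P.id))
          · exact P.snd P.id
      refine h3.of_eq fun n => ?_
      rw [← cls_empty_iff (U := fun l => U l ∨ Θ (n, l))]
      constructor
      · intro h4 hK
        exact h4 (hc n hK)
      · intro hK h4
        obtain ⟨σ, hσ⟩ := h4
        have h5 := h n hK
        rw [h5] at hσ
        exact hσ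
    obtain ⟨n, hn, hemp⟩ := h2
    refine ⟨U, hU, hne, fun l hl => hl, ?_⟩
    intro σ hσ hc
    have h4 : ∃ l, (∀ a ∈ l, σ a.1 = a.2) ∧ Θ (n, l) := by
      by_contra h5
      apply hemp
      refine ⟨σ, ?_⟩
      rintro l (hl | hl) h6
      · exact hσ l hl h6
      · exact h5 ⟨l, h6, hl⟩
    exact ((hc n).2 h4) hn

/-- graph of a function -/
def Gr {α β : Type} (f : α → β) : α × β → Prop := fun x => f x.1 = x.2

/-- **Cone avoidance basis theorem.** -/
theorem basis {K : ℕ → Prop} {E : EIdeal} (hE : Thin K E)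
    {U : List (ℕ × Bool) → Prop} (hU : E.Ce U) (hne : (cls U).Nonempty) :
    ∃ σ ∈ cls U, Thin K (E.adj (Gr σ)) := by
  let ℙ := {V : List (ℕ × Bool) → Prop // E.Ce V ∧ (cls V).Nonempty}
  obtain ⟨s, hs0, hs, hm⟩ := exists_generic (ℙ := ℙ) (R := ℕ × List (ℕ × Bool) → Prop)
    (fun p q => ∀ l, p.1 l → q.1 l) (fun p l h => h) (fun p q r h1 h2 l hl => h2 l (h1 l hl))
    (fun _ => {Θ | E.Ce Θ}) (fun _ => countable_ce E) (fun _ _ _ => Set.Subset.refl _)
    (fun p Θ => ∀ σ ∈ cls p.1, ¬ ∀ n, (¬ K n ↔ ∃ l, (∀ a ∈ l, σ a.1 = a.2) ∧ Θ (n, l)))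
    (fun p Θ hΘ => by
      obtain ⟨V, hV, hVne, hUV, hm⟩ := basis_step hE p.2.1 p.2.2 hΘ
      exact ⟨⟨V, hV, hVne⟩, hUV, hm⟩)
    (⟨U, hU, hne⟩ : ℙ)
  have h1 := cls_iUnion_nonempty (U := fun n => (s n).1)
    (fun n l h => hs n (n + 1) (Nat.le_succ n) l h) (fun n => (s n).2.2)
  obtain ⟨σ, hσ⟩ := h1
  have hσ' : ∀ n, σ ∈ cls (s n).1 := fun n l hl => hσ l ⟨n, hl⟩
  refine ⟨σ, ?_, ?_⟩
  · have := hσ' 0
    rw [hs0] at this
    exact this
  · intro hc
    obtain ⟨Θ, hΘ, h2⟩ := ce_adj_iff.1 hc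
    obtain ⟨m, hm'⟩ := hm 0 Θ hΘ
    exact hm' σ (hσ' m) h2

end Pool.Agent.H78Ext
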