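import Mathlib
import Pool.Agent.H78Ext.Basis

/-!
# Linear extensions, ordered sums, solvability
-/

namespace Pool.Agent.H78Ext

open Encodable Primrec EIdeal

/-- `L` is a (strict) linear extension of the restriction of `lt` to `B`. -/
structure LinExt (lt : ℕ → ℕ → Prop) (B : ℕ → Prop) (L : ℕ → ℕ → Prop) : Prop where
  dom : ∀ a b, L a b → B a ∧ B b
  irr : ∀ a, ¬ L a a
  trans : ∀ a b c, L a b → L b c → L a c
  tot : ∀ a b, B a → B b → a ≠ b → L a b ∨ L b a
  ext : ∀ a b, B a → B b → lt a b → L a b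

theorem LinExt.asymm {lt : ℕ → ℕ → Prop} {B : ℕ → Prop} {L : ℕ → ℕ → Prop} (h : LinExt lt B L)
    {a b : ℕ} (h1 : L a b) (h2 : L b a) : False := h.irr a (h.trans _ _ _ h1 h2)

theorem LinExt.congr {lt : ℕ → ℕ → Prop} {B B' : ℕ → Prop} {L : ℕ → ℕ → Prop}
    (h : LinExt lt B L) (hB : ∀ x, B' x ↔ B x) : LinExt lt B' L := by
  have : B' = B := funext fun x => propext (hB x)
  exact this ▸ h

/-- infinite descending sequences -/
def Desc (L : ℕ → ℕ → Prop) (f : ℕ → ℕ) : Prop := ∀ n, L (f (n + 1)) (f n)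

/-- ordered sum of two blocks -/
def osum (A : ℕ → Prop) (Λ : ℕ → ℕ → Prop) (B : ℕ → Prop) (Γ : ℕ → ℕ → Prop) : ℕ → ℕ → Prop :=
  fun a b => Λ a b ∨ Γ a b ∨ (A a ∧ B b)

section Sum

variable {lt : ℕ → ℕ → Prop} {A B : ℕ → Prop} {Λ Γ : ℕ → ℕ → Prop}

theorem LinExt.osum (hA : LinExt lt A Λ) (hB : LinExt lt B Γ) (hd : ∀ x, A x → ¬ B x)
    (hlt : ∀ a b, A a → B b → ¬ lt b a) :
    LinExt lt (fun x => A x ∨ B x) (osum A Λ B Γ) where
  dom := by
    rintro a b (h | h | h)
    · exact ⟨Or.inl (hA.dom _ _ h).1, Or.inl (hA.dom _ _ h).2⟩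
    · exact ⟨Or.inr (hB.dom _ _ h).1, Or.inr (hB.dom _ _ h).2⟩
    · exact ⟨Or.inl h.1, Or.inr h.2⟩
  irr := by
    rintro a (h | h | h)
    · exact hA.irr _ h
    · exact hB.irr _ h
    · exact hd _ h.1 h.2
  trans := by
    rintro a b c (h | h | h) (h' | h' | h')
    · exact Or.inl (hA.trans _ _ _ h h')
    · exact absurd (hB.dom _ _ h').1 (hd _ (hA.dom _ _ h).2)
    · exact Or.inr (Or.inr ⟨(hA.dom _ _ h).1, h'.2⟩)
    · exact absurd (hB.dom _ _ h).2 (hd _ (hA.dom _ _ h').1)
    · exact Or.inr (Or.inl (hB.trans _ _ _ h h'))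
    · exact absurd (hB.dom _ _ h).2 (hd _ h'.1)
    · exact absurd h.2 (hd _ (hA.dom _ _ h').1)
    · exact Or.inr (Or.inr ⟨h.1, (hB.dom _ _ h').2⟩)
    · exact absurd h.2 (hd _ h'.1)
  tot := by
    rintro a b (ha | ha) (hb | hb) hab
    · exact (hA.tot a b ha hb hab).imp Or.inl Or.inl
    · exact Or.inl (Or.inr (Or.inr ⟨ha, hb⟩))
    · exact Or.inr (Or.inr (Or.inr ⟨hb, ha⟩))
    · exact (hB.tot a b ha hb hab).imp (fun h => Or.inr (Or.inl h)) (fun h => Or.inr (Or.inl h))
  ext := by
    rintro a b (ha | ha) (hb | hb) hab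
    · exact Or.inl (hA.ext a b ha hb hab)
    · exact Or.inr (Or.inr ⟨ha, hb⟩)
    · exact absurd hab (hlt _ _ hb ha)
    · exact Or.inr (Or.inl (hB.ext a b ha hb hab))

theorem desc_osum (hA : LinExt lt A Λ) (hB : LinExt lt B Γ) (hd : ∀ x, A x → ¬ B x)
    {f : ℕ → ℕ} (hf : Desc (osum A Λ B Γ) f) :
    Desc Γ f ∨ ∃ k, Desc Λ fun n => f (k + n) := by
  by_cases h : ∃ k, A (f k)
  · obtain ⟨k, hk⟩ := h
    right
    have key : ∀ n, A (f (k + n)) := by
      intro n
      induction n with
      | zero => exact hk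
      | succ n ih =>
        rcases hf (k + n) with h | h | h
        · exact (hA.dom _ _ h).1
        · exact absurd (hB.dom _ _ h).2 (hd _ ih)
        · exact absurd h.2 (hd _ ih)
    refine ⟨k, fun n => ?_⟩
    rcases hf (k + n) with h | h | h
    · exact h
    · exact absurd (hB.dom _ _ h).2 (hd _ (key n))
    · exact absurd h.2 (hd _ (key n))
  · left
    intro n
    rcases hf n with h' | h' | h'
    · exact absurd ⟨_, (hA.dom _ _ h').1⟩ h
    · exact h'
    · exact absurd ⟨_, h'.1⟩ h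

theorem ce_osum {E : EIdeal} (hA : E.Ce A) (hB : E.Ce B)
    (hΛ : E.Ce fun x : ℕ × ℕ => Λ x.1 x.2) (hΓ : E.Ce fun x : ℕ × ℕ => Γ x.1 x.2) :
    E.Ce fun x : ℕ × ℕ => osum A Λ B Γ x.1 x.2 := by
  unfold osum
  apply EIdeal.Ce.or
  · apply EIdeal.Ce.rel hΛ
    · exact P.fst P.id
    · exact P.snd P.id
  · apply EIdeal.Ce.or
    · apply EIdeal.Ce.rel hΓ
      · exact P.fst P.id
      · exact P.snd P.id
    · apply EIdeal.Ce.and
      · apply EIdeal.Ce.comp hA
        exact P.fst P.id
      · apply EIdeal.Ce.comp hB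
        exact P.snd P.id

end Sum

/-- The ideal `E` together with the sequence `f` computes `K`. -/
def Comp (K : ℕ → Prop) (E : EIdeal) (f : ℕ → ℕ) : Prop := ¬ Thin K (E.adj (Gr f))

theorem Comp.mono {K : ℕ → Prop} {E F : EIdeal} (h : E ≤ F) {f : ℕ → ℕ} (hf : Comp K E f) :
    Comp K F f := fun hF => hf (Thin.anti (adj_mono h _) hF)

theorem Comp.of_shift {K : ℕ → Prop} {E : EIdeal} {f : ℕ → ℕ} {k : ℕ}
    (h : Comp K E fun n => f (k + n)) : Comp K E f := by
  intro hf
  refine h (Thin.anti (adj_le (le_adj _ _) ?_) hf)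
  have h1 : (E.adj (Gr f)).Ce (Gr f) := adj_self _ _
  exact h1.comp (f := fun x : ℕ × ℕ => (k + x.1, x.2)) (by exact P.pair (P.add (P.const _) (P.fst P.id)) (P.snd P.id))

variable (K : ℕ → Prop) (lt : ℕ → ℕ → Prop)

/-- Solvability: a thin extension of the ideal contains a linear extension all of whose
descending sequences compute `K` (with the help of the ideal). -/
def Sol (E : EIdeal) (B : ℕ → Prop) : Prop :=
  ∃ F, E ≤ F ∧ Thin K F ∧ ∃ L, LinExt lt B L ∧ (F.Ce fun x : ℕ × ℕ => L x.1 x.2) ∧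
    ∀ f, Desc L f → Comp K F f

/-- Hereditary solvability. -/
def HS (E : EIdeal) (B : ℕ → Prop) : Prop :=
  ∀ F, E ≤ F → Thin K F → ∀ B' : ℕ → Prop, (∀ x, B' x → B x) → F.Dec B' → Sol K lt F B'

variable {K lt}

theorem HS.mono {E F : EIdeal} {B B' : ℕ → Prop} (h : HS K lt E B) (hEF : E ≤ F)
    (hB : ∀ x, B' x → B x) : HS K lt F B' :=
  fun G hG hT C hC hd => h G (hEF.trans hG) hT C (fun x hx => hB x (hC x hx)) hd

theorem HS.sol {E : EIdeal} {B : ℕ → Prop} (h : HS K lt E B) (hE : Thin K E) (hd : E.Dec B) :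
    Sol K lt E B := h E le_rfl hE B (fun _ h => h) hd

theorem Sol.congr {E : EIdeal} {B B' : ℕ → Prop} (h : Sol K lt E B) (hB : ∀ x, B' x ↔ B x) :
    Sol K lt E B' := by
  have : B' = B := funext fun x => propext (hB x)
  exact this ▸ h

theorem Sol.of_le {E F : EIdeal} {B : ℕ → Prop} (h : Sol K lt F B) (hEF : E ≤ F) :
    Sol K lt E B := by
  obtain ⟨G, hG, h⟩ := h
  exact ⟨G, hEF.trans hG, h⟩

theorem sol_of_empty {E : EIdeal} (hE : Thin K E) {B : ℕ → Prop} (hB : ∀ x, ¬ B x) :
    Sol K lt E B := by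
  refine ⟨E, le_rfl, hE, fun _ _ => False, ?_, Ce.const _, ?_⟩
  · exact ⟨fun _ _ h => h.elim, fun _ h => h, fun _ _ _ h => h.elim, fun a _ ha => (hB a ha).elim,
      fun a _ ha => (hB a ha).elim⟩
  · intro f hf
    exact (hf 0).elim

/-- Solving two blocks one after the other. -/
theorem Sol.sum {E : EIdeal} {A B : ℕ → Prop} (hA : Sol K lt E A)
    (hB : ∀ F, E ≤ F → Thin K F → Sol K lt F B) (hAc : E.Ce A) (hBc : E.Ce B)
    (hd : ∀ x, A x → ¬ B x) (hlt : ∀ a b, A a → B b → ¬ lt b a) :
    Sol K lt E fun x => A x ∨ B x := by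
  obtain ⟨F, hF, hFT, Λ, hΛ, hΛc, hΛd⟩ := hA
  obtain ⟨G, hG, hGT, Γ, hΓ, hΓc, hΓd⟩ := hB F hF hFT
  refine ⟨G, hF.trans hG, hGT, osum A Λ B Γ, hΛ.osum hΓ hd hlt,
    ce_osum (hAc.mono (hF.trans hG)) (hBc.mono (hF.trans hG)) (hΛc.mono hG) hΓc, ?_⟩
  intro f hf
  rcases desc_osum hΛ hΓ hd hf with h | ⟨k, h⟩
  · exact hΓd f h
  · exact Comp.of_shift ((hΛd _ h).mono hG)

theorem HS.le_of_lt {E : EIdeal} {B : ℕ → Prop} (hirr : ∀ x, ¬ lt x x)
    (htr : ∀ x y z, lt x y → lt y z → lt x z) {x : ℕ} (h : HS K lt E fun y => B y ∧ lt y x) :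
    HS K lt E fun y => B y ∧ (lt y x ∨ y = x) := by
  intro F hF hT C hC hd
  have hdc := hd.1
  have hdn := hd.2
  by_cases hx : C x
  · have h1 : Sol K lt F fun y => C y ∧ y ≠ x := by
      refine h F hF hT _ ?_ ⟨?_, ?_⟩
      · rintro y ⟨hy, hyx⟩
        exact ⟨(hC y hy).1, (hC y hy).2.resolve_right hyx⟩
      · apply EIdeal.Ce.and
        · apply EIdeal.Ce.comp hdc
          exact P.id
        · apply EIdeal.Ce.ne
          · exact P.id
          · exact P.const _
      · have : F.Ce fun y : ℕ => ¬ C y ∨ y = x := by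
            apply EIdeal.Ce.or
            · apply EIdeal.Ce.ncomp hdn
              exact P.id
            · apply EIdeal.Ce.eq
              · exact P.id
              · exact P.const _
        refine this.of_eq fun y => ?_
        by_cases hy : y = x <;> simp [hy]
    refine Sol.congr (B := fun y => (C y ∧ y ≠ x) ∨ y = x) ?_ fun y => ?_
    · refine Sol.sum h1 ?_ (by
          apply EIdeal.Ce.and
          · apply EIdeal.Ce.comp hdc
            exact P.id
          · apply EIdeal.Ce.ne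
            · exact P.id
            · exact P.const _) (by
          apply EIdeal.Ce.eq
          · exact P.id
          · exact P.const _) (fun y hy => hy.2) ?_
      · intro G hG hGT
        refine ⟨G, le_rfl, hGT, fun _ _ => False, ?_, Ce.const _, ?_⟩
        · refine ⟨fun _ _ h => h.elim, fun _ h => h, fun _ _ _ h => h.elim, ?_, ?_⟩
          · rintro a b rfl rfl hab
            exact (hab rfl).elim
          · rintro a b rfl rfl hab
            exact hirr _ hab
        · intro f hf
          exact (hf 0).elim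
      · rintro a b ⟨ha, hax⟩ rfl hlt
        rcases (hC a ha).2 with h2 | h2
        · exact hirr _ (htr _ _ _ hlt h2)
        · exact hax h2
    · constructor
      · intro hy
        by_cases hyx : y = x
        · exact Or.inr hyx
        · exact Or.inl ⟨hy, hyx⟩
      · rintro (hy | rfl)
        · exact hy.1
        · exact hx
  · refine h F hF hT C ?_ hd
    intro y hy
    refine ⟨(hC y hy).1, (hC y hy).2.resolve_right ?_⟩
    rintro rfl
    exact hx hy

/-- every finite subset of `B` can be listed in increasing order -/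
theorem exists_chain {B : ℕ → Prop} {L : ℕ → ℕ → Prop} (h : LinExt lt B L) (m : List ℕ)
    (hm : ∀ x ∈ m, B x) : ∃ c : List ℕ, (∀ x ∈ c, B x) ∧ c.Pairwise L ∧ ∀ x ∈ m, x ∈ c := by
  classical
  induction m with
  | nil => exact ⟨[], by simp, List.Pairwise.nil, by simp⟩
  | cons x m ih =>
    obtain ⟨c, hc, hp, hmc⟩ := ih fun y hy => hm y (List.mem_cons_of_mem _ hy)
    have hx : B x := hm x (by simp)
    refine ⟨c.filter (fun y => decide (L y x)) ++ x :: c.filter (fun y => decide (L x y)),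
      ?_, ?_, ?_⟩
    · intro y hy
      rcases List.mem_append.1 hy with hy | hy
      · exact hc y (List.mem_filter.1 hy).1
      · rcases List.mem_cons.1 hy with rfl | hy
        · exact hx
        · exact hc y (List.mem_filter.1 hy).1
    · rw [List.pairwise_append]
      refine ⟨hp.filter _, ?_, ?_⟩
      · rw [List.pairwise_cons]
        refine ⟨fun y hy => ?_, hp.filter _⟩
        simpa using (List.mem_filter.1 hy).2
      · intro y hy z hz
        have hy' : L y x := by simpa using (List.mem_filter.1 hy).2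
        rcases List.mem_cons.1 hz with rfl | hz
        · exact hy'
        · exact h.trans _ _ _ hy' (by simpa using (List.mem_filter.1 hz).2)
    · intro y hy
      by_cases hyx : y = x
      · subst hyx
        simp
      · have hyc : y ∈ c := by
          rcases List.mem_cons.1 hy with h' | h'
          · exact absurd h' hyx
          · exact hmc y h'
        rcases h.tot y x (hc y hyc) hx hyx with h' | h'
        · refine List.mem_append.2 (Or.inl (List.mem_filter.2 ⟨hyc, ?_⟩))
          simpa using h'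
        · refine List.mem_append.2 (Or.inr (List.mem_cons_of_mem _ (List.mem_filter.2 ⟨hyc, ?_⟩)))
          simpa using h'

theorem EIdeal.Ce.pairwise {E : EIdeal} {γ α : Type} [Primcodable α] [Primcodable γ]
    {R : γ → α → α → Prop}
    (hR : E.Ce fun x : γ × α × α => R x.1 x.2.1 x.2.2) {l : γ → List α} (hl : Primrec l) :
    E.Ce fun c => (l c).Pairwise (R c) := by
  have h1 : E.Ce fun c => ∀ i ∈ List.range (l c).length, ∀ j ∈ List.range i, ∃ a b,
      (l c)[j]? = some a ∧ (l c)[i]? = some b ∧ R c a b := by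
    have hl' : ∀ {δ : Type} [Primcodable δ] {f : δ → γ}, Primrec f → Primrec fun x => l (f x) :=
      fun hf => hl.comp hf
    refine Ce.ball ?_ ?_
    · refine Ce.ball ?_ ?_
      · refine Ce.ex ?_
        refine Ce.ex ?_
        refine Ce.and ?_ ?_
        · exact Ce.eq (P.getElem? (hl' (by exact P.fst (P.fst (P.fst (P.fst P.id))))) (by exact P.snd (P.fst (P.fst P.id)))) (by exact P.some (P.snd (P.fst P.id)))
        · refine Ce.and ?_ ?_
          · exact Ce.eq (P.getElem? (hl' (by exact P.fst (P.fst (P.fst (P.fst P.id))))) (by exact P.snd (P.fst (P.fst (P.fst P.id))))) (by exact P.some (P.snd P.id))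
          · exact hR.comp (f := fun x : (((γ × ℕ) × ℕ) × α) × α => (x.1.1.1.1, x.1.2, x.2))
              (by exact P.pair (P.fst (P.fst (P.fst (P.fst P.id)))) (P.pair (P.snd (P.fst P.id)) (P.snd P.id)))
      · exact P.range (P.snd P.id)
    · exact Primrec.list_range.comp (Primrec.list_length.comp hl)
  refine h1.of_eq fun c => ?_
  rw [List.pairwise_iff_getElem]
  constructor
  · intro h j i hj hi hji
    obtain ⟨a, b, ha, hb, hab⟩ := h i (List.mem_range.2 hi) j (List.mem_range.2 hji)
    rw [List.getElem?_eq_getElem hj] at ha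
    rw [List.getElem?_eq_getElem hi] at hb
    rw [Option.some.inj ha, Option.some.inj hb]
    exact hab
  · intro h i hi j hj
    have hi := List.mem_range.1 hi
    have hj := List.mem_range.1 hj
    exact ⟨_, _, List.getElem?_eq_getElem (hj.trans hi), List.getElem?_eq_getElem hi,
      h j i (hj.trans hi) hi hj⟩

end Pool.Agent.H78Ext
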