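import Mathlib
import Pool.Agent.H78Ext.Orders

/-!
# The gap lemma: conditions and their extensions
-/

namespace Pool.Agent.H78Ext

open Encodable Primrec EIdeal

/-- hypotheses of the gap lemma -/
structure GapHyp (K : ℕ → Prop) (lt : ℕ → ℕ → Prop) (E : EIdeal) (B S : ℕ → Prop) : Prop where
  thin : Thin K E
  hirr : ∀ x, ¬ lt x x
  htr : ∀ x y z, lt x y → lt y z → lt x z
  decB : E.Dec B
  declt : E.Dec fun x : ℕ × ℕ => lt x.1 x.2
  ceK : S1 K
  ceS : E.Ce S
  SB : ∀ x, S x → B x
  Sdown : ∀ x y, S x → B y → lt y x → S y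
  hi : ∀ x, S x → HS K lt E fun y => B y ∧ lt y x
  hii : ∀ F, E ≤ F → Thin K F → ∀ β : ℕ → Prop, (∀ x, β x → B x ∧ ¬ S x) → F.Dec β →
    Sol K lt F β

/-- forcing conditions -/
structure Cond (K : ℕ → Prop) (lt : ℕ → ℕ → Prop) (E : EIdeal) (B S : ℕ → Prop) where
  J : EIdeal
  A : ℕ → Prop
  Z : ℕ → Prop
  Λ : ℕ → ℕ → Prop
  Γ : ℕ → ℕ → Prop
  hJ : E ≤ J
  thin : Thin K J
  decA : J.Dec A
  decZ : J.Dec Z
  AS : ∀ x, A x → S x
  Adown : ∀ x y, A x → B y → lt y x → A y
  ZV : ∀ x, Z x → B x ∧ ¬ S x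
  Zup : ∀ x y, Z x → B y → lt x y → Z y
  linA : LinExt lt A Λ
  linZ : LinExt lt Z Γ
  ceA : J.Ce fun x : ℕ × ℕ => Λ x.1 x.2
  ceZ : J.Ce fun x : ℕ × ℕ => Γ x.1 x.2
  descA : ∀ f, Desc Λ f → Comp K J f
  descZ : ∀ f, Desc Γ f → Comp K J f

variable {K : ℕ → Prop} {lt : ℕ → ℕ → Prop} {E : EIdeal} {B S : ℕ → Prop}

/-- extension of conditions -/
structure Ext (p q : Cond K lt E B S) : Prop where
  J : p.J ≤ q.J
  A : ∀ x, p.A x → q.A x
  Z : ∀ x, p.Z x → q.Z x
  Λ : ∀ a b, p.Λ a b → q.Λ a b
  Γ : ∀ a b, p.Γ a b → q.Γ a b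
  ini : ∀ a b, p.A a → q.A b → ¬ p.A b → q.Λ a b
  fin : ∀ a b, q.Z a → ¬ p.Z a → p.Z b → q.Γ a b

theorem Ext.refl (p : Cond K lt E B S) : Ext p p :=
  ⟨le_rfl, fun _ h => h, fun _ h => h, fun _ _ h => h, fun _ _ h => h,
    fun _ _ _ h h' => absurd h h', fun _ _ h h' => absurd h h'⟩

theorem Ext.trans {p q r : Cond K lt E B S} (h : Ext p q) (h' : Ext q r) : Ext p r where
  J := h.J.trans h'.J
  A x hx := h'.A x (h.A x hx)
  Z x hx := h'.Z x (h.Z x hx)
  Λ a b hab := h'.Λ a b (h.Λ a b hab)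
  Γ a b hab := h'.Γ a b (h.Γ a b hab)
  ini a b ha hb hb' := by
    by_cases hq : q.A b
    · exact h'.Λ a b (h.ini a b ha hq hb')
    · exact h'.ini a b (h.A a ha) hb hq
  fin a b ha ha' hb := by
    by_cases hq : q.Z a
    · exact h'.Γ a b (h.fin a b hq ha' hb)
    · exact h'.fin a b ha hq (h.Z b hb)

theorem dec_or {E : EIdeal} {A B : ℕ → Prop} (hA : E.Dec A) (hB : E.Dec B) :
    E.Dec fun x => A x ∨ B x := by
  obtain ⟨h1, h2⟩ := hA
  obtain ⟨h3, h4⟩ := hB
  refine ⟨by
        apply EIdeal.Ce.or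
        · apply EIdeal.Ce.comp h1
          exact P.id
        · apply EIdeal.Ce.comp h3
          exact P.id, ?_⟩
  have : E.Ce fun x => ¬ A x ∧ ¬ B x := by
        apply EIdeal.Ce.and
        · apply EIdeal.Ce.ncomp h2
          exact P.id
        · apply EIdeal.Ce.ncomp h4
          exact P.id
  exact this.of_eq fun x => by tauto

/-- insert a new block on top of the lower part -/
theorem insertA (H : GapHyp K lt E B S) (p : Cond K lt E B S) (N : ℕ → Prop)
    (hN : ∀ x, N x → S x ∧ ¬ p.A x) (hdown : ∀ x y, N x → B y → lt y x → p.A y ∨ N y)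
    (hdec : p.J.Dec N) (hsol : Sol K lt p.J N) :
    ∃ q : Cond K lt E B S, Ext p q ∧ (∀ x, q.A x ↔ p.A x ∨ N x) ∧ ∀ x, q.Z x ↔ p.Z x := by
  obtain ⟨F, hF, hFT, L, hL, hLc, hLd⟩ := hsol
  have hdisj : ∀ x, p.A x → ¬ N x := fun x hx hn => (hN x hn).2 hx
  have hlt : ∀ a b, p.A a → N b → ¬ lt b a := fun a b ha hb hab =>
    (hN b hb).2 (p.Adown a b ha (H.SB b (hN b hb).1) hab)
  let q : Cond K lt E B S :=
    { J := F
      A := fun x => p.A x ∨ N x
      Z := p.Z
      Λ := osum p.A p.Λ N L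
      Γ := p.Γ
      hJ := p.hJ.trans hF
      thin := hFT
      decA := dec_or (p.decA.mono hF) (hdec.mono hF)
      decZ := p.decZ.mono hF
      AS := by
        rintro x (h | h)
        · exact p.AS x h
        · exact (hN x h).1
      Adown := by
        rintro x y (h | h) hy hlt
        · exact Or.inl (p.Adown x y h hy hlt)
        · exact hdown x y h hy hlt
      ZV := p.ZV
      Zup := p.Zup
      linA := p.linA.osum hL hdisj hlt
      linZ := p.linZ
      ceA := ce_osum (p.decA.1.mono hF) (hdec.1.mono hF) (p.ceA.mono hF) hLc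
      ceZ := p.ceZ.mono hF
      descA := by
        intro f hf
        rcases desc_osum p.linA hL hdisj hf with h | ⟨k, h⟩
        · exact hLd f h
        · exact Comp.of_shift ((p.descA _ h).mono hF)
      descZ := fun f hf => (p.descZ f hf).mono hF }
  refine ⟨q, ?_, fun x => Iff.rfl, fun x => Iff.rfl⟩
  exact
    { J := hF
      A := fun x hx => Or.inl hx
      Z := fun x hx => hx
      Λ := fun a b h => Or.inl h
      Γ := fun a b h => h
      ini := fun a b ha hb hb' => Or.inr (Or.inr ⟨ha, hb.resolve_left hb'⟩)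
      fin := fun a b ha ha' => absurd ha ha' }

/-- insert a new block below the upper part -/
theorem insertZ (p : Cond K lt E B S) (N : ℕ → Prop)
    (hN : ∀ x, N x → (B x ∧ ¬ S x) ∧ ¬ p.Z x) (hup : ∀ x y, N x → B y → lt x y → N y ∨ p.Z y)
    (J : EIdeal) (hJ : p.J ≤ J) (hdec : J.Dec N) (hsol : Sol K lt J N) :
    ∃ q : Cond K lt E B S, Ext p q ∧ J ≤ q.J ∧ (∀ x, q.A x ↔ p.A x) ∧
      ∀ x, q.Z x ↔ N x ∨ p.Z x := by
  obtain ⟨F, hF, hFT, L, hL, hLc, hLd⟩ := hsol
  have hF' : p.J ≤ F := hJ.trans hF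
  have hdisj : ∀ x, N x → ¬ p.Z x := fun x hn hx => (hN x hn).2 hx
  have hlt : ∀ a b, N a → p.Z b → ¬ lt b a := fun a b ha hb hab =>
    (hN a ha).2 (p.Zup b a hb (hN a ha).1.1 hab)
  let q : Cond K lt E B S :=
    { J := F
      A := p.A
      Z := fun x => N x ∨ p.Z x
      Λ := p.Λ
      Γ := osum N L p.Z p.Γ
      hJ := p.hJ.trans hF'
      thin := hFT
      decA := p.decA.mono hF'
      decZ := dec_or (hdec.mono hF) (p.decZ.mono hF')
      AS := p.AS
      Adown := p.Adown
      ZV := by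
        rintro x (h | h)
        · exact (hN x h).1
        · exact p.ZV x h
      Zup := by
        rintro x y (h | h) hy hlt
        · exact hup x y h hy hlt
        · exact Or.inr (p.Zup x y h hy hlt)
      linA := p.linA
      linZ := hL.osum p.linZ hdisj hlt
      ceA := p.ceA.mono hF'
      ceZ := ce_osum (hdec.1.mono hF) (p.decZ.1.mono hF') hLc (p.ceZ.mono hF')
      descA := fun f hf => (p.descA f hf).mono hF'
      descZ := by
        intro f hf
        rcases desc_osum hL p.linZ hdisj hf with h | ⟨k, h⟩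
        · exact (p.descZ f h).mono hF'
        · exact Comp.of_shift (hLd _ h) }
  refine ⟨q, ?_, hF, fun x => Iff.rfl, fun x => Iff.rfl⟩
  exact
    { J := hF'
      A := fun x hx => hx
      Z := fun x hx => Or.inr hx
      Λ := fun a b h => h
      Γ := fun a b h => Or.inr (Or.inl h)
      ini := fun a b ha hb hb' => absurd hb hb'
      fin := fun a b ha ha' hb => Or.inr (Or.inr ⟨ha.resolve_right ha', hb⟩) }

theorem absorbS (H : GapHyp K lt E B S) (p : Cond K lt E B S) {x : ℕ} (hx : S x) :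
    ∃ q : Cond K lt E B S, Ext p q ∧ q.A x ∧ (∀ y, q.A y → p.A y ∨ lt y x ∨ y = x) ∧
      ∀ y, q.Z y ↔ p.Z y := by
  by_cases hxA : p.A x
  · exact ⟨p, Ext.refl p, hxA, fun y hy => Or.inl hy, fun y => Iff.rfl⟩
  have hB1 := H.decB.1.mono p.hJ
  have hB2 := H.decB.2.mono p.hJ
  have hl1 := H.declt.1.mono p.hJ
  have hl2 := H.declt.2.mono p.hJ
  have hA1 := p.decA.1
  have hA2 := p.decA.2
  have hsub : ∀ y, (B y ∧ (lt y x ∨ y = x)) → S y := by
    rintro y ⟨hy, hlt | rfl⟩
    · exact H.Sdown x y hx hy hlt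
    · exact hx
  have hdec : p.J.Dec fun y => (B y ∧ (lt y x ∨ y = x)) ∧ ¬ p.A y := by
    refine ⟨by
          apply EIdeal.Ce.and
          · apply EIdeal.Ce.and
            · apply EIdeal.Ce.comp hB1
              exact P.id
            · apply EIdeal.Ce.or
              · apply EIdeal.Ce.rel hl1
                · exact P.id
                · exact P.const _
              · apply EIdeal.Ce.eq
                · exact P.id
                · exact P.const _
          · apply EIdeal.Ce.ncomp hA2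
            exact P.id, ?_⟩
    have : p.J.Ce fun y => ¬ B y ∨ (¬ lt y x ∧ ¬ y = x) ∨ p.A y := by
          apply EIdeal.Ce.or
          · apply EIdeal.Ce.ncomp hB2
            exact P.id
          · apply EIdeal.Ce.or
            · apply EIdeal.Ce.and
              · apply EIdeal.Ce.nrel hl2
                · exact P.id
                · exact P.const _
              · apply EIdeal.Ce.not_eq
                · exact P.id
                · exact P.const _
            · apply EIdeal.Ce.comp hA1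
              exact P.id
    exact this.of_eq fun y => by tauto
  obtain ⟨q, hq, hqA, hqZ⟩ := insertA H p (fun y => (B y ∧ (lt y x ∨ y = x)) ∧ ¬ p.A y)
    (fun y hy => ⟨hsub y hy.1, hy.2⟩) (by
      rintro y z ⟨⟨hy, hyx⟩, hyA⟩ hz hzy
      by_cases hzA : p.A z
      · exact Or.inl hzA
      · refine Or.inr ⟨⟨hz, Or.inl ?_⟩, hzA⟩
        rcases hyx with h | rfl
        · exact H.htr _ _ _ hzy h
        · exact hzy) hdec
    ((HS.le_of_lt H.hirr H.htr (H.hi x hx)) p.J p.hJ p.thin _ (fun y hy => hy.1) hdec)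
  refine ⟨q, hq, (hqA x).2 (Or.inr ⟨⟨H.SB x hx, Or.inr rfl⟩, hxA⟩), fun y hy => ?_, hqZ⟩
  rcases (hqA y).1 hy with h | h
  · exact Or.inl h
  · exact Or.inr h.1.2

theorem absorbV (H : GapHyp K lt E B S) (p : Cond K lt E B S) {v : ℕ} (hv : B v) (hvS : ¬ S v) :
    ∃ q : Cond K lt E B S, Ext p q ∧ q.Z v ∧ (∀ y, q.Z y → p.Z y ∨ lt v y ∨ y = v) ∧
      ∀ y, q.A y ↔ p.A y := by
  by_cases hvZ : p.Z v
  · exact ⟨p, Ext.refl p, hvZ, fun y hy => Or.inl hy, fun y => Iff.rfl⟩
  have hB1 := H.decB.1.mono p.hJ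
  have hB2 := H.decB.2.mono p.hJ
  have hl1 := H.declt.1.mono p.hJ
  have hl2 := H.declt.2.mono p.hJ
  have hZ1 := p.decZ.1
  have hZ2 := p.decZ.2
  have hsub : ∀ y, (B y ∧ (lt v y ∨ y = v)) → ¬ S y := by
    rintro y ⟨hy, hlt | rfl⟩ hS
    · exact hvS (H.Sdown y v hS hv hlt)
    · exact hvS hS
  have hdec : p.J.Dec fun y => (B y ∧ (lt v y ∨ y = v)) ∧ ¬ p.Z y := by
    refine ⟨by
          apply EIdeal.Ce.and
          · apply EIdeal.Ce.and
            · apply EIdeal.Ce.comp hB1
              exact P.id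
            · apply EIdeal.Ce.or
              · apply EIdeal.Ce.rel hl1
                · exact P.const _
                · exact P.id
              · apply EIdeal.Ce.eq
                · exact P.id
                · exact P.const _
          · apply EIdeal.Ce.ncomp hZ2
            exact P.id, ?_⟩
    have : p.J.Ce fun y => ¬ B y ∨ (¬ lt v y ∧ ¬ y = v) ∨ p.Z y := by
          apply EIdeal.Ce.or
          · apply EIdeal.Ce.ncomp hB2
            exact P.id
          · apply EIdeal.Ce.or
            · apply EIdeal.Ce.and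
              · apply EIdeal.Ce.nrel hl2
                · exact P.const _
                · exact P.id
              · apply EIdeal.Ce.not_eq
                · exact P.id
                · exact P.const _
            · apply EIdeal.Ce.comp hZ1
              exact P.id
    exact this.of_eq fun y => by tauto
  obtain ⟨q, hq, -, hqA, hqZ⟩ := insertZ p (fun y => (B y ∧ (lt v y ∨ y = v)) ∧ ¬ p.Z y)
    (fun y hy => ⟨⟨hy.1.1, hsub y hy.1⟩, hy.2⟩) (by
      rintro y z ⟨⟨hy, hyx⟩, hyA⟩ hz hzy
      by_cases hzZ : p.Z z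
      · exact Or.inr hzZ
      · refine Or.inl ⟨⟨hz, Or.inl ?_⟩, hzZ⟩
        rcases hyx with h | rfl
        · exact H.htr _ _ _ h hzy
        · exact hzy) p.J le_rfl hdec
    (H.hii p.J p.hJ p.thin _ (fun y hy => ⟨hy.1.1, hsub y hy.1⟩) hdec)
  refine ⟨q, hq, (hqZ v).2 (Or.inl ⟨⟨hv, Or.inr rfl⟩, hvZ⟩), fun y hy => ?_, hqA⟩
  rcases (hqZ y).1 hy with h | h
  · exact Or.inr h.1.2
  · exact Or.inl h

/-- consistency of `a` comes before `b` with the condition `p` and the cut `σ` -/
def OK (p : Cond K lt E B S) (σ : ℕ → Prop) (a b : ℕ) : Prop :=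
  (p.A a ∧ p.A b ∧ p.Λ a b) ∨ (p.A a ∧ ¬ p.A b) ∨
  ((¬ p.A a ∧ ¬ p.Z a) ∧ (¬ p.A b ∧ ¬ p.Z b) ∧ a ≠ b ∧ ¬ lt b a ∧ (σ b → σ a)) ∨
  (¬ p.Z a ∧ p.Z b) ∨ (p.Z a ∧ p.Z b ∧ p.Γ a b)

/-- the final order is compatible with the condition -/
structure Compat (p : Cond K lt E B S) (L : ℕ → ℕ → Prop) : Prop where
  lin : LinExt lt B L
  Λ : ∀ a b, p.Λ a b → L a b
  Γ : ∀ a b, p.Γ a b → L a b
  ini : ∀ a b, p.A a → B b → ¬ p.A b → L a b
  fin : ∀ a b, B a → ¬ p.Z a → p.Z b → L a b
  cut : ∀ a b, S a → B b → ¬ S b → L a b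

theorem not_A_of_Z (p : Cond K lt E B S) {x : ℕ} (hx : p.Z x) : ¬ p.A x :=
  fun h => (p.ZV x hx).2 (p.AS x h)

theorem phase1 (H : GapHyp K lt E B S) : ∀ (c2 c1 : List ℕ) (p : Cond K lt E B S),
    (c1 ++ c2).Pairwise (OK p S) → (∀ a ∈ c1, p.A a) →
    ∃ q, Ext p q ∧ (c1 ++ c2).Pairwise (OK q S) ∧ ∀ a ∈ c1 ++ c2, S a → q.A a := by
  intro c2
  induction c2 with
  | nil =>
    intro c1 p hp hc1
    refine ⟨p, Ext.refl p, hp, fun a ha _ => hc1 a (by simpa using ha)⟩
  | cons x c2 ih =>
    intro c1 p hp hc1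
    have hassoc : c1 ++ x :: c2 = (c1 ++ [x]) ++ c2 := by simp
    by_cases hxA : p.A x
    · rw [hassoc] at hp ⊢
      refine ih (c1 ++ [x]) p hp ?_
      intro a ha
      rcases List.mem_append.1 ha with ha | ha
      · exact hc1 a ha
      · rw [List.mem_singleton.1 ha]; exact hxA
    · have hp' := hp
      rw [List.pairwise_append] at hp'
      obtain ⟨hp1, hp2, hp3⟩ := hp'
      rw [List.pairwise_cons] at hp2
      obtain ⟨hp2, hp4⟩ := hp2
      by_cases hxS : S x
      · obtain ⟨q, hq, hqx, hqA, hqZ⟩ := absorbS H p hxS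
        have hxZ : ¬ p.Z x := fun h => (p.ZV x h).2 hxS
        have h2 : ∀ b ∈ c2, ¬ q.A b := by
          intro b hb hqb
          rcases hp2 b hb with h | h | h | h | h
          · exact hxA h.1
          · exact hxA h.1
          · rcases hqA b hqb with h' | h' | h'
            · exact h.2.1.1 h'
            · exact h.2.2.2.1 h'
            · exact h.2.2.1 h'.symm
          · exact (p.ZV b h.2).2 (q.AS b hqb)
          · exact hxZ h.1
        have hnew : (c1 ++ x :: c2).Pairwise (OK q S) := by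
          rw [List.pairwise_append, List.pairwise_cons]
          refine ⟨?_, ⟨?_, ?_⟩, ?_⟩
          · refine hp1.imp_of_mem ?_
            intro a b ha hb hab
            left
            refine ⟨hq.A _ (hc1 a ha), hq.A _ (hc1 b hb), hq.Λ _ _ ?_⟩
            rcases hab with h | h | h | h | h
            · exact h.2.2
            · exact absurd (hc1 b hb) h.2
            · exact absurd (hc1 b hb) h.2.1.1
            · exact absurd (hc1 b hb) (not_A_of_Z p h.2)
            · exact absurd (hc1 b hb) (not_A_of_Z p h.2.1)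
          · intro b hb
            exact Or.inr (Or.inl ⟨hqx, h2 b hb⟩)
          · refine hp4.imp_of_mem ?_
            intro a b ha hb hab
            rcases hab with h | h | h | h | h
            · exact absurd (hq.A _ h.1) (h2 a ha)
            · exact absurd (hq.A _ h.1) (h2 a ha)
            · refine Or.inr (Or.inr (Or.inl ⟨⟨h2 a ha, ?_⟩, ⟨h2 b hb, ?_⟩, h.2.2⟩))
              · rw [hqZ]; exact h.1.2
              · rw [hqZ]; exact h.2.1.2
            · refine Or.inr (Or.inr (Or.inr (Or.inl ⟨?_, ?_⟩)))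
              · rw [hqZ]; exact h.1
              · rw [hqZ]; exact h.2
            · exact Or.inr (Or.inr (Or.inr (Or.inr ⟨(hqZ a).2 h.1, (hqZ b).2 h.2.1,
                hq.Γ _ _ h.2.2⟩)))
          · intro a ha b hb
            rcases List.mem_cons.1 hb with rfl | hb
            · exact Or.inl ⟨hq.A _ (hc1 a ha), hqx, hq.ini a b (hc1 a ha) hqx hxA⟩
            · exact Or.inr (Or.inl ⟨hq.A _ (hc1 a ha), h2 b hb⟩)
        rw [hassoc] at hnew
        obtain ⟨r, hr, hr1, hr2⟩ := ih (c1 ++ [x]) q hnew (by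
          intro a ha
          rcases List.mem_append.1 ha with ha | ha
          · exact hq.A _ (hc1 a ha)
          · rw [List.mem_singleton.1 ha]; exact hqx)
        rw [hassoc]
        exact ⟨r, hq.trans hr, hr1, hr2⟩
      · -- no later element belongs to `S`
        have h2 : ∀ b ∈ c2, ¬ S b := by
          intro b hb hSb
          rcases hp2 b hb with h | h | h | h | h
          · exact hxA h.1
          · exact hxA h.1
          · exact hxS (h.2.2.2.2 hSb)
          · exact (p.ZV b h.2).2 hSb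
          · exact (p.ZV b h.2.1).2 hSb
        refine ⟨p, Ext.refl p, hp, ?_⟩
        intro a ha hSa
        rcases List.mem_append.1 ha with ha | ha
        · exact hc1 a ha
        · rcases List.mem_cons.1 ha with rfl | ha
          · exact absurd hSa hxS
          · exact absurd hSa (h2 a ha)

theorem phase2 (H : GapHyp K lt E B S) : ∀ (c1 c2 : List ℕ) (p : Cond K lt E B S),
    (∀ a ∈ c1, B a) → (c1 ++ c2).Pairwise (OK p S) → (∀ a ∈ c2, p.Z a) →
    (∀ a ∈ c1, S a → p.A a) →
    ∃ q, Ext p q ∧ (c1 ++ c2).Pairwise (OK q S) ∧ ∀ a ∈ c1 ++ c2, q.A a ∨ q.Z a := by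
  intro c1
  induction c1 using List.reverseRecOn with
  | nil =>
    intro c2 p _ hp hc2 _
    exact ⟨p, Ext.refl p, hp, fun a ha => Or.inr (hc2 a (by simpa using ha))⟩
  | append_singleton c1 v ih =>
    intro c2 p hB hp hc2 hS
    have hassoc : (c1 ++ [v]) ++ c2 = c1 ++ v :: c2 := by simp
    have hB1 : ∀ a ∈ c1, B a := fun a ha => hB a (List.mem_append.2 (Or.inl ha))
    have hS1 : ∀ a ∈ c1, S a → p.A a := fun a ha => hS a (List.mem_append.2 (Or.inl ha))
    have hvB : B v := hB v (by simp)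
    by_cases hvZ : p.Z v
    · rw [hassoc] at hp ⊢
      refine ih (v :: c2) p hB1 hp ?_ hS1
      intro a ha
      rcases List.mem_cons.1 ha with rfl | ha
      · exact hvZ
      · exact hc2 a ha
    · have hp' := hp
      rw [hassoc, List.pairwise_append, List.pairwise_cons] at hp'
      obtain ⟨hp1, ⟨hp2, hp4⟩, hp3⟩ := hp'
      by_cases hvS : S v
      · have hvA : p.A v := hS v (by simp) hvS
        refine ⟨p, Ext.refl p, hp, ?_⟩
        intro a ha
        rw [hassoc] at ha
        rcases List.mem_append.1 ha with ha | ha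
        · left
          rcases hp3 a ha v (by simp) with h | h | h | h | h
          · exact h.1
          · exact h.1
          · exact absurd hvA h.2.1.1
          · exact absurd h.2 hvZ
          · exact absurd h.2.1 hvZ
        · rcases List.mem_cons.1 ha with rfl | ha
          · exact Or.inl hvA
          · exact Or.inr (hc2 a ha)
      · obtain ⟨q, hq, hqv, hqZ, hqA⟩ := absorbV H p hvB hvS
        have hvA : ¬ p.A v := fun h => hvS (p.AS v h)
        have h1 : ∀ a ∈ c1, ¬ q.Z a := by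
          intro a ha hqa
          rcases hp3 a ha v (by simp) with h | h | h | h | h
          · exact hvA h.2.1
          · exact (q.ZV a hqa).2 (p.AS a h.1)
          · rcases hqZ a hqa with h' | h' | h'
            · exact h.1.2 h'
            · exact h.2.2.2.1 h'
            · exact h.2.2.1 h'
          · exact hvZ h.2
          · exact hvZ h.2.1
        have hnew : (c1 ++ v :: c2).Pairwise (OK q S) := by
          rw [List.pairwise_append, List.pairwise_cons]
          refine ⟨?_, ⟨?_, ?_⟩, ?_⟩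
          · refine hp1.imp_of_mem ?_
            intro a b ha hb hab
            rcases hab with h | h | h | h | h
            · exact Or.inl ⟨(hqA a).2 h.1, (hqA b).2 h.2.1, hq.Λ _ _ h.2.2⟩
            · refine Or.inr (Or.inl ⟨(hqA a).2 h.1, ?_⟩)
              rw [hqA]; exact h.2
            · refine Or.inr (Or.inr (Or.inl ⟨⟨?_, h1 a ha⟩, ⟨?_, h1 b hb⟩, h.2.2⟩))
              · rw [hqA]; exact h.1.1
              · rw [hqA]; exact h.2.1.1
            · exact absurd (hq.Z _ h.2) (h1 b hb)
            · exact absurd (hq.Z _ h.2.1) (h1 b hb)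
          · intro b hb
            exact Or.inr (Or.inr (Or.inr (Or.inr ⟨hqv, hq.Z _ (hc2 b hb),
              hq.fin v b hqv hvZ (hc2 b hb)⟩)))
          · refine hp4.imp_of_mem ?_
            intro a b ha hb hab
            refine Or.inr (Or.inr (Or.inr (Or.inr ⟨hq.Z _ (hc2 a ha), hq.Z _ (hc2 b hb),
              hq.Γ _ _ ?_⟩)))
            rcases hab with h | h | h | h | h
            · exact absurd h.1 (not_A_of_Z p (hc2 a ha))
            · exact absurd h.1 (not_A_of_Z p (hc2 a ha))
            · exact absurd (hc2 a ha) h.1.2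
            · exact absurd (hc2 a ha) h.1
            · exact h.2.2
          · intro a ha b hb
            rcases List.mem_cons.1 hb with rfl | hb
            · exact Or.inr (Or.inr (Or.inr (Or.inl ⟨h1 a ha, hqv⟩)))
            · exact Or.inr (Or.inr (Or.inr (Or.inl ⟨h1 a ha, hq.Z _ (hc2 b hb)⟩)))
        obtain ⟨r, hr, hr1, hr2⟩ := ih (v :: c2) q hB1 hnew (by
          intro a ha
          rcases List.mem_cons.1 ha with rfl | ha
          · exact hqv
          · exact hq.Z _ (hc2 a ha)) (fun a ha hSa => (hqA a).2 (hS1 a ha hSa))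
        rw [hassoc]
        exact ⟨r, hq.trans hr, hr1, hr2⟩

/-- Realise a consistent finite chain. -/
theorem realise (H : GapHyp K lt E B S) (p : Cond K lt E B S) {c : List ℕ}
    (hc : ∀ x ∈ c, B x) (hp : c.Pairwise (OK p S)) :
    ∃ q, Ext p q ∧ ∀ L, Compat q L → c.Pairwise L := by
  obtain ⟨q, hq, hq1, hq2⟩ := phase1 H c [] p (by simpa using hp) (by simp)
  obtain ⟨r, hr, hr1, hr2⟩ := phase2 H c [] q hc (by simpa using hq1) (by simp)
    (fun a ha => hq2 a (by simpa using ha))
  simp only [List.append_nil] at hr1 hr2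
  refine ⟨r, hq.trans hr, fun L hL => ?_⟩
  refine hr1.imp_of_mem ?_
  intro a b ha hb hab
  rcases hab with h | h | h | h | h
  · exact hL.Λ _ _ h.2.2
  · exact hL.ini a b h.1 (hc b hb) h.2
  · exact absurd (hr2 a ha) (by tauto)
  · exact hL.fin a b (hc a ha) h.1 h.2
  · exact hL.Γ _ _ h.2.2

end Pool.Agent.H78Ext
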