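import Mathlib
import Pool.Agent.H78Ext.GapCond

/-!
# The gap lemma: avoiding `K`
-/

namespace Pool.Agent.H78Ext

open Encodable Primrec EIdeal

variable {K : ℕ → Prop} {lt : ℕ → ℕ → Prop} {E : EIdeal} {B S : ℕ → Prop}

/-- the requirement attached to the enumeration operator `Θ` -/
def Meets (p : Cond K lt E B S) (Θ : ℕ × List ℕ → Prop) : Prop :=
  ∀ L, Compat p L → ¬ ∀ n, (¬ K n ↔ ∃ c : List ℕ, (∀ x ∈ c, B x) ∧ c.Pairwise L ∧ Θ (n, c))

/-- the set of conditions forbidden for a cut -/
def Forb (p : Cond K lt E B S) (Θ : ℕ × List ℕ → Prop) (l : List (ℕ × Bool)) : Prop :=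
  (∃ x, (¬ B x ∨ p.A x ∨ p.Z x) ∧ l = [(x, true)]) ∨
  (∃ x, S x ∧ ¬ p.A x ∧ l = [(x, false)]) ∨
  (∃ x y, (B x ∧ ¬ p.A x ∧ ¬ p.Z x) ∧ (B y ∧ ¬ p.A y ∧ ¬ p.Z y) ∧ lt x y ∧
    l = [(y, true), (x, false)]) ∨
  (∃ n, K n ∧ Θ (n, l.map Prod.fst) ∧ (∀ x ∈ l, B x.1) ∧
    l.Pairwise fun u v =>
      (p.A u.1 ∧ p.A v.1 ∧ p.Λ u.1 v.1) ∨ (p.A u.1 ∧ ¬ p.A v.1) ∨
      ((¬ p.A u.1 ∧ ¬ p.Z u.1) ∧ (¬ p.A v.1 ∧ ¬ p.Z v.1) ∧ u.1 ≠ v.1 ∧ ¬ lt v.1 u.1 ∧
        (v.2 = false ∨ u.2 = true)) ∨
      (¬ p.Z u.1 ∧ p.Z v.1) ∨ (p.Z u.1 ∧ p.Z v.1 ∧ p.Γ u.1 v.1))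

theorem ce_forb (H : GapHyp K lt E B S) (p : Cond K lt E B S) {Θ : ℕ × List ℕ → Prop}
    (hΘ : p.J.Ce Θ) : p.J.Ce (Forb p Θ) := by
  have hB1 := H.decB.1.mono p.hJ
  have hB2 := H.decB.2.mono p.hJ
  have hl1 := H.declt.1.mono p.hJ
  have hl2 := H.declt.2.mono p.hJ
  have hA1 := p.decA.1
  have hA2 := p.decA.2
  have hZ1 := p.decZ.1
  have hZ2 := p.decZ.2
  have hΛ := p.ceA
  have hΓ := p.ceZ
  have hS := H.ceS.mono p.hJ
  have hK : p.J.Ce K := Ce.s1 H.ceK
  unfold Forb
  refine Ce.or ?_ (Ce.or ?_ (Ce.or ?_ ?_))
  · apply EIdeal.Ce.ex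
    apply EIdeal.Ce.and
    · apply EIdeal.Ce.or
      · apply EIdeal.Ce.ncomp hB2
        exact P.snd P.id
      · apply EIdeal.Ce.or
        · apply EIdeal.Ce.comp hA1
          exact P.snd P.id
        · apply EIdeal.Ce.comp hZ1
          exact P.snd P.id
    · apply EIdeal.Ce.eq
      · exact P.fst P.id
      · exact P.cons (P.pair (P.snd P.id) (P.const _)) (P.const _)
  · apply EIdeal.Ce.ex
    apply EIdeal.Ce.and
    · apply EIdeal.Ce.comp hS
      exact P.snd P.id
    · apply EIdeal.Ce.and
      · apply EIdeal.Ce.ncomp hA2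
        exact P.snd P.id
      · apply EIdeal.Ce.eq
        · exact P.fst P.id
        · exact P.cons (P.pair (P.snd P.id) (P.const _)) (P.const _)
  · apply EIdeal.Ce.ex
    apply EIdeal.Ce.ex
    apply EIdeal.Ce.and
    · apply EIdeal.Ce.and
      · apply EIdeal.Ce.comp hB1
        exact P.snd (P.fst P.id)
      · apply EIdeal.Ce.and
        · apply EIdeal.Ce.ncomp hA2
          exact P.snd (P.fst P.id)
        · apply EIdeal.Ce.ncomp hZ2
          exact P.snd (P.fst P.id)
    · apply EIdeal.Ce.and
      · apply EIdeal.Ce.and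
        · apply EIdeal.Ce.comp hB1
          exact P.snd P.id
        · apply EIdeal.Ce.and
          · apply EIdeal.Ce.ncomp hA2
            exact P.snd P.id
          · apply EIdeal.Ce.ncomp hZ2
            exact P.snd P.id
      · apply EIdeal.Ce.and
        · apply EIdeal.Ce.rel hl1
          · exact P.snd (P.fst P.id)
          · exact P.snd P.id
        · apply EIdeal.Ce.eq
          · exact P.fst (P.fst P.id)
          · exact P.cons (P.pair (P.snd P.id) (P.const _)) (P.cons (P.pair (P.snd (P.fst P.id)) (P.const _)) (P.const _))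
  · refine Ce.ex ?_
    refine Ce.and (by
          apply EIdeal.Ce.comp hK
          exact P.snd P.id) ?_
    refine Ce.and ?_ (Ce.and ?_ ?_)
    · refine hΘ.comp (f := fun x : List (ℕ × Bool) × ℕ => (x.2, x.1.map Prod.fst)) ?_
      refine Primrec.pair Primrec.snd ?_
      exact Primrec.list_map Primrec.fst (Primrec.fst.comp Primrec.snd).to₂
    · apply EIdeal.Ce.ball
      · apply EIdeal.Ce.comp hB1
        exact P.fst (P.snd P.id)
      · exact P.fst P.id
    · refine Ce.pairwise ?_ Primrec.fst
      apply EIdeal.Ce.or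
      · apply EIdeal.Ce.and
        · apply EIdeal.Ce.comp hA1
          exact P.fst (P.fst (P.snd P.id))
        · apply EIdeal.Ce.and
          · apply EIdeal.Ce.comp hA1
            exact P.fst (P.snd (P.snd P.id))
          · apply EIdeal.Ce.rel hΛ
            · exact P.fst (P.fst (P.snd P.id))
            · exact P.fst (P.snd (P.snd P.id))
      · apply EIdeal.Ce.or
        · apply EIdeal.Ce.and
          · apply EIdeal.Ce.comp hA1
            exact P.fst (P.fst (P.snd P.id))
          · apply EIdeal.Ce.ncomp hA2
            exact P.fst (P.snd (P.snd P.id))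
        · apply EIdeal.Ce.or
          · apply EIdeal.Ce.and
            · apply EIdeal.Ce.and
              · apply EIdeal.Ce.ncomp hA2
                exact P.fst (P.fst (P.snd P.id))
              · apply EIdeal.Ce.ncomp hZ2
                exact P.fst (P.fst (P.snd P.id))
            · apply EIdeal.Ce.and
              · apply EIdeal.Ce.and
                · apply EIdeal.Ce.ncomp hA2
                  exact P.fst (P.snd (P.snd P.id))
                · apply EIdeal.Ce.ncomp hZ2
                  exact P.fst (P.snd (P.snd P.id))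
              · apply EIdeal.Ce.and
                · apply EIdeal.Ce.ne
                  · exact P.fst (P.fst (P.snd P.id))
                  · exact P.fst (P.snd (P.snd P.id))
                · apply EIdeal.Ce.and
                  · apply EIdeal.Ce.nrel hl2
                    · exact P.fst (P.snd (P.snd P.id))
                    · exact P.fst (P.fst (P.snd P.id))
                  · apply EIdeal.Ce.or
                    · apply EIdeal.Ce.eq
                      · exact P.snd (P.snd (P.snd P.id))
                      · exact P.const _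
                    · apply EIdeal.Ce.eq
                      · exact P.snd (P.fst (P.snd P.id))
                      · exact P.const _
          · apply EIdeal.Ce.or
            · apply EIdeal.Ce.and
              · apply EIdeal.Ce.ncomp hZ2
                exact P.fst (P.fst (P.snd P.id))
              · apply EIdeal.Ce.comp hZ1
                exact P.fst (P.snd (P.snd P.id))
            · apply EIdeal.Ce.and
              · apply EIdeal.Ce.comp hZ1
                exact P.fst (P.fst (P.snd P.id))
              · apply EIdeal.Ce.and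
                · apply EIdeal.Ce.comp hZ1
                  exact P.fst (P.snd (P.snd P.id))
                · apply EIdeal.Ce.rel hΓ
                  · exact P.fst (P.fst (P.snd P.id))
                  · exact P.fst (P.snd (P.snd P.id))

theorem req_step (H : GapHyp K lt E B S) (p : Cond K lt E B S) {Θ : ℕ × List ℕ → Prop}
    (hΘ : p.J.Ce Θ) : ∃ q, Ext p q ∧ Meets q Θ := by
  classical
  by_cases hpos : ∃ n, K n ∧ ∃ c : List ℕ, (∀ x ∈ c, B x) ∧ c.Pairwise (OK p S) ∧ Θ (n, c)
  · obtain ⟨n, hn, c, hc, hp, hΘc⟩ := hpos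
    obtain ⟨q, hq, hq'⟩ := realise H p hc hp
    refine ⟨q, hq, fun L hL h => ?_⟩
    exact (h n).2 ⟨c, hc, hq' L hL, hΘc⟩ hn
  · -- the safe cuts
    have hne : (cls (Forb p Θ)).Nonempty := by
      refine ⟨fun x => decide (S x ∧ ¬ p.A x), ?_⟩
      rintro l (⟨x, hx, rfl⟩ | ⟨x, hxS, hxA, rfl⟩ | ⟨x, y, hx, hy, hxy, rfl⟩ |
        ⟨n, hn, hΘn, hlB, hlp⟩) hsat
      · have h := hsat (x, true) (by simp)
        have h' : S x ∧ ¬ p.A x := by simpa using h
        rcases hx with hx | hx | hx
        · exact hx (H.SB x h'.1)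
        · exact h'.2 hx
        · exact (p.ZV x hx).2 h'.1
      · have h := hsat (x, false) (by simp)
        have h' : ¬ (S x ∧ ¬ p.A x) := by simpa using h
        exact h' ⟨hxS, hxA⟩
      · have h1 : S y ∧ ¬ p.A y := by simpa using hsat (y, true) (by simp)
        have h2 : ¬ (S x ∧ ¬ p.A x) := by simpa using hsat (x, false) (by simp)
        exact h2 ⟨H.Sdown y x h1.1 hx.1 hxy, hx.2.1⟩
      · apply hpos
        refine ⟨n, hn, l.map Prod.fst, ?_, ?_, hΘn⟩
        · intro x hx
          obtain ⟨u, hu, rfl⟩ := List.mem_map.1 hx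
          exact hlB u hu
        · rw [List.pairwise_map]
          refine hlp.imp_of_mem ?_
          intro u v hu hv huv
          rcases huv with h | h | h | h | h
          · exact Or.inl h
          · exact Or.inr (Or.inl h)
          · refine Or.inr (Or.inr (Or.inl ⟨h.1, h.2.1, h.2.2.1, h.2.2.2.1, ?_⟩))
            intro hSv
            have h3 := hsat u hu
            have h4 := hsat v hv
            rcases h.2.2.2.2 with h5 | h5
            · rw [h5] at h4
              have : ¬ (S v.1 ∧ ¬ p.A v.1) := by simpa using h4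
              exact absurd ⟨hSv, h.2.1.1⟩ this
            · rw [h5] at h3
              have : S u.1 ∧ ¬ p.A u.1 := by simpa using h3
              exact this.1
          · exact Or.inr (Or.inr (Or.inr (Or.inl h)))
          · exact Or.inr (Or.inr (Or.inr (Or.inr h)))
    obtain ⟨σ, hσ, hσT⟩ := basis p.thin (ce_forb H p hΘ) hne
    -- facts about the cut
    have f1 : ∀ x, σ x = true → B x ∧ ¬ p.A x ∧ ¬ p.Z x := by
      intro x hx
      by_contra h
      refine hσ [(x, true)] (Or.inl ⟨x, by tauto, rfl⟩) ?_
      simpa using hx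
    have f2 : ∀ x, S x → ¬ p.A x → σ x = true := by
      intro x hxS hxA
      by_contra h
      refine hσ [(x, false)] (Or.inr (Or.inl ⟨x, hxS, hxA, rfl⟩)) ?_
      simpa using h
    have f3 : ∀ x y, (B x ∧ ¬ p.A x ∧ ¬ p.Z x) → (B y ∧ ¬ p.A y ∧ ¬ p.Z y) → lt x y →
        σ y = true → σ x = true := by
      intro x y hx hy hxy hy'
      by_contra h
      refine hσ [(y, true), (x, false)] (Or.inr (Or.inr (Or.inl ⟨x, y, hx, hy, hxy, rfl⟩))) ?_
      have h' : σ x = false := by simpa using h
      simp [hy', h']
    have f4 : ∀ n, K n → ∀ c : List ℕ, (∀ x ∈ c, B x) →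
        c.Pairwise (OK p fun x => σ x = true) → ¬ Θ (n, c) := by
      intro n hn c hc hp hΘc
      refine hσ (c.map fun x => (x, σ x)) (Or.inr (Or.inr (Or.inr ⟨n, hn, ?_, ?_, ?_⟩))) ?_
      · have : (c.map fun x => (x, σ x)).map Prod.fst = c := by
          rw [List.map_map]
          exact List.map_id c
        rw [this]
        exact hΘc
      · intro x hx
        obtain ⟨u, hu, rfl⟩ := List.mem_map.1 hx
        exact hc u hu
      · rw [List.pairwise_map]
        refine hp.imp ?_
        intro u v huv
        rcases huv with h | h | h | h | h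
        · exact Or.inl h
        · exact Or.inr (Or.inl h)
        · refine Or.inr (Or.inr (Or.inl ⟨h.1, h.2.1, h.2.2.1, h.2.2.2.1, ?_⟩))
          by_cases hv : σ v = true
          · exact Or.inr (h.2.2.2.2 hv)
          · exact Or.inl (by simpa using hv)
        · exact Or.inr (Or.inr (Or.inr (Or.inl h)))
        · exact Or.inr (Or.inr (Or.inr (Or.inr h)))
      · intro x hx
        obtain ⟨u, hu, rfl⟩ := List.mem_map.1 hx
        rfl
    -- the new block
    let J := p.J.adj (Gr σ)
    have hJ : p.J ≤ J := le_adj _ _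
    have hEJ : E ≤ J := p.hJ.trans hJ
    have hB1 := H.decB.1.mono hEJ
    have hB2 := H.decB.2.mono hEJ
    have hl1 := H.declt.1.mono hEJ
    have hl2 := H.declt.2.mono hEJ
    have hA1 := p.decA.1.mono hJ
    have hA2 := p.decA.2.mono hJ
    have hZ1 := p.decZ.1.mono hJ
    have hZ2 := p.decZ.2.mono hJ
    have hΛ := p.ceA.mono hJ
    have hΓ := p.ceZ.mono hJ
    have hΘ' := hΘ.mono hJ
    have hg : J.Ce (Gr σ) := adj_self _ _
    have hσt : J.Ce fun x => σ x = true := hg.comp (f := fun x : ℕ => (x, true)) (by exact P.pair P.id (P.const _))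
    have hσf : J.Ce fun x => σ x = false := hg.comp (f := fun x : ℕ => (x, false)) (by exact P.pair P.id (P.const _))
    have hσf' : J.Ce fun x => ¬ σ x = true := hσf.of_eq fun x => by simp
    have hN : J.Dec fun x => (B x ∧ ¬ p.A x ∧ ¬ p.Z x) ∧ ¬ σ x = true := by
      refine ⟨Ce.and (by
            apply EIdeal.Ce.and
            · apply EIdeal.Ce.comp hB1
              exact P.id
            · apply EIdeal.Ce.and
              · apply EIdeal.Ce.ncomp hA2
                exact P.id
              · apply EIdeal.Ce.ncomp hZ2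
                exact P.id) hσf', ?_⟩
      have : J.Ce fun x => (¬ B x ∨ p.A x ∨ p.Z x) ∨ σ x = true := Ce.or (by
            apply EIdeal.Ce.or
            · apply EIdeal.Ce.ncomp hB2
              exact P.id
            · apply EIdeal.Ce.or
              · apply EIdeal.Ce.comp hA1
                exact P.id
              · apply EIdeal.Ce.comp hZ1
                exact P.id) hσt
      exact this.of_eq fun x => by tauto
    obtain ⟨q, hq, hqJ, hqA, hqZ⟩ := insertZ p (fun x => (B x ∧ ¬ p.A x ∧ ¬ p.Z x) ∧ ¬ σ x = true)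
      (fun x hx => ⟨⟨hx.1.1, fun hS => hx.2 (f2 x hS hx.1.2.1)⟩, hx.1.2.2⟩) (by
        intro x y hx hy hxy
        by_cases hyZ : p.Z y
        · exact Or.inr hyZ
        · left
          have hyA : ¬ p.A y := fun h => hx.1.2.1 (p.Adown y x h hx.1.1 hxy)
          exact ⟨⟨hy, hyA, hyZ⟩, fun hσy => hx.2 (f3 x y hx.1 ⟨hy, hyA, hyZ⟩ hxy hσy)⟩)
      J hJ hN
      (H.hii J hEJ hσT _ (fun x hx => ⟨hx.1.1, fun hS => hx.2 (f2 x hS hx.1.2.1)⟩) hN)
    refine ⟨q, hq, fun L hL h => ?_⟩
    -- a compatible order that computes `K` would make `K` computable from the cut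
    apply hσT
    have hce : J.Ce fun n => ∃ c : List ℕ, (∀ x ∈ c, B x) ∧
        c.Pairwise (OK p fun x => σ x = true) ∧ Θ (n, c) := by
      refine Ce.ex ?_
      refine Ce.and (by
            apply EIdeal.Ce.ball
            · apply EIdeal.Ce.comp hB1
              exact P.snd P.id
            · exact P.snd P.id) (Ce.and ?_ (by
            apply EIdeal.Ce.comp hΘ'
            exact P.pair (P.fst P.id) (P.snd P.id)))
      refine Ce.pairwise ?_ Primrec.snd
      unfold OK
      have hcut : J.Ce fun x : (ℕ × List ℕ) × ℕ × ℕ => (σ x.2.2 = true → σ x.2.1 = true) := by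
        have h1 : J.Ce fun x : (ℕ × List ℕ) × ℕ × ℕ => σ x.2.2 = false ∨ σ x.2.1 = true :=
          Ce.or (hσf.comp (by exact P.snd (P.snd P.id))) (hσt.comp (by exact P.fst (P.snd P.id)))
        refine h1.of_eq fun x => ?_
        by_cases hx : σ x.2.2 = true <;> simp [hx]
      refine Ce.or (by
            apply EIdeal.Ce.and
            · apply EIdeal.Ce.comp hA1
              exact P.fst (P.snd P.id)
            · apply EIdeal.Ce.and
              · apply EIdeal.Ce.comp hA1
                exact P.snd (P.snd P.id)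
              · apply EIdeal.Ce.rel hΛ
                · exact P.fst (P.snd P.id)
                · exact P.snd (P.snd P.id)) (Ce.or (by
            apply EIdeal.Ce.and
            · apply EIdeal.Ce.comp hA1
              exact P.fst (P.snd P.id)
            · apply EIdeal.Ce.ncomp hA2
              exact P.snd (P.snd P.id)) (Ce.or ?_ (by
            apply EIdeal.Ce.or
            · apply EIdeal.Ce.and
              · apply EIdeal.Ce.ncomp hZ2
                exact P.fst (P.snd P.id)
              · apply EIdeal.Ce.comp hZ1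
                exact P.snd (P.snd P.id)
            · apply EIdeal.Ce.and
              · apply EIdeal.Ce.comp hZ1
                exact P.fst (P.snd P.id)
              · apply EIdeal.Ce.and
                · apply EIdeal.Ce.comp hZ1
                  exact P.snd (P.snd P.id)
                · apply EIdeal.Ce.rel hΓ
                  · exact P.fst (P.snd P.id)
                  · exact P.snd (P.snd P.id))))
      refine Ce.and (by
            apply EIdeal.Ce.and
            · apply EIdeal.Ce.ncomp hA2
              exact P.fst (P.snd P.id)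
            · apply EIdeal.Ce.ncomp hZ2
              exact P.fst (P.snd P.id)) (Ce.and (by
            apply EIdeal.Ce.and
            · apply EIdeal.Ce.ncomp hA2
              exact P.snd (P.snd P.id)
            · apply EIdeal.Ce.ncomp hZ2
              exact P.snd (P.snd P.id)) (Ce.and (by
            apply EIdeal.Ce.ne
            · exact P.fst (P.snd P.id)
            · exact P.snd (P.snd P.id)) (Ce.and (by
            apply EIdeal.Ce.nrel hl2
            · exact P.snd (P.snd P.id)
            · exact P.fst (P.snd P.id)) hcut)))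
    refine hce.of_eq fun n => ?_
    constructor
    · rintro ⟨c, hc, hp, hΘc⟩ hK
      exact f4 n hK c hc hp hΘc
    · intro hn
      obtain ⟨c, hc, hp, hΘc⟩ := (h n).1 hn
      refine ⟨c, hc, ?_, hΘc⟩
      refine hp.imp_of_mem ?_
      intro a b ha hb hab
      have haB := hc a ha
      have hbB := hc b hb
      have hba : ¬ L b a := fun h => hL.lin.asymm hab h
      by_cases hAa : p.A a
      · by_cases hAb : p.A b
        · left
          refine ⟨hAa, hAb, ?_⟩
          have hne : a ≠ b := by rintro rfl; exact hL.lin.irr _ hab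
          rcases p.linA.tot a b hAa hAb hne with h1 | h1
          · exact h1
          · exact absurd (hL.Λ _ _ (hq.Λ _ _ h1)) hba
        · exact Or.inr (Or.inl ⟨hAa, hAb⟩)
      · have hAb : ¬ p.A b := by
          intro hAb
          apply hba
          refine hL.ini b a ((hqA b).2 hAb) haB ?_
          rw [hqA]; exact hAa
        by_cases hZb : p.Z b
        · by_cases hZa : p.Z a
          · refine Or.inr (Or.inr (Or.inr (Or.inr ⟨hZa, hZb, ?_⟩)))
            have hne : a ≠ b := by rintro rfl; exact hL.lin.irr _ hab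
            rcases p.linZ.tot a b hZa hZb hne with h1 | h1
            · exact h1
            · exact absurd (hL.Γ _ _ (hq.Γ _ _ h1)) hba
          · exact Or.inr (Or.inr (Or.inr (Or.inl ⟨hZa, hZb⟩)))
        · have hZa : ¬ p.Z a := by
            intro hZa
            by_cases hqb : q.Z b
            · exact hba (hL.Γ _ _ (hq.fin b a hqb hZb hZa))
            · exact hba (hL.fin b a hbB hqb (hq.Z _ hZa))
          refine Or.inr (Or.inr (Or.inl ⟨⟨hAa, hZa⟩, ⟨hAb, hZb⟩, ?_, ?_, ?_⟩))
          · rintro rfl
            exact hL.lin.irr _ hab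
          · intro hlt
            exact hba (hL.lin.ext b a hbB haB hlt)
          · intro hσb
            by_contra hσa
            apply hba
            have h1 : q.Z a := (hqZ a).2 (Or.inl ⟨⟨haB, hAa, hZa⟩, hσa⟩)
            refine hL.fin b a hbB ?_ h1
            rw [hqZ]
            rintro (h2 | h2)
            · exact h2.2 hσb
            · exact hZb h2

end Pool.Agent.H78Ext
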