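import Mathlib
import Pool.Agent.H78Ext.GapReq

/-!
# The gap lemma
-/

namespace Pool.Agent.H78Ext

open Encodable Primrec EIdeal

variable {K : ℕ → Prop} {lt : ℕ → ℕ → Prop} {E : EIdeal} {B S : ℕ → Prop}

/-- the initial condition -/
def cond₀ (H : GapHyp K lt E B S) : Cond K lt E B S where
  J := E
  A := fun _ => False
  Z := fun _ => False
  Λ := fun _ _ => False
  Γ := fun _ _ => False
  hJ := le_rfl
  thin := H.thin
  decA := ⟨Ce.const _, Ce.const _⟩
  decZ := ⟨Ce.const _, Ce.const _⟩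
  AS := fun _ h => h.elim
  Adown := fun _ _ h => h.elim
  ZV := fun _ h => h.elim
  Zup := fun _ _ h => h.elim
  linA := ⟨fun _ _ h => h.elim, fun _ h => h, fun _ _ _ h => h.elim, fun _ _ h => h.elim,
    fun _ _ h => h.elim⟩
  linZ := ⟨fun _ _ h => h.elim, fun _ h => h, fun _ _ _ h => h.elim, fun _ _ h => h.elim,
    fun _ _ h => h.elim⟩
  ceA := Ce.const _
  ceZ := Ce.const _
  descA := fun _ hf => (hf 0).elim
  descZ := fun _ hf => (hf 0).elim

theorem gap (H : GapHyp K lt E B S) :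
    ∃ F, E ≤ F ∧ Thin K F ∧ ∃ L, LinExt lt B L ∧ (F.Ce fun x : ℕ × ℕ => L x.1 x.2) ∧
      (∀ a b, S a → B b → ¬ S b → L a b) ∧
      ∀ f, Desc L f → Comp K F f ∨
        ((∀ n, B (f n) ∧ ¬ S (f n)) ∧ ∀ v, B v → ¬ S v → ∃ i, L (f i) v) := by
  classical
  obtain ⟨s, hs0, hs, hm⟩ := exists_generic (ℙ := Cond K lt E B S)
    (R := ℕ ⊕ (ℕ × List ℕ → Prop)) Ext Ext.refl (fun _ _ _ => Ext.trans)
    (fun p => Sum.inl '' {x | B x} ∪ Sum.inr '' {Θ | p.J.Ce Θ})
    (fun p => (Set.Countable.image (Set.to_countable _) _).union ((countable_ce p.J).image _))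
    (fun p q h => by
      rintro r (⟨x, hx, rfl⟩ | ⟨Θ, hΘ, rfl⟩)
      · exact Or.inl ⟨x, hx, rfl⟩
      · exact Or.inr ⟨Θ, Ce.mono h.J hΘ, rfl⟩)
    (fun p r => match r with
      | Sum.inl x => (S x → p.A x) ∧ (¬ S x → p.Z x)
      | Sum.inr Θ => Meets p Θ)
    (fun p r hr => by
      rcases hr with ⟨x, hx, rfl⟩ | ⟨Θ, hΘ, rfl⟩
      · by_cases hxS : S x
        · obtain ⟨q, hq, hqx, -⟩ := absorbS H p hxS
          exact ⟨q, hq, fun _ => hqx, fun h => absurd hxS h⟩
        · obtain ⟨q, hq, hqx, -⟩ := absorbV H p hx hxS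
          exact ⟨q, hq, fun h => absurd h hxS, fun _ => hqx⟩
      · exact req_step H p hΘ)
    (cond₀ H)
  have hm1 : ∀ x, B x → ∃ m, (S x → (s m).A x) ∧ (¬ S x → (s m).Z x) :=
    fun x hx => hm 0 (Sum.inl x) (Or.inl ⟨x, hx, rfl⟩)
  have hm2 : ∀ n Θ, (s n).J.Ce Θ → ∃ m, Meets (s m) Θ :=
    fun n Θ hΘ => hm n (Sum.inr Θ) (Or.inr ⟨Θ, hΘ, rfl⟩)
  have hSA : ∀ x, S x → ∃ m, (s m).A x := fun x hx => (hm1 x (H.SB x hx)).imp fun m h => h.1 hx
  have hVZ : ∀ x, B x → ¬ S x → ∃ m, (s m).Z x := fun x hx hx' => (hm1 x hx).imp fun m h => h.2 hx'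
  let Λω : ℕ → ℕ → Prop := fun a b => ∃ n, (s n).Λ a b
  let Γω : ℕ → ℕ → Prop := fun a b => ∃ n, (s n).Γ a b
  have hA : ∀ m n, m ≤ n → ∀ x, (s m).A x → (s n).A x := fun m n h => (hs m n h).A
  have hZ : ∀ m n, m ≤ n → ∀ x, (s m).Z x → (s n).Z x := fun m n h => (hs m n h).Z
  have hlinS : LinExt lt S Λω :=
    { dom := by
        rintro a b ⟨n, hn⟩
        exact ⟨(s n).AS _ ((s n).linA.dom _ _ hn).1, (s n).AS _ ((s n).linA.dom _ _ hn).2⟩
      irr := by
        rintro a ⟨n, hn⟩
        exact (s n).linA.irr _ hn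
      trans := by
        rintro a b c ⟨n, hn⟩ ⟨m, hm⟩
        exact ⟨max n m, (s _).linA.trans _ _ _ ((hs _ _ (le_max_left n m)).Λ _ _ hn)
          ((hs _ _ (le_max_right n m)).Λ _ _ hm)⟩
      tot := by
        intro a b ha hb hab
        obtain ⟨n, hn⟩ := hSA a ha
        obtain ⟨m, hm⟩ := hSA b hb
        rcases (s (max n m)).linA.tot a b (hA _ _ (le_max_left n m) _ hn)
          (hA _ _ (le_max_right n m) _ hm) hab with h | h
        · exact Or.inl ⟨_, h⟩
        · exact Or.inr ⟨_, h⟩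
      ext := by
        intro a b ha hb hab
        obtain ⟨n, hn⟩ := hSA a ha
        obtain ⟨m, hm⟩ := hSA b hb
        exact ⟨max n m, (s (max n m)).linA.ext a b (hA _ _ (le_max_left n m) _ hn)
          (hA _ _ (le_max_right n m) _ hm) hab⟩ }
  have hlinV : LinExt lt (fun x => B x ∧ ¬ S x) Γω :=
    { dom := by
        rintro a b ⟨n, hn⟩
        exact ⟨(s n).ZV _ ((s n).linZ.dom _ _ hn).1, (s n).ZV _ ((s n).linZ.dom _ _ hn).2⟩
      irr := by
        rintro a ⟨n, hn⟩
        exact (s n).linZ.irr _ hn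
      trans := by
        rintro a b c ⟨n, hn⟩ ⟨m, hm⟩
        exact ⟨max n m, (s _).linZ.trans _ _ _ ((hs _ _ (le_max_left n m)).Γ _ _ hn)
          ((hs _ _ (le_max_right n m)).Γ _ _ hm)⟩
      tot := by
        intro a b ha hb hab
        obtain ⟨n, hn⟩ := hVZ a ha.1 ha.2
        obtain ⟨m, hm⟩ := hVZ b hb.1 hb.2
        rcases (s (max n m)).linZ.tot a b (hZ _ _ (le_max_left n m) _ hn)
          (hZ _ _ (le_max_right n m) _ hm) hab with h | h
        · exact Or.inl ⟨_, h⟩
        · exact Or.inr ⟨_, h⟩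
      ext := by
        intro a b ha hb hab
        obtain ⟨n, hn⟩ := hVZ a ha.1 ha.2
        obtain ⟨m, hm⟩ := hVZ b hb.1 hb.2
        exact ⟨max n m, (s (max n m)).linZ.ext a b (hZ _ _ (le_max_left n m) _ hn)
          (hZ _ _ (le_max_right n m) _ hm) hab⟩ }
  let L := osum S Λω (fun x => B x ∧ ¬ S x) Γω
  have hlin : LinExt lt B L := by
    refine LinExt.congr (hlinS.osum hlinV (fun x hx hx' => hx'.2 hx)
      (fun a b ha hb hab => hb.2 (H.Sdown a b ha hb.1 hab))) fun x => ?_
    constructor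
    · intro hx
      by_cases hxS : S x
      · exact Or.inl hxS
      · exact Or.inr ⟨hx, hxS⟩
    · rintro (hx | hx)
      · exact H.SB x hx
      · exact hx.1
  have hcompat : ∀ n, Compat (s n) L := by
    intro n
    refine ⟨hlin, fun a b h => Or.inl ⟨n, h⟩, fun a b h => Or.inr (Or.inl ⟨n, h⟩), ?_, ?_,
      fun a b ha hb hb' => Or.inr (Or.inr ⟨ha, hb, hb'⟩)⟩
    · intro a b ha hb hb'
      by_cases hbS : S b
      · obtain ⟨m, hm⟩ := hSA b hbS
        exact Or.inl ⟨max n m, (hs n _ (le_max_left n m)).ini a b ha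
          (hA _ _ (le_max_right n m) _ hm) hb'⟩
      · exact Or.inr (Or.inr ⟨(s n).AS a ha, hb, hbS⟩)
    · intro a b ha ha' hb
      by_cases haS : S a
      · exact Or.inr (Or.inr ⟨haS, (s n).ZV b hb⟩)
      · obtain ⟨m, hm⟩ := hVZ a ha haS
        exact Or.inr (Or.inl ⟨max n m, (hs n _ (le_max_left n m)).fin a b
          (hZ _ _ (le_max_right n m) _ hm) ha' hb⟩)
  have hmonoJ : Monotone fun n => (s n).J := fun m n h => (hs m n h).J
  let J := EIdeal.chain (fun n => (s n).J) hmonoJ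
  have hJn : ∀ n, (s n).J ≤ J := fun n => le_chain _ hmonoJ n
  let F := J.adj fun x : ℕ × ℕ => L x.1 x.2
  have hJF : J ≤ F := le_adj _ _
  have hEF : E ≤ F := ((s 0).hJ.trans (hJn 0)).trans hJF
  refine ⟨F, hEF, ?_, L, hlin, adj_self _ _, fun a b ha hb hb' => Or.inr (Or.inr ⟨ha, hb, hb'⟩), ?_⟩
  · -- thinness
    intro hc
    obtain ⟨Θ, hΘ, hΘ'⟩ := ce_adj_iff.1 hc
    obtain ⟨n, hn⟩ := ce_chain.1 hΘ
    have hce : (s n).J.Ce fun x : ℕ × List ℕ => ∃ l : List (ℕ × ℕ), Θ (x.1, l) ∧
        ∀ a ∈ l, ∃ i : ℕ, ∃ j : ℕ, i < j ∧ x.2[i]? = some a.1 ∧ x.2[j]? = some a.2 := by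
      apply EIdeal.Ce.ex
      apply EIdeal.Ce.and
      · apply EIdeal.Ce.comp hn
        exact P.pair (P.fst (P.fst P.id)) (P.snd P.id)
      · apply EIdeal.Ce.ball
        · apply EIdeal.Ce.ex
          apply EIdeal.Ce.ex
          apply EIdeal.Ce.and
          · apply EIdeal.Ce.lt
            · exact P.snd (P.fst P.id)
            · exact P.snd P.id
          · apply EIdeal.Ce.and
            · apply EIdeal.Ce.eq
              · exact P.getElem? (P.snd (P.fst (P.fst (P.fst (P.fst P.id))))) (P.snd (P.fst P.id))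
              · exact P.some (P.fst (P.snd (P.fst (P.fst P.id))))
            · apply EIdeal.Ce.eq
              · exact P.getElem? (P.snd (P.fst (P.fst (P.fst (P.fst P.id))))) (P.snd P.id)
              · exact P.some (P.snd (P.snd (P.fst (P.fst P.id))))
        · exact P.snd P.id
    obtain ⟨m, hm⟩ := hm2 n _ hce
    refine hm L (hcompat m) fun k => ?_
    rw [hΘ' k]
    constructor
    · rintro ⟨l, hl, hΘl⟩
      obtain ⟨c, hcB, hcp, hcm⟩ := exists_chain hlin (l.map Prod.fst ++ l.map Prod.snd) (by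
        intro x hx
        rcases List.mem_append.1 hx with hx | hx
        · obtain ⟨a, ha, rfl⟩ := List.mem_map.1 hx
          exact (hlin.dom _ _ (hl a ha)).1
        · obtain ⟨a, ha, rfl⟩ := List.mem_map.1 hx
          exact (hlin.dom _ _ (hl a ha)).2)
      refine ⟨c, hcB, hcp, l, hΘl, fun a ha => ?_⟩
      have h1 : a.1 ∈ c := hcm _ (List.mem_append.2 (Or.inl (List.mem_map.2 ⟨a, ha, rfl⟩)))
      have h2 : a.2 ∈ c := hcm _ (List.mem_append.2 (Or.inr (List.mem_map.2 ⟨a, ha, rfl⟩)))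
      obtain ⟨i, hi, hi'⟩ := List.getElem_of_mem h1
      obtain ⟨j, hj, hj'⟩ := List.getElem_of_mem h2
      refine ⟨i, j, ?_, ?_, ?_⟩
      · by_contra hij
        rcases Nat.lt_or_ge j i with h3 | h3
        · have := List.pairwise_iff_getElem.1 hcp j i hj hi h3
          rw [hi', hj'] at this
          exact hlin.asymm (hl a ha) this
        · obtain rfl : i = j := by omega
          rw [hi'] at hj'
          have := hl a ha
          rw [← hj'] at this
          exact hlin.irr _ this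
      · rw [List.getElem?_eq_getElem hi, hi']
      · rw [List.getElem?_eq_getElem hj, hj']
    · rintro ⟨c, hcB, hcp, l, hΘl, hl⟩
      refine ⟨l, fun a ha => ?_, hΘl⟩
      obtain ⟨i, j, hij, hi, hj⟩ := hl a ha
      obtain ⟨hi1, hi2⟩ := List.getElem?_eq_some_iff.1 hi
      obtain ⟨hj1, hj2⟩ := List.getElem?_eq_some_iff.1 hj
      have := List.pairwise_iff_getElem.1 hcp i j hi1 hj1 hij
      rw [hi2, hj2] at this
      exact this
  · intro f hf
    rcases desc_osum hlinS hlinV (fun x hx hx' => hx'.2 hx) hf with h | ⟨k, h⟩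
    · -- all terms in the upper part
      have hV : ∀ n, B (f n) ∧ ¬ S (f n) := by
        intro n
        obtain ⟨m, hm⟩ := h n
        exact (s m).ZV _ ((s m).linZ.dom _ _ hm).2
      by_cases hcase : ∃ m, ∀ i, (s m).Z (f i)
      · left
        obtain ⟨m, hm⟩ := hcase
        have hd : Desc (s m).Γ f := by
          intro i
          have hne : f (i + 1) ≠ f i := by
            intro he
            obtain ⟨n, hn⟩ := h i
            rw [he] at hn
            exact (s n).linZ.irr _ hn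
          rcases (s m).linZ.tot (f (i + 1)) (f i) (hm _) (hm _) hne with h1 | h1
          · exact h1
          · exact absurd (hf i) fun h2 => hlin.asymm h2 ((hcompat m).Γ _ _ h1)
        exact ((s m).descZ f hd).mono ((hJn m).trans hJF)
      · right
        refine ⟨hV, fun v hv hvS => ?_⟩
        obtain ⟨m, hm⟩ := hVZ v hv hvS
        by_contra hno
        apply hcase
        refine ⟨m, fun i => ?_⟩
        by_contra hi
        exact hno ⟨i, (hcompat m).fin (f i) v (hV i).1 hi hm⟩
    · -- eventually in the lower part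
      left
      refine Comp.of_shift (k := k) ?_
      have hS0 : S (f k) := by
        have := (hlinS.dom _ _ (h 0)).2
        simpa using this
      obtain ⟨m, hm⟩ := hSA _ hS0
      have hdown : ∀ n, (s m).A (f (k + n)) := by
        intro n
        induction n with
        | zero => exact hm
        | succ n ih =>
          by_contra hno
          have h1 : Λω (f (k + (n + 1))) (f (k + n)) := h n
          have h2 := (hcompat m).ini (f (k + n)) (f (k + (n + 1))) ih
            (H.SB _ (hlinS.dom _ _ h1).1) hno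
          exact hlin.asymm (Or.inl h1) h2
      have hd : Desc (s m).Λ fun n => f (k + n) := by
        intro i
        have h1 : Λω (f (k + (i + 1))) (f (k + i)) := h i
        have hne : f (k + (i + 1)) ≠ f (k + i) := by
          intro he
          rw [he] at h1
          exact hlinS.irr _ h1
        rcases (s m).linA.tot _ _ (hdown (i + 1)) (hdown i) hne with h2 | h2
        · exact h2
        · exact absurd h1 fun h3 => hlinS.asymm h3 ⟨m, h2⟩
      exact ((s m).descA _ hd).mono ((hJn m).trans hJF)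

end Pool.Agent.H78Ext
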