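import Mathlib
import Pool.Agent.H78Ext.Gap

/-!
# The cut lemma and hereditary solvability
-/

namespace Pool.Agent.H78Ext

open Encodable Primrec EIdeal

variable {K : ℕ → Prop} {lt : ℕ → ℕ → Prop} {E : EIdeal} {B S : ℕ → Prop}

/-- Lemma C: if all proper initial parts `B_{<x}` are hereditarily solvable then so is `B`. -/
theorem hs_of_lt (ceK : S1 K) (hirr : ∀ x, ¬ lt x x) (htr : ∀ x y z, lt x y → lt y z → lt x z)
    (declt : E.Dec fun x : ℕ × ℕ => lt x.1 x.2)
    (hi : ∀ x, B x → HS K lt E fun y => B y ∧ lt y x) : HS K lt E B := by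
  intro F hF hFT C hC hd
  have H : GapHyp K lt F C C :=
    { thin := hFT
      hirr := hirr
      htr := htr
      decB := hd
      declt := declt.mono hF
      ceK := ceK
      ceS := hd.1
      SB := fun _ h => h
      Sdown := fun _ y _ hy _ => hy
      hi := fun x hx => (hi x (hC x hx)).mono hF fun y hy => ⟨hC y hy.1, hy.2⟩
      hii := fun G _ hGT β hβ _ => sol_of_empty hGT fun x hx => (hβ x hx).2 (hβ x hx).1 }
  obtain ⟨G, hG, hGT, L, hL, hLc, -, hf⟩ := gap H
  refine ⟨G, hG, hGT, L, hL, hLc, fun f hd => ?_⟩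
  rcases hf f hd with h | h
  · exact h
  · exact absurd (h.1 0).1 (h.1 0).2

/-- Lemma D (cut lemma). -/
theorem sol_of_gapHyp (H : GapHyp K lt E B S) : Sol K lt E B := by
  by_cases hT : Thin K (E.adj fun x => ¬ S x)
  · -- the cut can be added: solve both parts separately
    have hE : E ≤ E.adj fun x => ¬ S x := le_adj _ _
    have hSd : (E.adj fun x => ¬ S x).Dec S := ⟨H.ceS.mono hE, adj_self _ _⟩
    have h1 : HS K lt (E.adj fun x => ¬ S x) S := by
      refine hs_of_lt H.ceK H.hirr H.htr (H.declt.mono hE) fun x hx => ?_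
      exact (H.hi x hx).mono hE fun y hy => ⟨H.SB y hy.1, hy.2⟩
    have hB1 := H.decB.1.mono hE
    have hB2 := H.decB.2.mono hE
    have hS1 := hSd.1
    have hS2 := hSd.2
    have hVd : (E.adj fun x => ¬ S x).Dec fun x => B x ∧ ¬ S x := by
      refine ⟨by
            apply EIdeal.Ce.and
            · apply EIdeal.Ce.comp hB1
              exact P.id
            · apply EIdeal.Ce.ncomp hS2
              exact P.id, ?_⟩
      have : (E.adj fun x => ¬ S x).Ce fun x => ¬ B x ∨ S x := by
            apply EIdeal.Ce.or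
            · apply EIdeal.Ce.ncomp hB2
              exact P.id
            · apply EIdeal.Ce.comp hS1
              exact P.id
      exact this.of_eq fun x => by tauto
    have h2 : Sol K lt (E.adj fun x => ¬ S x) fun x => S x ∨ (B x ∧ ¬ S x) := by
      refine Sol.sum (h1.sol hT hSd) ?_ hSd.1 hVd.1 (fun x hx hx' => hx'.2 hx)
        (fun a b ha hb hab => hb.2 (H.Sdown a b ha hb.1 hab))
      intro F hF hFT
      exact H.hii F (hE.trans hF) hFT _ (fun x hx => hx) (hVd.mono hF)
    refine (h2.of_le hE).congr fun x => ?_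
    constructor
    · intro hx
      by_cases hxS : S x
      · exact Or.inl hxS
      · exact Or.inr ⟨hx, hxS⟩
    · rintro (hx | hx)
      · exact H.SB x hx
      · exact hx.1
  · -- the cut computes `K`
    obtain ⟨F, hF, hFT, L, hL, hLc, hcut, hf⟩ := gap H
    refine ⟨F, hF, hFT, L, hL, hLc, fun f hd => ?_⟩
    rcases hf f hd with h | ⟨hV, hcoi⟩
    · exact h
    · -- coinitial sequences compute the cut
      intro hTf
      apply hT
      refine Thin.anti (adj_le (hF.trans (le_adj _ _)) ?_) hTf
      have hle : F ≤ F.adj (Gr f) := le_adj _ _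
      have hg : (F.adj (Gr f)).Ce (Gr f) := adj_self _ _
      have hg' : (F.adj (Gr f)).Ce fun x : ℕ × ℕ => f x.1 = x.2 := hg
      have hL' := hLc.mono hle
      have hB2 := H.decB.2.mono (hF.trans hle)
      have h1 : (F.adj (Gr f)).Ce fun x => ¬ B x ∨ ∃ i, ∃ y, f i = y ∧ (L y x ∨ y = x) := by
        refine Ce.or (by
              apply EIdeal.Ce.ncomp hB2
              exact P.id) (Ce.ex (Ce.ex (Ce.and ?_ (by
              apply EIdeal.Ce.or
              · apply EIdeal.Ce.rel hL'
                · exact P.snd P.id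
                · exact P.fst (P.fst P.id)
              · apply EIdeal.Ce.eq
                · exact P.snd P.id
                · exact P.fst (P.fst P.id)))))
        exact hg'.comp (f := fun x : (ℕ × ℕ) × ℕ => (x.1.2, x.2)) (by exact P.pair (P.snd (P.fst P.id)) (P.snd P.id))
      refine h1.of_eq fun x => ?_
      constructor
      · rintro (h | ⟨i, y, rfl, h | h⟩)
        · exact fun hS => h (H.SB x hS)
        · intro hS
          exact hL.asymm h (hcut x (f i) hS (hV i).1 (hV i).2)
        · rw [← h]
          exact (hV i).2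
      · intro hS
        by_cases hB : B x
        · obtain ⟨i, hi⟩ := hcoi x hB hS
          exact Or.inr ⟨i, f i, rfl, Or.inl hi⟩
        · exact Or.inl hB

end Pool.Agent.H78Ext
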