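import Mathlib

/-!
# Second-order arithmetic: structures, formulas, `RCA₀`, arithmetical comprehension, `EXT(ω*)`
-/

namespace Pool.Agent.H78Ext

/-- A structure for the language of second-order arithmetic: a first-order part `N` with
`0, 1, +, ·, <`, and a collection `sets` of subsets of `N` over which the set variables range. -/
structure L2Structure where
  N : Type
  zero : N
  one : N
  add : N → N → N
  mul : N → N → N
  lt : N → N → Prop
  sets : Set (Set N)

/-- Number terms of second-order arithmetic with number variables `x_0, …, x_{n-1}`: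
variables, `0`, `1`, sums and products. -/
inductive Tm (n : ℕ) : Type
  | tVar (i : Fin n) : Tm n
  | tZero : Tm n
  | tOne : Tm n
  | tAdd (s t : Tm n) : Tm n
  | tMul (s t : Tm n) : Tm n

/-- Arithmetical formulas of second-order arithmetic (no set quantifiers) with set variables
`X_0, …, X_{m-1}` and number variables `x_0, …, x_{n-1}`: equations, inequalities `s < t`,
membership `t ∈ X_i`, negation, conjunction, bounded quantification `∀ x < t, φ` and
quantification `∀ x, φ`; the bound variable is the variable `x_0` of `φ`. -/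
inductive Fm (m : ℕ) : ℕ → Type
  | fEq {n : ℕ} (s t : Tm n) : Fm m n
  | fLt {n : ℕ} (s t : Tm n) : Fm m n
  | fMem {n : ℕ} (t : Tm n) (i : Fin m) : Fm m n
  | fNot {n : ℕ} (φ : Fm m n) : Fm m n
  | fAnd {n : ℕ} (φ ψ : Fm m n) : Fm m n
  | fAllBelow {n : ℕ} (t : Tm n) (φ : Fm m (n + 1)) : Fm m n
  | fAll {n : ℕ} (φ : Fm m (n + 1)) : Fm m n

/-- The value of a term. -/
noncomputable def Tm.val (M : L2Structure) {n : ℕ} (v : Fin n → M.N) (t : Tm n) : M.N :=
  Tm.rec (fun i => v i) M.zero M.one (fun _ _ a b => M.add a b) (fun _ _ a b => M.mul a b) t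

/-- Truth of a formula, for values `X` of the set variables and `v` of the number variables
(Tarski's clauses in the order of the constructors of `Fm`). -/
def Fm.Holds (M : L2Structure) {m : ℕ} (X : Fin m → Set M.N) {n : ℕ} (φ : Fm m n) :
    (Fin n → M.N) → Prop :=
  Fm.rec (motive := fun n _ => (Fin n → M.N) → Prop)
    (fun s t v => s.val M v = t.val M v)
    (fun s t v => M.lt (s.val M v) (t.val M v))
    (fun t i v => t.val M v ∈ X i)
    (fun _ p v => ¬ p v)
    (fun _ _ p q v => p v ∧ q v)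
    (fun t _ p v => ∀ a : M.N, M.lt a (t.val M v) → p (Fin.cons a v : Fin _ → M.N))
    (fun _ p v => ∀ a : M.N, p (Fin.cons a v : Fin _ → M.N))
    φ

/-- Bounded (`Δ⁰₀`) formulas: no unbounded quantifier. -/
inductive Fm.IsBounded {m : ℕ} : {n : ℕ} → Fm m n → Prop
  | bEq {n : ℕ} (s t : Tm n) : Fm.IsBounded (.fEq s t)
  | bLt {n : ℕ} (s t : Tm n) : Fm.IsBounded (.fLt s t)
  | bMem {n : ℕ} (t : Tm n) (i : Fin m) : Fm.IsBounded (.fMem t i)
  | bNot {n : ℕ} {φ : Fm m n} : Fm.IsBounded φ → Fm.IsBounded (.fNot φ)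
  | bAnd {n : ℕ} {φ ψ : Fm m n} : Fm.IsBounded φ → Fm.IsBounded ψ → Fm.IsBounded (.fAnd φ ψ)
  | bAllBelow {n : ℕ} (t : Tm n) {φ : Fm m (n + 1)} :
      Fm.IsBounded φ → Fm.IsBounded (.fAllBelow t φ)

/-- The formula `∃ x, φ`. -/
def Fm.fEx {m n : ℕ} (φ : Fm m (n + 1)) : Fm m n := .fNot (.fAll (.fNot φ))

/-- `Σ⁰₁` formulas: `∃ x, θ` with `θ` bounded. -/
def Fm.IsSigma1 {m n : ℕ} (φ : Fm m n) : Prop := ∃ θ : Fm m (n + 1), θ.IsBounded ∧ φ = θ.fEx

/-- `Π⁰₁` formulas: `∀ x, θ` with `θ` bounded. -/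
def Fm.IsPi1 {m n : ℕ} (φ : Fm m n) : Prop := ∃ θ : Fm m (n + 1), θ.IsBounded ∧ φ = .fAll θ

namespace L2Structure

/-- The structure is a model of `RCA₀`: the basic axioms, `Σ⁰₁` induction and `Δ⁰₁` comprehension
(with number and set parameters). -/
structure RCA0 (M : L2Structure) : Prop where
  succ_ne_zero : ∀ n, M.add n M.one ≠ M.zero
  succ_inj : ∀ m n, M.add m M.one = M.add n M.one → m = n
  add_zero : ∀ m, M.add m M.zero = m
  add_succ : ∀ m n, M.add m (M.add n M.one) = M.add (M.add m n) M.one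
  mul_zero : ∀ m, M.mul m M.zero = M.zero
  mul_succ : ∀ m n, M.mul m (M.add n M.one) = M.add (M.mul m n) m
  not_lt_zero : ∀ m, ¬ M.lt m M.zero
  lt_succ : ∀ m n, M.lt m (M.add n M.one) ↔ (M.lt m n ∨ m = n)
  sigma_induction : ∀ (k n : ℕ) (φ : Fm k (n + 1)), φ.IsSigma1 →
    ∀ X : Fin k → Set M.N, (∀ i, X i ∈ M.sets) → ∀ v : Fin n → M.N,
      φ.Holds M X (Fin.cons M.zero v : Fin _ → M.N) →
      (∀ a, φ.Holds M X (Fin.cons a v : Fin _ → M.N) →
        φ.Holds M X (Fin.cons (M.add a M.one) v : Fin _ → M.N)) →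
      ∀ a, φ.Holds M X (Fin.cons a v : Fin _ → M.N)
  delta_comprehension : ∀ (k n : ℕ) (φ ψ : Fm k (n + 1)), φ.IsSigma1 → ψ.IsPi1 →
    ∀ X : Fin k → Set M.N, (∀ i, X i ∈ M.sets) → ∀ v : Fin n → M.N,
      (∀ a, φ.Holds M X (Fin.cons a v : Fin _ → M.N) ↔
        ψ.Holds M X (Fin.cons a v : Fin _ → M.N)) →
      ∃ Y ∈ M.sets, ∀ a, a ∈ Y ↔ φ.Holds M X (Fin.cons a v : Fin _ → M.N)

/-- The scheme of arithmetical comprehension (with number and set parameters). -/
def ArithComprehension (M : L2Structure) : Prop :=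
  ∀ (k n : ℕ) (φ : Fm k (n + 1)) (X : Fin k → Set M.N), (∀ i, X i ∈ M.sets) →
    ∀ v : Fin n → M.N, ∃ Y ∈ M.sets, ∀ a, a ∈ Y ↔ φ.Holds M X (Fin.cons a v : Fin _ → M.N)

/-- The pairing function `(i, j) = (i + j)² + i` of second-order arithmetic. -/
def code (M : L2Structure) (i j : M.N) : M.N := M.add (M.mul (M.add i j) (M.add i j)) i

/-- `P` codes a partial order (reflexive, antisymmetric, transitive) on `D`;
`x` is below `y` if the code of `(x, y)` is in `P`. -/
structure IsPartialOrder (M : L2Structure) (D P : Set M.N) : Prop where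
  dom : ∀ x y, M.code x y ∈ P → x ∈ D ∧ y ∈ D
  refl : ∀ x ∈ D, M.code x x ∈ P
  antisymm : ∀ x y, M.code x y ∈ P → M.code y x ∈ P → x = y
  trans : ∀ x y z, M.code x y ∈ P → M.code y z ∈ P → M.code x z ∈ P

/-- `L` codes a linear order on `D` that extends the partial order coded by `P`. -/
structure IsLinearExtension (M : L2Structure) (D P L : Set M.N) : Prop where
  order : M.IsPartialOrder D L
  total : ∀ x ∈ D, ∀ y ∈ D, M.code x y ∈ L ∨ M.code y x ∈ L
  extends_ : ∀ x y, M.code x y ∈ P → M.code x y ∈ L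

/-- `F` codes a function from `N` to `N` whose values form an infinite strictly descending
sequence with respect to the order coded by `P`. -/
def IsDescending (M : L2Structure) (P F : Set M.N) : Prop :=
  (∀ n, ∃! x, M.code n x ∈ F) ∧
  ∀ n x y, M.code n x ∈ F → M.code (M.add n M.one) y ∈ F → M.code y x ∈ P ∧ y ≠ x

/-- `EXT(ω*)`: every partial order with no infinite descending sequence has a linear extension
with no infinite descending sequence. -/
def ExtOmegaStar (M : L2Structure) : Prop :=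
  ∀ D ∈ M.sets, ∀ P ∈ M.sets, M.IsPartialOrder D P → (¬ ∃ F ∈ M.sets, M.IsDescending P F) →
    ∃ L ∈ M.sets, M.IsLinearExtension D P L ∧ ¬ ∃ F ∈ M.sets, M.IsDescending L F

end L2Structure

/-- The `ω`-structure with second-order part `S`. -/
def omegaStructure (S : Set (Set ℕ)) : L2Structure where
  N := ℕ
  zero := 0
  one := 1
  add := fun a b => a + b
  mul := fun a b => a * b
  lt := fun a b => a < b
  sets := S

open Classical in
/-- The characteristic function of a set, as an oracle. -/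
noncomputable def chi (A : Set ℕ) : ℕ →. ℕ := fun n => Part.some (if n ∈ A then 1 else 0)

/-- The join `{2n : n ∈ A} ∪ {2n+1 : n ∈ B}`. -/
def setJoin (A B : Set ℕ) : Set ℕ := {n | (∃ k ∈ A, n = 2 * k) ∨ ∃ k ∈ B, n = 2 * k + 1}

/-- Turing ideals: nonempty families of sets closed under join and downward closed under Turing
reducibility (Mathlib's `TuringReducible`). -/
structure IsTuringIdeal (S : Set (Set ℕ)) : Prop where
  nonempty : S.Nonempty
  join : ∀ A ∈ S, ∀ B ∈ S, setJoin A B ∈ S
  down : ∀ A ∈ S, ∀ B : Set ℕ, TuringReducible (chi B) (chi A) → B ∈ S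

/-- The halting set: all (codes of) programs that halt on input `0`. -/
def haltingSet : Set ℕ := {n | ((Denumerable.ofNat Nat.Partrec.Code n).eval 0).Dom}

end Pool.Agent.H78Ext
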