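import Mathlib
import Pool.Agent.H78Ext.SecondOrder
import Pool.Agent.H78Ext.RE

/-!
# `Σ₁` predicates are arithmetically definable
-/

namespace Pool.Agent.H78Ext

/-- weakening of a term -/
def Tm.lift {n : ℕ} : Tm n → Tm (n + 1)
  | .tVar i => .tVar i.succ
  | .tZero => .tZero
  | .tOne => .tOne
  | .tAdd s t => .tAdd s.lift t.lift
  | .tMul s t => .tMul s.lift t.lift

/-- evaluation in the standard model -/
def Tm.ev {n : ℕ} (t : Tm n) (v : Fin n → ℕ) : ℕ :=
  match t with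
  | .tVar i => v i
  | .tZero => 0
  | .tOne => 1
  | .tAdd s t => s.ev v + t.ev v
  | .tMul s t => s.ev v * t.ev v

theorem Tm.val_omega {S : Set (Set ℕ)} {n : ℕ} (t : Tm n) (v : Fin n → ℕ) :
    t.val (omegaStructure S) v = t.ev v := by
  induction t with
  | tVar i => rfl
  | tZero => rfl
  | tOne => rfl
  | tAdd s t hs ht =>
    show (omegaStructure S).add (s.val (omegaStructure S) v) (t.val (omegaStructure S) v) = _
    rw [hs, ht]
    rfl
  | tMul s t hs ht =>
    show (omegaStructure S).mul (s.val (omegaStructure S) v) (t.val (omegaStructure S) v) = _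
    rw [hs, ht]
    rfl

@[simp] theorem Tm.ev_lift {n : ℕ} (t : Tm n) (a : ℕ) (v : Fin n → ℕ) :
    t.lift.ev (Fin.cons a v : Fin (n + 1) → ℕ) = t.ev v := by
  induction t with
  | tVar i => simp [Tm.lift, Tm.ev]
  | tZero => rfl
  | tOne => rfl
  | tAdd s t hs ht => simp only [Tm.lift, Tm.ev, hs, ht]
  | tMul s t hs ht => simp only [Tm.lift, Tm.ev, hs, ht]

@[simp] theorem Tm.ev_var {n : ℕ} (i : Fin n) (v : Fin n → ℕ) : (Tm.tVar i).ev v = v i := rfl
@[simp] theorem Tm.ev_zero {n : ℕ} (v : Fin n → ℕ) : (Tm.tZero : Tm n).ev v = 0 := rfl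
@[simp] theorem Tm.ev_one {n : ℕ} (v : Fin n → ℕ) : (Tm.tOne : Tm n).ev v = 1 := rfl
@[simp] theorem Tm.ev_add {n : ℕ} (s t : Tm n) (v : Fin n → ℕ) :
    (Tm.tAdd s t).ev v = s.ev v + t.ev v := rfl
@[simp] theorem Tm.ev_mul {n : ℕ} (s t : Tm n) (v : Fin n → ℕ) :
    (Tm.tMul s t).ev v = s.ev v * t.ev v := rfl

/-- arithmetical definability, uniformly in all `ω`-structures -/
def AD (n : ℕ) (p : (Fin n → ℕ) → Prop) : Prop :=
  ∃ φ : Fm 0 n, ∀ (S : Set (Set ℕ)) (X : Fin 0 → Set ℕ) (v : Fin n → ℕ),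
    φ.Holds (omegaStructure S) X v ↔ p v

namespace AD

variable {n : ℕ}

theorem of_iff {p q : (Fin n → ℕ) → Prop} (h : AD n p) (hpq : ∀ v, p v ↔ q v) : AD n q := by
  have : p = q := funext fun v => propext (hpq v)
  exact this ▸ h

theorem eq (s t : Tm n) : AD n fun v => s.ev v = t.ev v :=
  ⟨.fEq s t, fun S X v => by
    show s.val (omegaStructure S) v = t.val (omegaStructure S) v ↔ _
    rw [Tm.val_omega, Tm.val_omega]
    rfl⟩

theorem lt (s t : Tm n) : AD n fun v => s.ev v < t.ev v :=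
  ⟨.fLt s t, fun S X v => by
    show (omegaStructure S).lt (s.val (omegaStructure S) v) (t.val (omegaStructure S) v) ↔ _
    rw [Tm.val_omega, Tm.val_omega]
    rfl⟩

theorem not {p : (Fin n → ℕ) → Prop} (h : AD n p) : AD n fun v => ¬ p v := by
  obtain ⟨φ, hφ⟩ := h
  exact ⟨.fNot φ, fun S X v => not_congr (hφ S X v)⟩

theorem and {p q : (Fin n → ℕ) → Prop} (hp : AD n p) (hq : AD n q) : AD n fun v => p v ∧ q v := by
  obtain ⟨φ, hφ⟩ := hp
  obtain ⟨ψ, hψ⟩ := hq
  exact ⟨.fAnd φ ψ, fun S X v => and_congr (hφ S X v) (hψ S X v)⟩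

theorem or {p q : (Fin n → ℕ) → Prop} (hp : AD n p) (hq : AD n q) : AD n fun v => p v ∨ q v :=
  ((hp.not.and hq.not).not).of_iff fun v => by tauto

theorem all {p : (Fin (n + 1) → ℕ) → Prop} (h : AD (n + 1) p) :
    AD n fun v => ∀ a, p (Fin.cons a v : Fin (n + 1) → ℕ) := by
  obtain ⟨φ, hφ⟩ := h
  exact ⟨.fAll φ, fun S X v => forall_congr' fun a => hφ S X _⟩

theorem ex {p : (Fin (n + 1) → ℕ) → Prop} (h : AD (n + 1) p) :
    AD n fun v => ∃ a, p (Fin.cons a v : Fin (n + 1) → ℕ) :=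
  (h.not.all.not).of_iff fun v => by simp

theorem ex' {p : (Fin n → ℕ) → ℕ → Prop}
    (h : AD (n + 1) fun w => p (fun i => w i.succ) (w 0)) : AD n fun v => ∃ a, p v a :=
  h.ex.of_iff fun v => by simp

theorem all' {p : (Fin n → ℕ) → ℕ → Prop}
    (h : AD (n + 1) fun w => p (fun i => w i.succ) (w 0)) : AD n fun v => ∀ a, p v a :=
  h.all.of_iff fun v => by simp

end AD

/-- de Bruijn indices -/
abbrev i0 {n : ℕ} : Fin (n + 1) := 0
abbrev i1 {n : ℕ} : Fin (n + 2) := Fin.succ 0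
abbrev i2 {n : ℕ} : Fin (n + 3) := Fin.succ (Fin.succ 0)
abbrev i3 {n : ℕ} : Fin (n + 4) := Fin.succ (Fin.succ (Fin.succ 0))
abbrev i4 {n : ℕ} : Fin (n + 5) := Fin.succ (Fin.succ (Fin.succ (Fin.succ 0)))
abbrev i5 {n : ℕ} : Fin (n + 6) := Fin.succ (Fin.succ (Fin.succ (Fin.succ (Fin.succ 0))))
abbrev i7 {n : ℕ} : Fin (n + 8) :=
  Fin.succ (Fin.succ (Fin.succ (Fin.succ (Fin.succ (Fin.succ (Fin.succ 0))))))

/-- a unary function is arithmetical if its graph is definable with terms substituted -/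
def AF (f : ℕ → ℕ) : Prop := ∀ (n : ℕ) (s t : Tm n), AD n fun v => f (s.ev v) = t.ev v

theorem ad_pair (n : ℕ) (a b c : Tm n) : AD n fun v => Nat.pair (a.ev v) (b.ev v) = c.ev v := by
  have h : AD n fun v => (a.ev v < b.ev v ∧ (Tm.tAdd (Tm.tMul b b) a).ev v = c.ev v) ∨
      (¬ a.ev v < b.ev v ∧ (Tm.tAdd (Tm.tAdd (Tm.tMul a a) a) b).ev v = c.ev v) :=
    ((AD.lt a b).and (AD.eq _ _)).or ((AD.lt a b).not.and (AD.eq _ _))
  refine h.of_iff fun v => ?_
  simp only [Tm.ev_add, Tm.ev_mul, Nat.pair]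
  by_cases hab : a.ev v < b.ev v <;> simp [hab]

theorem ad_beta (n : ℕ) (c i t : Tm n) : AD n fun v => Nat.beta (c.ev v) (i.ev v) = t.ev v := by
  have key : ∀ c i t : ℕ, (∃ x y q : ℕ, Nat.pair x y = c ∧
      t < (i + 1) * y + 1 ∧ q * ((i + 1) * y + 1) + t = x) ↔ Nat.beta c i = t := by
    intro c i t
    unfold Nat.beta
    constructor
    · rintro ⟨x, y, q, rfl, h1, rfl⟩
      simp only [Nat.unpair_pair]
      rw [add_comm, Nat.add_mul_mod_self_right, Nat.mod_eq_of_lt h1]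
    · rintro rfl
      refine ⟨c.unpair.1, c.unpair.2, c.unpair.1 / ((i + 1) * c.unpair.2 + 1), by simp,
        Nat.mod_lt _ (Nat.succ_pos _), ?_⟩
      rw [mul_comm]
      exact Nat.div_add_mod _ _
  -- variables: q = 0, y = 1, x = 2
  have h3 : AD (n + 3) fun w => Nat.pair (w i2) (w i1) = c.lift.lift.lift.ev w ∧
      (t.lift.lift.lift.ev w < (i.lift.lift.lift.ev w + 1) * w i1 + 1) ∧
      w i0 * ((i.lift.lift.lift.ev w + 1) * w i1 + 1) + t.lift.lift.lift.ev w = w i2 := by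
    refine AD.and ?_ (AD.and ?_ ?_)
    · exact ad_pair (n + 3) (.tVar i2) (.tVar i1) c.lift.lift.lift
    · exact AD.lt t.lift.lift.lift
        (.tAdd (.tMul (.tAdd i.lift.lift.lift .tOne) (.tVar i1)) .tOne)
    · exact AD.eq (.tAdd (.tMul (.tVar i0) (.tAdd (.tMul (.tAdd i.lift.lift.lift .tOne) (.tVar i1)) .tOne))
        t.lift.lift.lift) (.tVar i2)
  refine h3.ex.ex.ex.of_iff fun v => ?_
  simp only [Tm.ev_lift, Fin.cons_succ, Fin.cons_zero]
  exact key _ _ _

theorem AF.ofPrimrec {f : ℕ → ℕ} (hf : Nat.Primrec f) : AF f := by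
  induction hf with
  | zero =>
    intro n s t
    exact AD.eq .tZero t
  | succ =>
    intro n s t
    exact AD.eq (.tAdd s .tOne) t
  | left =>
    intro n s t
    have h : AD (n + 1) fun w => Nat.pair (t.lift.ev w) (w i0) = s.lift.ev w :=
      ad_pair (n + 1) t.lift (.tVar i0) s.lift
    refine h.ex.of_iff fun v => ?_
    simp only [Tm.ev_lift, Fin.cons_zero]
    constructor
    · rintro ⟨a, ha⟩
      rw [← ha]
      simp
    · intro h
      exact ⟨(s.ev v).unpair.2, by rw [← h]; simp⟩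
  | right =>
    intro n s t
    have h : AD (n + 1) fun w => Nat.pair (w i0) (t.lift.ev w) = s.lift.ev w :=
      ad_pair (n + 1) (.tVar i0) t.lift s.lift
    refine h.ex.of_iff fun v => ?_
    simp only [Tm.ev_lift, Fin.cons_zero]
    constructor
    · rintro ⟨a, ha⟩
      rw [← ha]
      simp
    · intro h
      exact ⟨(s.ev v).unpair.1, by rw [← h]; simp⟩
  | @pair f g _ _ hf hg =>
    intro n s t
    have h : AD (n + 2) fun w => f (s.lift.lift.ev w) = w i1 ∧ g (s.lift.lift.ev w) = w i0 ∧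
        Nat.pair (w i1) (w i0) = t.lift.lift.ev w :=
      AD.and (hf (n + 2) s.lift.lift (.tVar i1)) (AD.and (hg (n + 2) s.lift.lift (.tVar i0))
        (ad_pair (n + 2) (.tVar i1) (.tVar i0) t.lift.lift))
    refine h.ex.ex.of_iff fun v => ?_
    simp only [Tm.ev_lift, Fin.cons_succ, Fin.cons_zero]
    constructor
    · rintro ⟨a, b, h1, h2, h3⟩
      rw [h1, h2, h3]
    · intro h
      exact ⟨f (s.ev v), g (s.ev v), rfl, rfl, h⟩
  | @comp f g _ _ hf hg =>
    intro n s t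
    have h : AD (n + 1) fun w => g (s.lift.ev w) = w i0 ∧ f (w i0) = t.lift.ev w :=
      AD.and (hg (n + 1) s.lift (.tVar i0)) (hf (n + 1) (.tVar i0) t.lift)
    refine h.ex.of_iff fun v => ?_
    simp only [Tm.ev_lift, Fin.cons_zero]
    constructor
    · rintro ⟨a, rfl, h⟩
      exact h
    · intro h
      exact ⟨_, rfl, h⟩
  | @prec f g _ _ hf hg =>
    intro n s t
    have h1 : AD (n + 4) fun w => Nat.beta (w i1) 0 = w i0 ∧ f (w i3) = w i0 :=
      AD.and ((ad_beta (n + 4) (.tVar i1) .tZero (.tVar i0))) (hf (n + 4) (.tVar i3) (.tVar i0))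
    have h2 : AD (n + 8) fun w => Nat.beta (w i5) (w i4) = w i3 ∧
        Nat.beta (w i5) (w i4 + 1) = w i2 ∧
        Nat.pair (w i4) (w i3) = w i1 ∧ Nat.pair (w i7) (w i1) = w i0 ∧ g (w i0) = w i2 :=
      AD.and (ad_beta (n + 8) (.tVar i5) (.tVar i4) (.tVar i3))
        (AD.and (ad_beta (n + 8) (.tVar i5) (.tAdd (.tVar i4) .tOne) (.tVar i2))
          (AD.and (ad_pair (n + 8) (.tVar i4) (.tVar i3) (.tVar i1))
            (AD.and (ad_pair (n + 8) (.tVar i7) (.tVar i1) (.tVar i0))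
              (hg (n + 8) (.tVar i0) (.tVar i2)))))
    have h4 : AD (n + 4) fun w => w i0 < w i2 := AD.lt (.tVar i0) (.tVar i2)
    have h3 := (h4.and h2.ex.ex.ex.ex.not).not.all
    have h5 : AD (n + 3) fun w => Nat.pair (w i2) (w i1) = s.lift.lift.lift.ev w :=
      ad_pair (n + 3) (.tVar i2) (.tVar i1) s.lift.lift.lift
    have h6 : AD (n + 3) fun w => Nat.beta (w i0) (w i1) = t.lift.lift.lift.ev w :=
      ad_beta (n + 3) (.tVar i0) (.tVar i1) t.lift.lift.lift
    refine (h5.and (h1.ex.and (h3.and h6))).ex.ex.ex.of_iff fun v => ?_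
    simp only [Tm.ev_lift, Fin.cons_succ, Fin.cons_zero]
    generalize s.ev v = s'
    generalize t.ev v = t'
    have key : ∀ (a m c : ℕ), (∃ r, Nat.beta c 0 = r ∧ f a = r) →
        (∀ y, ¬ (y < m ∧ ¬ ∃ u w' p q, Nat.beta c y = u ∧
        Nat.beta c (y + 1) = w' ∧ Nat.pair y u = p ∧ Nat.pair a p = q ∧ g q = w')) →
        ∀ k ≤ m, Nat.beta c k = (Nat.rec (f a) (fun y IH => g (Nat.pair a (Nat.pair y IH))) k : ℕ) := by
      intro a m c h0 hs k
      induction k with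
      | zero =>
        intro _
        obtain ⟨r, h1, h2⟩ := h0
        exact h1.trans h2.symm
      | succ k ih =>
        intro hk
        have h1 := hs k
        push Not at h1
        obtain ⟨u, w', p, q, e1, e2, e3, e4, e5⟩ := h1 (by omega)
        rw [e2, ← e5, ← e4, ← e3, ← e1, ih (by omega)]
    constructor
    · rintro ⟨a, m, c, h1, h2, h3, h4⟩
      have := key a m c h2 h3 m le_rfl
      rw [← h4, ← h1, this]
      simp [Nat.unpaired]
    · intro h
      obtain ⟨a, m, rfl⟩ : ∃ a m, Nat.pair a m = s' := ⟨s'.unpair.1, s'.unpair.2, by simp⟩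
      simp only [Nat.unpaired, Nat.unpair_pair] at h
      obtain ⟨F, hF0, hFs, hF⟩ : ∃ F : ℕ → ℕ, F 0 = f a ∧
          (∀ y, F (y + 1) = g (Nat.pair a (Nat.pair y (F y)))) ∧ F m = t' :=
        ⟨fun k => (Nat.rec (f a) (fun y IH => g (Nat.pair a (Nat.pair y IH))) k : ℕ), rfl,
          fun _ => rfl, h⟩
      obtain ⟨c, hc⟩ : ∃ c, ∀ k ≤ m, Nat.beta c k = F k := by
        refine ⟨Nat.unbeta ((List.range (m + 1)).map F), fun k hk => ?_⟩
        have := Nat.beta_unbeta_coe ((List.range (m + 1)).map F) ⟨k, by simp; omega⟩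
        simp only at this
        rw [this]
        simp
      refine ⟨a, m, c, rfl, ⟨F 0, hc 0 (Nat.zero_le _), hF0.symm⟩, ?_, ?_⟩
      · rintro y ⟨hy, hno⟩
        exact hno ⟨F y, F (y + 1), Nat.pair y (F y), Nat.pair a (Nat.pair y (F y)),
          hc y (Nat.le_of_lt hy), hc (y + 1) hy, rfl, rfl, (hFs y).symm⟩
      · rw [hc m le_rfl, hF]

/-- `Σ₁` predicates are arithmetically definable. -/
theorem S1.definable {p : ℕ → Prop} (hp : S1 p) : AD 1 fun v => p (v 0) := by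
  classical
  obtain ⟨R, ⟨hd, hR⟩, h⟩ := hp
  -- a primitive recursive function deciding `R`
  let q : ℕ × ℕ → Bool := fun x => @decide (R x.1 x.2) (hd x)
  have hq : Primrec q := hR
  have hN : Nat.Primrec fun k => Encodable.encode ((Encodable.decode (α := ℕ × ℕ) k).map q) := hq
  have hAF := AF.ofPrimrec hN
  have h1 : AD 3 fun w => Nat.pair (w i2) (w i1) = w i0 :=
    ad_pair 3 (.tVar i2) (.tVar i1) (.tVar i0)
  have h2 : AD 3 fun w =>
      Encodable.encode ((Encodable.decode (α := ℕ × ℕ) (w i0)).map q) = 1 + 1 :=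
    hAF 3 (.tVar i0) (.tAdd .tOne .tOne)
  refine (h1.and h2).ex.ex.of_iff fun v => ?_
  simp only [Fin.cons_succ, Fin.cons_zero]
  rw [h]
  have key : ∀ n m : ℕ, R n m ↔
      Encodable.encode ((Encodable.decode (α := ℕ × ℕ) (Nat.pair n m)).map q) = 1 + 1 := by
    intro n m
    have : Encodable.decode (α := ℕ × ℕ) (Nat.pair n m) = some (n, m) := by
      simp
    rw [this]
    simp only [Option.map_some, Encodable.encode_some, q]
    by_cases hR' : R n m <;> simp [hR']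
  constructor
  · rintro ⟨m, k, rfl, e2⟩
    exact ⟨m, (key _ _).2 e2⟩
  · rintro ⟨m, hm⟩
    exact ⟨m, Nat.pair (v 0) m, rfl, (key _ _).1 hm⟩

end Pool.Agent.H78Ext
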