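import Mathlib
import Pool.Agent.H78Ext.Cut

/-!
# If every descending sequence computes `K` then the order is (hereditarily) solvable
-/

namespace Pool.Agent.H78Ext

open Encodable Primrec EIdeal

variable {K : ℕ → Prop} {lt : ℕ → ℕ → Prop} {E : EIdeal}

/-- `n` is enumerated by the operator `Θ` from the finite sequence `τ`. -/
def Enum (Θ : ℕ × List (ℕ × ℕ) → Prop) (n : ℕ) (τ : List ℕ) : Prop :=
  ∃ l : List (ℕ × ℕ), Θ (n, l) ∧ ∀ a ∈ l, τ[a.1]? = some a.2

theorem Enum.mono {Θ : ℕ × List (ℕ × ℕ) → Prop} {n : ℕ} {τ : List ℕ} (h : Enum Θ n τ)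
    (t : List ℕ) : Enum Θ n (τ ++ t) := by
  obtain ⟨l, hl, h⟩ := h
  refine ⟨l, hl, fun a ha => ?_⟩
  have h1 := h a ha
  obtain ⟨h2, h3⟩ := List.getElem?_eq_some_iff.1 h1
  rw [List.getElem?_append_left h2]
  exact h1

/-- conditions for building a descending sequence -/
structure SCond (K : ℕ → Prop) (lt : ℕ → ℕ → Prop) (E : EIdeal) (D : ℕ → Prop) where
  τ : List ℕ
  J : EIdeal
  C : ℕ → Prop
  hJ : E ≤ J
  thin : Thin K J
  dec : J.Dec C
  nhs : ¬ HS K lt J C
  CD : ∀ x, C x → D x
  τD : ∀ x ∈ τ, D x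
  desc : τ.Pairwise fun a b => lt b a
  below : ∀ x ∈ τ, ∀ y, C y → lt y x

/-- extension -/
def SExt {D : ℕ → Prop} (p q : SCond K lt E D) : Prop :=
  (∃ t, q.τ = p.τ ++ t ∧ ∀ x ∈ t, p.C x) ∧ ∀ x, q.C x → p.C x

theorem SExt.refl {D : ℕ → Prop} (p : SCond K lt E D) : SExt p p :=
  ⟨⟨[], by simp, by simp⟩, fun _ h => h⟩

theorem SExt.trans {D : ℕ → Prop} {p q r : SCond K lt E D} (h : SExt p q) (h' : SExt q r) :
    SExt p r := by
  obtain ⟨⟨t, ht, ht'⟩, h1⟩ := h
  obtain ⟨⟨u, hu, hu'⟩, h2⟩ := h'
  refine ⟨⟨t ++ u, by rw [hu, ht, List.append_assoc], ?_⟩, fun x hx => h1 x (h2 x hx)⟩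
  intro x hx
  rcases List.mem_append.1 hx with hx | hx
  · exact ht' x hx
  · exact h1 x (hu' x hx)

/-- the requirement -/
def SMeets {D : ℕ → Prop} (q : SCond K lt E D) (Θ : ℕ × List (ℕ × ℕ) → Prop) : Prop :=
  (∃ n, K n ∧ Enum Θ n q.τ) ∨
  ∃ n, ¬ K n ∧ ∀ t : List ℕ, (∀ x ∈ t, q.C x) → (t.Pairwise fun a b => lt b a) →
    ¬ Enum Θ n (q.τ ++ t)

theorem sstep (ceK : S1 K) (hirr : ∀ x, ¬ lt x x) (htr : ∀ x y z, lt x y → lt y z → lt x z)
    (declt : E.Dec fun x : ℕ × ℕ => lt x.1 x.2) {D : ℕ → Prop} (p : SCond K lt E D) :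
    ∃ q : SCond K lt E D, SExt p q ∧ q.τ.length = p.τ.length + 1 := by
  have h1 : ∃ x, p.C x ∧ ¬ HS K lt p.J fun y => p.C y ∧ lt y x := by
    by_contra hno
    push Not at hno
    exact p.nhs (hs_of_lt ceK hirr htr (declt.mono p.hJ) hno)
  obtain ⟨x, hx, hnx⟩ := h1
  have hC1 := p.dec.1
  have hC2 := p.dec.2
  have hl1 := declt.1.mono p.hJ
  have hl2 := declt.2.mono p.hJ
  refine ⟨{ τ := p.τ ++ [x], J := p.J, C := fun y => p.C y ∧ lt y x, hJ := p.hJ, thin := p.thin,
            dec := ⟨by
                  apply EIdeal.Ce.and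
                  · apply EIdeal.Ce.comp hC1
                    exact P.id
                  · apply EIdeal.Ce.rel hl1
                    · exact P.id
                    · exact P.const _, ?_⟩, nhs := hnx, CD := fun y hy => p.CD y hy.1,
            τD := ?_, desc := ?_, below := ?_ }, ⟨⟨[x], rfl, ?_⟩, fun y hy => hy.1⟩, ?_⟩
  · have : p.J.Ce fun y => ¬ p.C y ∨ ¬ lt y x := by
        apply EIdeal.Ce.or
        · apply EIdeal.Ce.ncomp hC2
          exact P.id
        · apply EIdeal.Ce.nrel hl2
          · exact P.id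
          · exact P.const _
    exact this.of_eq fun y => by tauto
  · intro y hy
    rcases List.mem_append.1 hy with hy | hy
    · exact p.τD y hy
    · rw [List.mem_singleton.1 hy]
      exact p.CD x hx
  · rw [List.pairwise_append]
    refine ⟨p.desc, List.pairwise_singleton _ _, ?_⟩
    intro a ha b hb
    rw [List.mem_singleton.1 hb]
    exact p.below a ha x hx
  · intro a ha y hy
    rcases List.mem_append.1 ha with ha | ha
    · exact p.below a ha y hy.1
    · rw [List.mem_singleton.1 ha]
      exact hy.2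
  · intro y hy
    rw [List.mem_singleton.1 hy]
    exact hx
  · simp

theorem sreq (ceK : S1 K) (hirr : ∀ x, ¬ lt x x) (htr : ∀ x y z, lt x y → lt y z → lt x z)
    (declt : E.Dec fun x : ℕ × ℕ => lt x.1 x.2) {D : ℕ → Prop} (p : SCond K lt E D)
    {Θ : ℕ × List (ℕ × ℕ) → Prop} (hΘ : E.Ce Θ) :
    ∃ q : SCond K lt E D, SExt p q ∧ SMeets q Θ := by
  by_contra hcon
  have hcon' : ∀ q : SCond K lt E D, SExt p q → ¬ SMeets q Θ := fun q h1 h2 => hcon ⟨q, h1, h2⟩
  have hn := p.nhs
  unfold HS at hn
  push Not at hn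
  obtain ⟨F, hF, hFT, C, hC, hd, hns⟩ := hn
  have hEF : E ≤ F := p.hJ.trans hF
  have hC1 := hd.1
  have hC2 := hd.2
  have hl1 := declt.1.mono hEF
  have hl2 := declt.2.mono hEF
  have hΘF := hΘ.mono hEF
  have hKF : F.Ce K := Ce.s1 ceK
  let Bad : ℕ → Prop := fun x => C x ∧ ∃ n, K n ∧ ∃ t : List ℕ, ∃ z : ℕ,
    (∀ y ∈ t ++ [z], C y) ∧ ((t ++ [z]).Pairwise fun a b => lt b a) ∧ (lt x z ∨ x = z) ∧
      ∃ l : List (ℕ × ℕ), Θ (n, l) ∧ ∀ a ∈ l, (p.τ ++ (t ++ [z]))[a.1]? = some a.2
  have hBad : F.Ce Bad := by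
    refine Ce.and (by
          apply EIdeal.Ce.comp hC1
          exact P.id) ?_
    refine Ce.ex ?_
    refine Ce.and (by
          apply EIdeal.Ce.comp hKF
          exact P.snd P.id) ?_
    refine Ce.ex (Ce.ex ?_)
    refine Ce.and (by
          apply EIdeal.Ce.ball
          · apply EIdeal.Ce.comp hC1
            exact P.snd P.id
          · exact P.append (P.snd (P.fst P.id)) (P.cons (P.snd P.id) (P.const _))) (Ce.and ?_ (by
          apply EIdeal.Ce.and
          · apply EIdeal.Ce.or
            · apply EIdeal.Ce.rel hl1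
              · exact P.fst (P.fst (P.fst P.id))
              · exact P.snd P.id
            · apply EIdeal.Ce.eq
              · exact P.fst (P.fst (P.fst P.id))
              · exact P.snd P.id
          · apply EIdeal.Ce.ex
            apply EIdeal.Ce.and
            · apply EIdeal.Ce.comp hΘF
              exact P.pair (P.snd (P.fst (P.fst (P.fst P.id)))) (P.snd P.id)
            · apply EIdeal.Ce.ball
              · apply EIdeal.Ce.eq
                · exact P.getElem? (P.append (P.const _) (P.append (P.snd (P.fst (P.fst (P.fst P.id)))) (P.cons (P.snd (P.fst (P.fst P.id))) (P.const _)))) (P.fst (P.snd P.id))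
                · exact P.some (P.snd (P.snd P.id))
              · exact P.snd P.id))
    refine Ce.pairwise ?_ (by exact P.append (P.snd (P.fst P.id)) (P.cons (P.snd P.id) (P.const _)))
    apply EIdeal.Ce.rel hl1
    · exact P.snd (P.snd P.id)
    · exact P.fst (P.snd P.id)
  apply hns
  refine sol_of_gapHyp (S := Bad) ?_
  refine
    { thin := hFT
      hirr := hirr
      htr := htr
      decB := hd
      declt := declt.mono hEF
      ceK := ceK
      ceS := hBad
      SB := fun x hx => hx.1
      Sdown := ?_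
      hi := ?_
      hii := ?_ }
  · rintro x y ⟨hx, n, hn, t, z, h1, h2, h3, h4⟩ hy hyx
    refine ⟨hy, n, hn, t, z, h1, h2, Or.inl ?_, h4⟩
    rcases h3 with h3 | rfl
    · exact htr _ _ _ hyx h3
    · exact hyx
  · rintro x ⟨hx, n, hn, t, z, h1, h2, h3, h4⟩
    by_contra hnx
    have hzt : ∀ w ∈ t ++ [z], z = w ∨ lt z w := by
      intro w hw
      rw [List.pairwise_append] at h2
      rcases List.mem_append.1 hw with hw | hw
      · exact Or.inr (h2.2.2 w hw z (by simp))
      · exact Or.inl (List.mem_singleton.1 hw).symm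
    refine hcon' { τ := p.τ ++ (t ++ [z]), J := F, C := fun y => C y ∧ lt y x, hJ := hEF,
                   thin := hFT, dec := ⟨by
                         apply EIdeal.Ce.and
                         · apply EIdeal.Ce.comp hC1
                           exact P.id
                         · apply EIdeal.Ce.rel hl1
                           · exact P.id
                           · exact P.const _, ?_⟩, nhs := hnx, CD := ?_, τD := ?_, desc := ?_,
                   below := ?_ } ⟨⟨t ++ [z], rfl, ?_⟩, ?_⟩ (Or.inl ⟨n, hn, h4⟩)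
    · have : F.Ce fun y => ¬ C y ∨ ¬ lt y x := by
          apply EIdeal.Ce.or
          · apply EIdeal.Ce.ncomp hC2
            exact P.id
          · apply EIdeal.Ce.nrel hl2
            · exact P.id
            · exact P.const _
      exact this.of_eq fun y => by tauto
    · exact fun y hy => p.CD y (hC y hy.1)
    · intro y hy
      rcases List.mem_append.1 hy with hy | hy
      · exact p.τD y hy
      · exact p.CD y (hC y (h1 y hy))
    · rw [List.pairwise_append]
      exact ⟨p.desc, h2, fun a ha b hb => p.below a ha b (hC b (h1 b hb))⟩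
    · intro a ha y hy
      rcases List.mem_append.1 ha with ha | ha
      · exact p.below a ha y (hC y hy.1)
      · have hyz : lt y z := by
          rcases h3 with h3 | rfl
          · exact htr _ _ _ hy.2 h3
          · exact hy.2
        rcases hzt a ha with rfl | h
        · exact hyz
        · exact htr _ _ _ hyz h
    · exact fun y hy => hC y (h1 y hy)
    · exact fun y hy => hC y hy.1
  · intro G hG hGT β hβ hβd
    by_contra hns'
    apply hGT
    have hβ1 := hβd.1
    have hG1 := hl1.mono hG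
    have hΘG := hΘF.mono hG
    have hce : G.Ce fun n => ∃ t : List ℕ, (∀ x ∈ t, β x) ∧ (t.Pairwise fun a b => lt b a) ∧
        ∃ l : List (ℕ × ℕ), Θ (n, l) ∧ ∀ a ∈ l, (p.τ ++ t)[a.1]? = some a.2 := by
      refine Ce.ex ?_
      refine Ce.and (by
            apply EIdeal.Ce.ball
            · apply EIdeal.Ce.comp hβ1
              exact P.snd P.id
            · exact P.snd P.id) (Ce.and ?_ (by
            apply EIdeal.Ce.ex
            apply EIdeal.Ce.and
            · apply EIdeal.Ce.comp hΘG
              exact P.pair (P.fst (P.fst P.id)) (P.snd P.id)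
            · apply EIdeal.Ce.ball
              · apply EIdeal.Ce.eq
                · exact P.getElem? (P.append (P.const _) (P.snd (P.fst (P.fst P.id)))) (P.fst (P.snd P.id))
                · exact P.some (P.snd (P.snd P.id))
              · exact P.snd P.id))
      refine Ce.pairwise ?_ (by exact P.snd P.id)
      apply EIdeal.Ce.rel hG1
      · exact P.snd (P.snd P.id)
      · exact P.fst (P.snd P.id)
    refine hce.of_eq fun n => ?_
    constructor
    · rintro ⟨t, ht, htp, hW⟩ hn
      -- `n ∈ K` is enumerated: there is a bad element in `β`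
      rcases List.eq_nil_or_concat t with rfl | ⟨t', z, rfl⟩
      · have hne : ∃ x, β x := by
          by_contra hno
          push Not at hno
          exact hns' (sol_of_empty hGT hno)
        obtain ⟨x, hx⟩ := hne
        have hx' := hβ x hx
        apply hx'.2
        refine ⟨hx'.1, n, hn, [], x, ?_, ?_, Or.inr rfl, ?_⟩
        · simpa using hx'.1
        · simp
        · have hW' : Enum Θ n (p.τ ++ []) := hW
          rw [List.append_nil] at hW'
          exact hW'.mono _
      · simp only [List.concat_eq_append] at ht htp hW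
        have hz := hβ z (ht z (by simp))
        apply hz.2
        exact ⟨hz.1, n, hn, t', z, fun y hy => (hβ y (ht y hy)).1, htp, Or.inr rfl, hW⟩
    · intro hn
      by_contra hno
      push Not at hno
      refine hcon' { τ := p.τ, J := G, C := β, hJ := hEF.trans hG, thin := hGT, dec := hβd,
                     nhs := fun h => hns' (h.sol hGT hβd), CD := fun y hy => p.CD y (hC y (hβ y hy).1),
                     τD := p.τD, desc := p.desc,
                     below := fun a ha y hy => p.below a ha y (hC y (hβ y hy).1) }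
        ⟨⟨[], by simp, by simp⟩, fun y hy => hC y (hβ y hy).1⟩ (Or.inr ⟨n, hn, ?_⟩)
      rintro t ht htp ⟨l, hl, hl'⟩
      obtain ⟨a, ha, hne⟩ := hno t ht htp l hl
      exact hne (hl' a ha)

/-- Lemma E. -/
theorem hs_of_comp (ceK : S1 K) (hirr : ∀ x, ¬ lt x x) (htr : ∀ x y z, lt x y → lt y z → lt x z)
    (hE : Thin K E) (declt : E.Dec fun x : ℕ × ℕ => lt x.1 x.2) {D : ℕ → Prop} (decD : E.Dec D)
    (h : ∀ g, (∀ n, D (g n)) → Desc lt g → Comp K E g) : HS K lt E D := by
  classical
  by_contra hno
  let p₀ : SCond K lt E D :=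
    { τ := [], J := E, C := D, hJ := le_rfl, thin := hE, dec := decD, nhs := hno,
      CD := fun _ h => h, τD := by simp, desc := List.Pairwise.nil, below := by simp }
  obtain ⟨s, hs0, hs, hm⟩ := exists_generic (ℙ := SCond K lt E D)
    (R := ℕ ⊕ (ℕ × List (ℕ × ℕ) → Prop)) SExt SExt.refl (fun _ _ _ => SExt.trans)
    (fun p => Set.range Sum.inl ∪ Sum.inr '' {Θ | E.Ce Θ})
    (fun p => (Set.countable_range _).union ((countable_ce E).image _))
    (fun p q h => Set.Subset.refl _)
    (fun p r => match r with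
      | Sum.inl k => k ≤ p.τ.length
      | Sum.inr Θ => SMeets p Θ)
    (fun p r hr => by
      rcases hr with ⟨k, rfl⟩ | ⟨Θ, hΘ, rfl⟩
      · induction k with
        | zero => exact ⟨p, SExt.refl p, Nat.zero_le _⟩
        | succ k ih =>
          obtain ⟨q, hq, hk⟩ := ih
          obtain ⟨r, hr, hk'⟩ := sstep ceK hirr htr declt q
          refine ⟨r, hq.trans hr, ?_⟩
          show k + 1 ≤ r.τ.length
          rw [hk']
          exact Nat.succ_le_succ hk
      · exact sreq ceK hirr htr declt p hΘ)
    p₀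
  have hlen : ∀ k, ∃ m, k ≤ (s m).τ.length := fun k => hm 0 (Sum.inl k) (Or.inl ⟨k, rfl⟩)
  have hlen' : ∀ n : ℕ, ∃ m, n < (s m).τ.length := fun n => hlen (n + 1)
  choose m hmn using hlen'
  let g : ℕ → ℕ := fun n => (s (m n)).τ[n]'(hmn n)
  have hpre : ∀ i j, i ≤ j → ∀ n, n < (s i).τ.length → (s j).τ[n]? = (s i).τ[n]? := by
    intro i j hij n hn
    obtain ⟨⟨t, ht, -⟩, -⟩ := hs i j hij
    rw [ht, List.getElem?_append_left hn]
  have hg : ∀ k n, n < (s k).τ.length → (s k).τ[n]? = some (g n) := by
    intro k n hn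
    have h1 : (s (m n)).τ[n]? = some (g n) := List.getElem?_eq_getElem (hmn n)
    rcases le_total k (m n) with h | h
    · rw [← hpre k (m n) h n hn, h1]
    · rw [hpre (m n) k h n (hmn n), h1]
  have hgD : ∀ n, D (g n) := by
    intro n
    exact (s (m n)).τD _ (List.getElem_mem _)
  have hgd : Desc lt g := by
    intro n
    obtain ⟨k, hk⟩ := hlen (n + 2)
    have h1 := hg k n (by omega)
    have h2 := hg k (n + 1) (by omega)
    have h3 := List.pairwise_iff_getElem.1 (s k).desc n (n + 1) (by omega) (by omega)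
      (Nat.lt_succ_self n)
    rw [List.getElem?_eq_getElem (by omega)] at h1 h2
    rw [Option.some.inj h1, Option.some.inj h2] at h3
    exact h3
  have hcomp := h g hgD hgd
  apply hcomp
  intro hce
  obtain ⟨Θ, hΘ, hΘ'⟩ := ce_adj_iff.1 hce
  obtain ⟨k, hk⟩ := hm 0 (Sum.inr Θ) (Or.inr ⟨Θ, hΘ, rfl⟩)
  rcases (hk : SMeets (s k) Θ) with ⟨n, hn, l, hl, hl'⟩ | ⟨n, hn, hneg⟩
  · refine (hΘ' n).2 ⟨l, fun a ha => ?_, hl⟩ hn
    have h1 := hl' a ha
    obtain ⟨h2, -⟩ := List.getElem?_eq_some_iff.1 h1
    rw [hg k a.1 h2] at h1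
    exact Option.some.inj h1
  · obtain ⟨l, hl, hΘl⟩ := (hΘ' n).1 hn
    have hN : ∃ N, ∀ a ∈ l, a.1 < N := by
      clear hl hΘl
      induction l with
      | nil => exact ⟨0, by simp⟩
      | cons b l ih =>
        obtain ⟨N, hN⟩ := ih
        refine ⟨max N (b.1 + 1), fun a ha => ?_⟩
        rcases List.mem_cons.1 ha with rfl | ha
        · omega
        · have := hN a ha
          omega
    obtain ⟨N, hN⟩ := hN
    obtain ⟨j, hj⟩ := hlen N
    obtain ⟨⟨t, ht, htC⟩, -⟩ := hs k (max k j) (le_max_left k j)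
    obtain ⟨⟨u, hu, -⟩, -⟩ := hs j (max k j) (le_max_right k j)
    have hlen2 : N ≤ (s (max k j)).τ.length := by
      rw [hu, List.length_append]
      omega
    refine hneg t htC ?_ ⟨l, hΘl, fun a ha => ?_⟩
    · have := (s (max k j)).desc
      rw [ht, List.pairwise_append] at this
      exact this.2.1
    · rw [← ht, hg _ a.1 ((hN a ha).trans_le hlen2)]
      exact congrArg some (hl a ha)

end Pool.Agent.H78Ext
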