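import Mathlib
import Pool.Agent.H78Ext.Dich

/-!
# A thin ideal closed under solving orders
-/

namespace Pool.Agent.H78Ext

open Encodable Primrec EIdeal

/-- the order is handled in the ideal: it has a descending sequence there, or a linear extension
all of whose descending sequences compute `K` -/
def Handled (K : ℕ → Prop) (lt : ℕ → ℕ → Prop) (D : ℕ → Prop) (F : EIdeal) : Prop :=
  (∃ g : ℕ → ℕ, (∀ n, D (g n)) ∧ Desc lt g ∧ F.Ce (Gr g)) ∨
  ∃ L, LinExt lt D L ∧ (F.Ce fun x : ℕ × ℕ => L x.1 x.2) ∧ ∀ f, Desc L f → Comp K F f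

theorem Handled.mono {K : ℕ → Prop} {lt : ℕ → ℕ → Prop} {D : ℕ → Prop} {E F : EIdeal}
    (h : Handled K lt D E) (hEF : E ≤ F) : Handled K lt D F := by
  rcases h with ⟨g, h1, h2, h3⟩ | ⟨L, h1, h2, h3⟩
  · exact Or.inl ⟨g, h1, h2, h3.mono hEF⟩
  · exact Or.inr ⟨L, h1, h2.mono hEF, fun f hf => (h3 f hf).mono hEF⟩

theorem exists_handled {K : ℕ → Prop} (ceK : S1 K) {lt : ℕ → ℕ → Prop} (hirr : ∀ x, ¬ lt x x)
    (htr : ∀ x y z, lt x y → lt y z → lt x z) {E : EIdeal} (hE : Thin K E)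
    (declt : E.Dec fun x : ℕ × ℕ => lt x.1 x.2) {D : ℕ → Prop} (decD : E.Dec D) :
    ∃ F, E ≤ F ∧ Thin K F ∧ Handled K lt D F := by
  by_cases h : ∃ g : ℕ → ℕ, (∀ n, D (g n)) ∧ Desc lt g ∧ Thin K (E.adj (Gr g))
  · obtain ⟨g, h1, h2, h3⟩ := h
    exact ⟨E.adj (Gr g), le_adj _ _, h3, Or.inl ⟨g, h1, h2, adj_self _ _⟩⟩
  · have h1 : HS K lt E D := hs_of_comp ceK hirr htr hE declt decD
      fun g hgD hg hT => h ⟨g, hgD, hg, hT⟩
    obtain ⟨F, hF, hFT, L, hL, hLc, hLd⟩ := h1.sol hE decD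
    exact ⟨F, hF, hFT, Or.inr ⟨L, hL, hLc, hLd⟩⟩

/-- **The model.** Every thin ideal extends to a thin ideal in which all its orders are
handled. -/
theorem exists_model {K : ℕ → Prop} (ceK : S1 K) {E : EIdeal} (hE : Thin K E) :
    ∃ M : EIdeal, E ≤ M ∧ Thin K M ∧ ∀ (lt : ℕ → ℕ → Prop) (D : ℕ → Prop),
      (∀ x, ¬ lt x x) → (∀ x y z, lt x y → lt y z → lt x z) →
      (M.Dec fun x : ℕ × ℕ => lt x.1 x.2) → M.Dec D → Handled K lt D M := by
  classical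
  obtain ⟨s, hs0, hs, hm⟩ := exists_generic (ℙ := {F : EIdeal // Thin K F})
    (R := (ℕ × ℕ → Prop) × (ℕ → Prop)) (fun p q => p.1 ≤ q.1) (fun _ => le_rfl)
    (fun _ _ _ h h' => h.trans h')
    (fun p => {r | ((∀ x, ¬ r.1 (x, x)) ∧ ∀ x y z, r.1 (x, y) → r.1 (y, z) → r.1 (x, z)) ∧
      p.1.Dec r.1 ∧ p.1.Dec r.2})
    (fun p => by
      refine (((countable_ce p.1 (α := ℕ × ℕ)).prod (countable_ce p.1 (α := ℕ)))).mono ?_
      rintro ⟨r1, r2⟩ ⟨-, h1, h2⟩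
      exact ⟨h1.1, h2.1⟩)
    (fun p q h => by
      rintro ⟨r1, r2⟩ ⟨h0, h1, h2⟩
      exact ⟨h0, h1.mono h, h2.mono h⟩)
    (fun p r => Handled K (fun x y => r.1 (x, y)) r.2 p.1)
    (fun p r hr => by
      obtain ⟨⟨h0, h0'⟩, h1, h2⟩ := hr
      obtain ⟨F, hF, hFT, hH⟩ := exists_handled ceK (lt := fun x y => r.1 (x, y)) h0 h0' p.2
        h1 h2
      exact ⟨⟨F, hFT⟩, hF, hH⟩)
    ⟨E, hE⟩
  have hmono : Monotone fun n => (s n).1 := fun m n h => hs m n h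
  refine ⟨EIdeal.chain (fun n => (s n).1) hmono, ?_, thin_chain fun n => (s n).2, ?_⟩
  · have h := le_chain (fun n => (s n).1) hmono 0
    rw [hs0] at h
    exact h
  · intro lt D hirr htr hl hD
    obtain ⟨a, ha⟩ := ce_chain.1 hl.1
    obtain ⟨b, hb⟩ := ce_chain.1 hl.2
    obtain ⟨c, hc⟩ := ce_chain.1 hD.1
    obtain ⟨d, hd⟩ := ce_chain.1 hD.2
    let n := max (max a b) (max c d)
    have h1 : (s n).1.Dec fun x : ℕ × ℕ => lt x.1 x.2 :=
      ⟨Ce.mono (hmono ((le_max_left a b).trans (le_max_left _ _))) ha,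
        Ce.mono (hmono ((le_max_right a b).trans (le_max_left _ _))) hb⟩
    have h2 : (s n).1.Dec D :=
      ⟨Ce.mono (hmono ((le_max_left c d).trans (le_max_right _ _))) hc,
        Ce.mono (hmono ((le_max_right c d).trans (le_max_right _ _))) hd⟩
    obtain ⟨m, hm⟩ := hm n (fun x => lt x.1 x.2, D) ⟨⟨hirr, htr⟩, h1, h2⟩
    exact Handled.mono hm (le_chain (fun n => (s n).1) hmono m)

end Pool.Agent.H78Ext
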