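import Mathlib
import Pool.Agent.H78Ext.SecondOrder
import Pool.Agent.H78Ext.Adj

/-!
# The sets of an ideal form a Turing ideal
-/

namespace Pool.Agent.H78Ext

open Encodable Primrec EIdeal

/-- the sets that belong to the ideal together with their complements -/
def idealSets (M : EIdeal) : Set (Set ℕ) := {A | M.Dec fun n => n ∈ A}

theorem mem_rec_iff {f : ℕ →. ℕ} {h : ℕ →. ℕ} {a n y : ℕ} :
    y ∈ (Nat.rec (f a) (fun k (IH : Part ℕ) => IH.bind fun i => h (Nat.pair a (Nat.pair k i))) n :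
      Part ℕ) ↔
    ∃ l : List ℕ, (∃ z, l[0]? = some z ∧ z ∈ f a) ∧
      (∀ k ∈ List.range n, ∃ i j, l[k]? = some i ∧ l[k + 1]? = some j ∧
        j ∈ h (Nat.pair a (Nat.pair k i))) ∧ l[n]? = some y := by
  constructor
  · intro hy
    have key : ∀ n y, y ∈ (Nat.rec (f a) (fun k (IH : Part ℕ) =>
        IH.bind fun i => h (Nat.pair a (Nat.pair k i))) n : Part ℕ) →
        ∃ l : List ℕ, l.length = n + 1 ∧ (∃ z, l[0]? = some z ∧ z ∈ f a) ∧
          (∀ k ∈ List.range n, ∃ i j, l[k]? = some i ∧ l[k + 1]? = some j ∧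
            j ∈ h (Nat.pair a (Nat.pair k i))) ∧ l[n]? = some y := by
      intro n
      induction n with
      | zero =>
        intro y hy
        exact ⟨[y], rfl, ⟨y, rfl, hy⟩, by simp, rfl⟩
      | succ n ih =>
        intro y hy
        have hy' : y ∈ (Nat.rec (f a) (fun k (IH : Part ℕ) =>
          IH.bind fun i => h (Nat.pair a (Nat.pair k i))) n : Part ℕ).bind
            fun i => h (Nat.pair a (Nat.pair n i)) := hy
        obtain ⟨i, hi, hyi⟩ := Part.mem_bind_iff.1 hy'
        obtain ⟨l, hl, ⟨z, hz, hzf⟩, h2, h3⟩ := ih i hi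
        refine ⟨l ++ [y], by simp [hl], ⟨z, ?_, hzf⟩, ?_, ?_⟩
        · rw [List.getElem?_append_left (by omega)]
          exact hz
        · intro k hk
          have hk' := List.mem_range.1 hk
          rcases Nat.lt_succ_iff_lt_or_eq.1 hk' with hk'' | rfl
          · obtain ⟨i', j', e1, e2, e3⟩ := h2 k (List.mem_range.2 hk'')
            refine ⟨i', j', ?_, ?_, e3⟩
            · rw [List.getElem?_append_left (by omega)]
              exact e1
            · rw [List.getElem?_append_left (by omega)]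
              exact e2
          · refine ⟨i, y, ?_, ?_, hyi⟩
            · rw [List.getElem?_append_left (by omega)]
              exact h3
            · rw [List.getElem?_append_right (by omega), hl]
              simp
        · rw [List.getElem?_append_right (by omega), hl]
          simp
    obtain ⟨l, -, h⟩ := key n y hy
    exact ⟨l, h⟩
  · rintro ⟨l, ⟨z, hz, hzf⟩, h2, h3⟩
    have key : ∀ m ≤ n, ∀ y, l[m]? = some y → y ∈ (Nat.rec (f a) (fun k (IH : Part ℕ) =>
        IH.bind fun i => h (Nat.pair a (Nat.pair k i))) m : Part ℕ) := by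
      intro m
      induction m with
      | zero =>
        intro _ y hy
        rw [hz] at hy
        obtain rfl := Option.some.inj hy
        exact hzf
      | succ m ih =>
        intro hm y hy
        obtain ⟨i, j, e1, e2, e3⟩ := h2 m (List.mem_range.2 hm)
        rw [hy] at e2
        obtain rfl := Option.some.inj e2
        exact Part.mem_bind_iff.2 ⟨i, ih (by omega) i e1, e3⟩
    exact key n le_rfl y h3

/-- graphs of functions recursive in a member of the ideal belong to the ideal -/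
theorem ce_graph {M : EIdeal} {A : Set ℕ} (hA : M.Dec fun n => n ∈ A) {f : ℕ →. ℕ}
    (hf : Nat.RecursiveIn {chi A} f) : M.Ce fun x : ℕ × ℕ => x.2 ∈ f x.1 := by
  have hA1 := hA.1
  have hA2 := hA.2
  induction hf with
  | zero =>
    have : M.Ce fun x : ℕ × ℕ => x.2 = 0 := by
          apply EIdeal.Ce.eq
          · exact P.snd P.id
          · exact P.const _
    refine this.of_eq fun x => ?_
    show x.2 = 0 ↔ x.2 ∈ Part.some 0
    simp
  | succ =>
    have : M.Ce fun x : ℕ × ℕ => x.2 = x.1 + 1 := by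
          apply EIdeal.Ce.eq
          · exact P.snd P.id
          · exact P.add (P.fst P.id) (P.const _)
    refine this.of_eq fun x => ?_
    show x.2 = x.1 + 1 ↔ x.2 ∈ Part.some (x.1 + 1)
    simp
  | left =>
    have : M.Ce fun x : ℕ × ℕ => x.2 = (Nat.unpair x.1).1 := by
          apply EIdeal.Ce.eq
          · exact P.snd P.id
          · exact P.fst (P.unpair (P.fst P.id))
    refine this.of_eq fun x => ?_
    show x.2 = (Nat.unpair x.1).1 ↔ x.2 ∈ Part.some (Nat.unpair x.1).1
    simp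
  | right =>
    have : M.Ce fun x : ℕ × ℕ => x.2 = (Nat.unpair x.1).2 := by
          apply EIdeal.Ce.eq
          · exact P.snd P.id
          · exact P.snd (P.unpair (P.fst P.id))
    refine this.of_eq fun x => ?_
    show x.2 = (Nat.unpair x.1).2 ↔ x.2 ∈ Part.some (Nat.unpair x.1).2
    simp
  | oracle g hg =>
    rw [Set.mem_singleton_iff] at hg
    subst hg
    have h1 : M.Ce fun x : ℕ × ℕ => (x.1 ∈ A ∧ x.2 = 1) ∨ (¬ x.1 ∈ A ∧ x.2 = 0) := by
      refine Ce.or (Ce.and (hA1.comp (by exact P.fst P.id)) (by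
            apply EIdeal.Ce.eq
            · exact P.snd P.id
            · exact P.const _)) (Ce.and (hA2.comp (by exact P.fst P.id)) (by
            apply EIdeal.Ce.eq
            · exact P.snd P.id
            · exact P.const _))
    refine h1.of_eq fun x => ?_
    unfold chi
    by_cases hx : x.1 ∈ A <;> simp [hx]
  | @pair f h _ _ hf hh =>
    have h1 : M.Ce fun x : ℕ × ℕ => ∃ a, a ∈ f x.1 ∧ ∃ b, b ∈ h x.1 ∧ x.2 = Nat.pair a b := by
      refine Ce.ex (Ce.and (hf.comp (f := fun x : (ℕ × ℕ) × ℕ => (x.1.1, x.2)) (by exact P.pair (P.fst (P.fst P.id)) (P.snd P.id))) ?_)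
      refine Ce.ex (Ce.and (hh.comp (f := fun x : ((ℕ × ℕ) × ℕ) × ℕ => (x.1.1.1, x.2)) (by exact P.pair (P.fst (P.fst (P.fst P.id))) (P.snd P.id))) ?_)
      apply EIdeal.Ce.eq
      · exact P.snd (P.fst (P.fst P.id))
      · exact P.natPair (P.snd (P.fst P.id)) (P.snd P.id)
    refine h1.of_eq fun x => ?_
    simp only [Seq.seq, Part.map_eq_map, Part.mem_bind_iff, Part.mem_map_iff]
    constructor
    · rintro ⟨a, ha, b, hb, h⟩
      exact ⟨_, ⟨a, ha, rfl⟩, b, hb, h.symm⟩
    · rintro ⟨_, ⟨a, ha, rfl⟩, b, hb, h⟩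
      exact ⟨a, ha, b, hb, h.symm⟩
  | @comp f h _ _ hf hh =>
    have h1 : M.Ce fun x : ℕ × ℕ => ∃ a, a ∈ h x.1 ∧ x.2 ∈ f a := by
      refine Ce.ex (Ce.and (hh.comp (f := fun x : (ℕ × ℕ) × ℕ => (x.1.1, x.2)) (by exact P.pair (P.fst (P.fst P.id)) (P.snd P.id))) ?_)
      exact hf.comp (f := fun x : (ℕ × ℕ) × ℕ => (x.2, x.1.2)) (by exact P.pair (P.snd P.id) (P.snd (P.fst P.id)))
    refine h1.of_eq fun x => ?_
    exact Part.mem_bind_iff.symm
  | @prec f h _ _ hf hh =>
    have h1 : M.Ce fun x : ℕ × ℕ => ∃ l : List ℕ,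
        (∃ z, l[0]? = some z ∧ z ∈ f x.1.unpair.1) ∧
        (∀ k ∈ List.range x.1.unpair.2, ∃ i j, l[k]? = some i ∧ l[k + 1]? = some j ∧
          j ∈ h (Nat.pair x.1.unpair.1 (Nat.pair k i))) ∧ l[x.1.unpair.2]? = some x.2 := by
      refine Ce.ex ?_
      refine Ce.and ?_ (Ce.and ?_ (by
            apply EIdeal.Ce.eq
            · exact P.getElem? (P.snd P.id) (P.snd (P.unpair (P.fst (P.fst P.id))))
            · exact P.some (P.snd (P.fst P.id))))
      · refine Ce.ex ?_
        refine Ce.and (by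
              apply EIdeal.Ce.eq
              · exact P.getElem? (P.snd (P.fst P.id)) (P.const _)
              · exact P.some (P.snd P.id)) ?_
        exact hf.comp (f := fun x : ((ℕ × ℕ) × List ℕ) × ℕ => (x.1.1.1.unpair.1, x.2)) (by exact P.pair (P.fst (P.unpair (P.fst (P.fst (P.fst P.id))))) (P.snd P.id))
      · refine Ce.ball ?_ (by exact P.range (P.snd (P.unpair (P.fst (P.fst P.id)))))
        refine Ce.ex ?_
        refine Ce.ex ?_
        refine Ce.and (by
              apply EIdeal.Ce.eq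
              · exact P.getElem? (P.snd (P.fst (P.fst (P.fst P.id)))) (P.snd (P.fst (P.fst P.id)))
              · exact P.some (P.snd (P.fst P.id))) (Ce.and (by
              apply EIdeal.Ce.eq
              · exact P.getElem? (P.snd (P.fst (P.fst (P.fst P.id)))) (P.add (P.snd (P.fst (P.fst P.id))) (P.const _))
              · exact P.some (P.snd P.id)) ?_)
        exact hh.comp (f := fun x : ((((ℕ × ℕ) × List ℕ) × ℕ) × ℕ) × ℕ =>
          (Nat.pair x.1.1.1.1.1.unpair.1 (Nat.pair x.1.1.2 x.1.2), x.2)) (by exact P.pair (P.natPair (P.fst (P.unpair (P.fst (P.fst (P.fst (P.fst (P.fst P.id))))))) (P.natPair (P.snd (P.fst (P.fst P.id))) (P.snd (P.fst P.id)))) (P.snd P.id))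
    refine h1.of_eq fun x => ?_
    exact mem_rec_iff.symm
  | @rfind f _ hf =>
    have h1 : M.Ce fun x : ℕ × ℕ => 0 ∈ f (Nat.pair x.1 x.2) ∧
        ∀ k ∈ List.range x.2, ∃ z, z ≠ 0 ∧ z ∈ f (Nat.pair x.1 k) := by
      refine Ce.and (hf.comp (f := fun x : ℕ × ℕ => (Nat.pair x.1 x.2, 0)) (by exact P.pair (P.natPair (P.fst P.id) (P.snd P.id)) (P.const _))) ?_
      refine Ce.ball ?_ (by exact P.range (P.snd P.id))
      refine Ce.ex ?_
      refine Ce.and (by
            apply EIdeal.Ce.ne
            · exact P.snd P.id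
            · exact P.const _) ?_
      exact hf.comp (f := fun x : ((ℕ × ℕ) × ℕ) × ℕ => (Nat.pair x.1.1.1 x.1.2, x.2)) (by exact P.pair (P.natPair (P.fst (P.fst (P.fst P.id))) (P.snd (P.fst P.id))) (P.snd P.id))
    refine h1.of_eq fun x => ?_
    have h2 : x.2 ∈ (Nat.rfind fun n => (fun m => decide (m = 0)) <$> f (Nat.pair x.1 n)) ↔
        true ∈ ((fun m => decide (m = 0)) <$> f (Nat.pair x.1 x.2) : Part Bool) ∧
        ∀ m, m < x.2 → false ∈ ((fun m => decide (m = 0)) <$> f (Nat.pair x.1 m) : Part Bool) :=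
      Nat.mem_rfind.trans ⟨fun h => ⟨h.1, fun _ hm => h.2 hm⟩, fun h => ⟨h.1, fun hm => h.2 _ hm⟩⟩
    refine Iff.trans ?_ h2.symm
    simp only [Part.map_eq_map, Part.mem_map_iff, decide_eq_true_eq, decide_eq_false_iff_not]
    constructor
    · rintro ⟨h3, h4⟩
      refine ⟨⟨0, h3, rfl⟩, fun m hm => ?_⟩
      obtain ⟨z, hz, hz'⟩ := h4 m (List.mem_range.2 hm)
      exact ⟨z, hz', hz⟩
    · rintro ⟨⟨z, h3, rfl⟩, h4⟩
      refine ⟨h3, fun m hm => ?_⟩
      obtain ⟨z, hz, hz'⟩ := h4 m (List.mem_range.1 hm)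
      exact ⟨z, hz', hz⟩

theorem isTuringIdeal (M : EIdeal) : IsTuringIdeal (idealSets M) where
  nonempty := ⟨∅, (Ce.const False).of_eq (by simp), (Ce.const True).of_eq (by simp)⟩
  join := by
    rintro A ⟨hA1, hA2⟩ B ⟨hB1, hB2⟩
    constructor
    · have h1 : M.Ce fun n => (∃ k, k ∈ A ∧ n = 2 * k) ∨ ∃ k, k ∈ B ∧ n = 2 * k + 1 := by
        refine Ce.or (Ce.ex ?_) (Ce.ex ?_)
        · exact Ce.and (hA1.comp (f := fun x : ℕ × ℕ => x.2) (by exact P.snd P.id)) (by
              apply EIdeal.Ce.eq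
              · exact P.fst P.id
              · exact P.mul (P.const _) (P.snd P.id))
        · exact Ce.and (hB1.comp (f := fun x : ℕ × ℕ => x.2) (by exact P.snd P.id)) (by
              apply EIdeal.Ce.eq
              · exact P.fst P.id
              · exact P.add (P.mul (P.const _) (P.snd P.id)) (P.const _))
      exact h1
    · have h1 : M.Ce fun n => (∃ k, ¬ k ∈ A ∧ n = 2 * k) ∨ ∃ k, ¬ k ∈ B ∧ n = 2 * k + 1 := by
        refine Ce.or (Ce.ex ?_) (Ce.ex ?_)
        · exact Ce.and (hA2.comp (f := fun x : ℕ × ℕ => x.2) (by exact P.snd P.id)) (by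
              apply EIdeal.Ce.eq
              · exact P.fst P.id
              · exact P.mul (P.const _) (P.snd P.id))
        · exact Ce.and (hB2.comp (f := fun x : ℕ × ℕ => x.2) (by exact P.snd P.id)) (by
              apply EIdeal.Ce.eq
              · exact P.fst P.id
              · exact P.add (P.mul (P.const _) (P.snd P.id)) (P.const _))
      refine h1.of_eq fun n => ?_
      show _ ↔ ¬ ((∃ k, k ∈ A ∧ n = 2 * k) ∨ ∃ k, k ∈ B ∧ n = 2 * k + 1)
      constructor
      · rintro (⟨k, hk, rfl⟩ | ⟨k, hk, rfl⟩) (⟨l, hl, h⟩ | ⟨l, hl, h⟩)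
        · obtain rfl : k = l := by omega
          exact hk hl
        · omega
        · omega
        · obtain rfl : k = l := by omega
          exact hk hl
      · intro h
        rcases Nat.even_or_odd' n with ⟨k, rfl | rfl⟩
        · exact Or.inl ⟨k, fun hk => h (Or.inl ⟨k, hk, rfl⟩), rfl⟩
        · exact Or.inr ⟨k, fun hk => h (Or.inr ⟨k, hk, rfl⟩), rfl⟩
  down := by
    intro A hA B hB
    have hB' : Nat.RecursiveIn {chi A} (chi B) := RecursiveIn.iff_nat.1 hB
    have h := ce_graph hA hB'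
    constructor
    · refine (h.comp (f := fun n : ℕ => (n, 1)) (by exact P.pair P.id (P.const _))).of_eq fun n => ?_
      unfold chi
      by_cases hn : n ∈ B <;> simp [hn]
    · refine (h.comp (f := fun n : ℕ => (n, 0)) (by exact P.pair P.id (P.const _))).of_eq fun n => ?_
      unfold chi
      by_cases hn : n ∈ B <;> simp [hn]

end Pool.Agent.H78Ext
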