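import Mathlib
import Pool.Agent.H78Ext.Turing
import Pool.Agent.H78Ext.Model
import Pool.Agent.H78Ext.Definable

/-!
# The `ω`-model
-/

namespace Pool.Agent.H78Ext

open Encodable Primrec EIdeal

/-! ### Bounded formulas define members of the ideal -/

theorem primrec_ev {γ : Type} [Primcodable γ] {n : ℕ} (t : Tm n) {ρ : γ → Fin n → ℕ}
    (hρ : ∀ i, Primrec fun c => ρ c i) : Primrec fun c => t.ev (ρ c) := by
  induction t with
  | tVar i => exact hρ i
  | tZero => exact Primrec.const 0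
  | tOne => exact Primrec.const 1
  | tAdd s t hs ht => exact P.add hs ht
  | tMul s t hs ht => exact P.mul hs ht

theorem dec_bounded {M : EIdeal} {S : Set (Set ℕ)} {k : ℕ} {X : Fin k → Set ℕ}
    (hX : ∀ i, M.Dec fun n => n ∈ X i) {n : ℕ} (θ : Fm k n) (hθ : θ.IsBounded) :
    ∀ {γ : Type} [Primcodable γ] {ρ : γ → Fin n → ℕ}, (∀ i, Primrec fun c => ρ c i) →
      M.Dec fun c => θ.Holds (omegaStructure S) X (ρ c) := by
  classical
  induction hθ with
  | bEq s t =>
    intro γ _ ρ hρ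
    have e : ∀ c, (Fm.fEq s t).Holds (omegaStructure S) X (ρ c) ↔ s.ev (ρ c) = t.ev (ρ c) := by
      intro c
      show s.val (omegaStructure S) (ρ c) = t.val (omegaStructure S) (ρ c) ↔ _
      rw [Tm.val_omega, Tm.val_omega]
      exact Iff.rfl
    refine ⟨?_, ?_⟩
    · exact (Ce.eq (primrec_ev s hρ) (primrec_ev t hρ)).of_eq fun c => (e c).symm
    · exact (Ce.not_eq (primrec_ev s hρ) (primrec_ev t hρ)).of_eq fun c => (not_congr (e c)).symm
  | bLt s t =>
    intro γ _ ρ hρ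
    have e : ∀ c, (Fm.fLt s t).Holds (omegaStructure S) X (ρ c) ↔ s.ev (ρ c) < t.ev (ρ c) := by
      intro c
      show (omegaStructure S).lt (s.val (omegaStructure S) (ρ c))
        (t.val (omegaStructure S) (ρ c)) ↔ _
      rw [Tm.val_omega, Tm.val_omega]
      exact Iff.rfl
    refine ⟨?_, ?_⟩
    · exact (Ce.lt (primrec_ev s hρ) (primrec_ev t hρ)).of_eq fun c => (e c).symm
    · exact (Ce.le (primrec_ev t hρ) (primrec_ev s hρ)).of_eq fun c =>
        not_lt.symm.trans (not_congr (e c)).symm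
  | bMem t i =>
    intro γ _ ρ hρ
    have e : ∀ c, (Fm.fMem t i).Holds (omegaStructure S) X (ρ c) ↔ t.ev (ρ c) ∈ X i := by
      intro c
      show t.val (omegaStructure S) (ρ c) ∈ X i ↔ _
      rw [Tm.val_omega]
      exact Iff.rfl
    refine ⟨?_, ?_⟩
    · exact ((hX i).1.comp (primrec_ev t hρ)).of_eq fun c => (e c).symm
    · exact ((hX i).2.comp (primrec_ev t hρ)).of_eq fun c => (not_congr (e c)).symm
  | @bNot _ φ _ ih =>
    intro γ _ ρ hρ
    obtain ⟨h1, h2⟩ := ih hρ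
    exact ⟨h2, h1.of_eq fun c => (not_not (a := φ.Holds (omegaStructure S) X (ρ c))).symm⟩
  | bAnd _ _ ihφ ihψ =>
    intro γ _ ρ hρ
    obtain ⟨h1, h2⟩ := ihφ hρ
    obtain ⟨h3, h4⟩ := ihψ hρ
    exact ⟨Ce.and h1 h3, (Ce.or h2 h4).of_eq fun c => (not_and_or).symm⟩
  | @bAllBelow _ t φ _ ih =>
    intro γ _ ρ hρ
    have hρ' : ∀ i, Primrec fun c : γ × ℕ => (Fin.cons c.2 (ρ c.1) : Fin _ → ℕ) i := by
      intro i
      refine Fin.cases ?_ (fun j => ?_) i
      · exact Primrec.snd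
      · simp only [Fin.cons_succ]
        exact (hρ j).comp Primrec.fst
    obtain ⟨h1, h2⟩ := ih (γ := γ × ℕ) (ρ := fun c => (Fin.cons c.2 (ρ c.1) : Fin _ → ℕ)) hρ'
    have e : ∀ c, (Fm.fAllBelow t φ).Holds (omegaStructure S) X (ρ c) ↔
        ∀ a ∈ List.range (t.ev (ρ c)), φ.Holds (omegaStructure S) X (Fin.cons a (ρ c) : Fin _ → ℕ) := by
      intro c
      show (∀ a : ℕ, (omegaStructure S).lt a (t.val (omegaStructure S) (ρ c)) → _) ↔ _
      rw [Tm.val_omega]
      simp only [List.mem_range]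
      exact Iff.rfl
    refine ⟨?_, ?_⟩
    · exact (Ce.ball h1 (Primrec.list_range.comp (primrec_ev t hρ))).of_eq fun c => (e c).symm
    · refine (Ce.bex (p := fun c (a : ℕ) =>
        ¬ φ.Holds (omegaStructure S) X (Fin.cons a (ρ c) : Fin _ → ℕ)) h2
        (Primrec.list_range.comp (primrec_ev t hρ))).of_eq fun c => ?_
      refine Iff.trans ?_ (not_congr (e c)).symm
      push Not
      exact Iff.rfl

theorem ce_sigma {M : EIdeal} {S : Set (Set ℕ)} {k : ℕ} {X : Fin k → Set ℕ}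
    (hX : ∀ i, M.Dec fun n => n ∈ X i) {n : ℕ} (φ : Fm k (n + 1)) (hφ : φ.IsSigma1)
    (v : Fin n → ℕ) : M.Ce fun a : ℕ => φ.Holds (omegaStructure S) X (Fin.cons a v : Fin _ → ℕ) := by
  obtain ⟨θ, hθ, rfl⟩ := hφ
  have hρ : ∀ i, Primrec fun c : ℕ × ℕ =>
      (Fin.cons c.2 (Fin.cons c.1 v : Fin _ → ℕ) : Fin _ → ℕ) i := by
    intro i
    refine Fin.cases Primrec.snd (fun j => ?_) i
    refine Fin.cases Primrec.fst (fun l => ?_) j
    simp only [Fin.cons_succ]
    exact Primrec.const _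
  have h := (dec_bounded (S := S) hX θ hθ hρ).1
  refine (Ce.ex (p := fun (a b : ℕ) =>
    θ.Holds (omegaStructure S) X (Fin.cons b (Fin.cons a v : Fin _ → ℕ) : Fin _ → ℕ)) h).of_eq
    fun a => ?_
  show (∃ b : ℕ, θ.Holds (omegaStructure S) X (Fin.cons b (Fin.cons a v : Fin _ → ℕ) : Fin _ → ℕ)) ↔
    ¬ ∀ b : ℕ, ¬ θ.Holds (omegaStructure S) X (Fin.cons b (Fin.cons a v : Fin _ → ℕ) : Fin _ → ℕ)
  push Not
  rfl

theorem ce_not_pi {M : EIdeal} {S : Set (Set ℕ)} {k : ℕ} {X : Fin k → Set ℕ}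
    (hX : ∀ i, M.Dec fun n => n ∈ X i) {n : ℕ} (φ : Fm k (n + 1)) (hφ : φ.IsPi1)
    (v : Fin n → ℕ) :
    M.Ce fun a : ℕ => ¬ φ.Holds (omegaStructure S) X (Fin.cons a v : Fin _ → ℕ) := by
  obtain ⟨θ, hθ, rfl⟩ := hφ
  have hρ : ∀ i, Primrec fun c : ℕ × ℕ =>
      (Fin.cons c.2 (Fin.cons c.1 v : Fin _ → ℕ) : Fin _ → ℕ) i := by
    intro i
    refine Fin.cases Primrec.snd (fun j => ?_) i
    refine Fin.cases Primrec.fst (fun l => ?_) j
    simp only [Fin.cons_succ]
    exact Primrec.const _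
  have h := (dec_bounded (S := S) hX θ hθ hρ).2
  refine (Ce.ex (p := fun (a b : ℕ) =>
    ¬ θ.Holds (omegaStructure S) X (Fin.cons b (Fin.cons a v : Fin _ → ℕ) : Fin _ → ℕ)) h).of_eq
    fun a => ?_
  show (∃ b : ℕ, ¬ θ.Holds (omegaStructure S) X (Fin.cons b (Fin.cons a v : Fin _ → ℕ) : Fin _ → ℕ))
    ↔ ¬ ∀ b : ℕ, θ.Holds (omegaStructure S) X (Fin.cons b (Fin.cons a v : Fin _ → ℕ) : Fin _ → ℕ)
  push Not
  rfl

theorem rca0 (M : EIdeal) : (omegaStructure (idealSets M)).RCA0 where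
  succ_ne_zero := fun n => Nat.succ_ne_zero n
  succ_inj := fun m n h => Nat.succ_injective h
  add_zero := fun m => Nat.add_zero m
  add_succ := fun m n => (Nat.add_assoc m n 1).symm
  mul_zero := fun m => Nat.mul_zero m
  mul_succ := fun m n => Nat.mul_succ m n
  not_lt_zero := fun m => Nat.not_lt_zero m
  lt_succ := fun m n => Nat.lt_succ_iff_lt_or_eq
  sigma_induction := by
    intro k n φ _ X _ v h0 hs a
    induction a using Nat.rec with
    | zero => exact h0
    | succ a ih => exact hs a ih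
  delta_comprehension := by
    intro k n φ ψ hφ hψ X hX v h
    refine ⟨{a : ℕ | φ.Holds (omegaStructure (idealSets M)) X (Fin.cons a v : Fin _ → ℕ)},
      ⟨ce_sigma hX φ hφ v, ?_⟩, fun a => Iff.rfl⟩
    exact (ce_not_pi hX ψ hψ v).of_eq fun a => not_congr (h a).symm

/-! ### The pairing function -/

theorem pr_inj {a b c d : ℕ} (h : (a + b) * (a + b) + a = (c + d) * (c + d) + c) :
    a = c ∧ b = d := by
  have h1 : a + b = c + d := by
    rcases lt_trichotomy (a + b) (c + d) with h1 | h1 | h1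
    · exfalso
      nlinarith [Nat.mul_le_mul h1 h1]
    · exact h1
    · exfalso
      nlinarith [Nat.mul_le_mul h1 h1]
  rw [h1] at h
  omega

theorem ext_omegaStar {K : ℕ → Prop} {M : EIdeal} (hM : Thin K M)
    (h : ∀ (lt : ℕ → ℕ → Prop) (D : ℕ → Prop), (∀ x, ¬ lt x x) →
      (∀ x y z, lt x y → lt y z → lt x z) → (M.Dec fun x : ℕ × ℕ => lt x.1 x.2) → M.Dec D →
      Handled K lt D M) : (omegaStructure (idealSets M)).ExtOmegaStar := by
  classical
  intro D hD P hP hPO hno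
  have hD1 : M.Ce fun n : ℕ => n ∈ D := hD.1
  have hD2 : M.Ce fun n : ℕ => ¬ n ∈ D := hD.2
  have hP1 : M.Ce fun n : ℕ => n ∈ P := hP.1
  have hP2 : M.Ce fun n : ℕ => ¬ n ∈ P := hP.2
  let pr : ℕ → ℕ → ℕ := fun a b => (a + b) * (a + b) + a
  have hpr : ∀ a b : ℕ, (omegaStructure (idealSets M)).code a b = pr a b := fun a b => rfl
  have hinj : ∀ {a b c d : ℕ}, pr a b = pr c d → a = c ∧ b = d := fun h => pr_inj h
  have hdom : ∀ x y : ℕ, pr x y ∈ P → x ∈ D ∧ y ∈ D := hPO.dom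
  have hrefl : ∀ x : ℕ, x ∈ D → pr x x ∈ P := hPO.refl
  have hanti : ∀ x y : ℕ, pr x y ∈ P → pr y x ∈ P → x = y := hPO.antisymm
  have htrans : ∀ x y z : ℕ, pr x y ∈ P → pr y z ∈ P → pr x z ∈ P := hPO.trans
  let lt : ℕ → ℕ → Prop := fun x y => pr x y ∈ P ∧ x ≠ y
  have hlt1 : M.Ce fun x : ℕ × ℕ => lt x.1 x.2 := by
    refine Ce.and ?_ (by
          apply EIdeal.Ce.ne
          · exact H78Ext.P.fst H78Ext.P.id
          · exact H78Ext.P.snd H78Ext.P.id)
    exact hP1.comp (f := fun x : ℕ × ℕ => (x.1 + x.2) * (x.1 + x.2) + x.1) (by exact H78Ext.P.add (H78Ext.P.mul (H78Ext.P.add (H78Ext.P.fst H78Ext.P.id) (H78Ext.P.snd H78Ext.P.id)) (H78Ext.P.add (H78Ext.P.fst H78Ext.P.id) (H78Ext.P.snd H78Ext.P.id))) (H78Ext.P.fst H78Ext.P.id))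
  have hlt2 : M.Ce fun x : ℕ × ℕ => ¬ lt x.1 x.2 := by
    have : M.Ce fun x : ℕ × ℕ => ¬ pr x.1 x.2 ∈ P ∨ x.1 = x.2 := by
      refine Ce.or ?_ (by
            apply EIdeal.Ce.eq
            · exact H78Ext.P.fst H78Ext.P.id
            · exact H78Ext.P.snd H78Ext.P.id)
      exact hP2.comp (f := fun x : ℕ × ℕ => (x.1 + x.2) * (x.1 + x.2) + x.1) (by exact H78Ext.P.add (H78Ext.P.mul (H78Ext.P.add (H78Ext.P.fst H78Ext.P.id) (H78Ext.P.snd H78Ext.P.id)) (H78Ext.P.add (H78Ext.P.fst H78Ext.P.id) (H78Ext.P.snd H78Ext.P.id))) (H78Ext.P.fst H78Ext.P.id))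
    exact this.of_eq fun x => by
      show _ ↔ ¬ (pr x.1 x.2 ∈ P ∧ x.1 ≠ x.2)
      tauto
  rcases h lt (fun n => n ∈ D) (fun x hx => hx.2 rfl) (fun x y z hxy hyz => ⟨htrans _ _ _ hxy.1 hyz.1,
      fun hxz => by
        subst hxz
        exact hxy.2 (hanti _ _ hxy.1 hyz.1)⟩) ⟨hlt1, hlt2⟩ ⟨hD1, hD2⟩ with
    ⟨g, hgD, hg, hgc⟩ | ⟨L, hL, hLc, hLd⟩
  · -- a descending sequence in the model
    exfalso
    apply hno
    have hgc' : M.Ce fun x : ℕ × ℕ => g x.1 = x.2 := hgc
    refine ⟨{z : ℕ | ∃ n x, g n = x ∧ z = pr n x}, ⟨?_, ?_⟩, ?_, ?_⟩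
    · refine Ce.ex (Ce.ex (Ce.and ?_ ?_))
      · exact hgc'.comp (f := fun x : (ℕ × ℕ) × ℕ => (x.1.2, x.2)) (by exact H78Ext.P.pair (H78Ext.P.snd (H78Ext.P.fst H78Ext.P.id)) (H78Ext.P.snd H78Ext.P.id))
      · exact Ce.eq (by exact H78Ext.P.fst (H78Ext.P.fst H78Ext.P.id))
          (show Primrec fun x : (ℕ × ℕ) × ℕ => (x.1.2 + x.2) * (x.1.2 + x.2) + x.1.2 by exact H78Ext.P.add (H78Ext.P.mul (H78Ext.P.add (H78Ext.P.snd (H78Ext.P.fst H78Ext.P.id)) (H78Ext.P.snd H78Ext.P.id)) (H78Ext.P.add (H78Ext.P.snd (H78Ext.P.fst H78Ext.P.id)) (H78Ext.P.snd H78Ext.P.id))) (H78Ext.P.snd (H78Ext.P.fst H78Ext.P.id)))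
    · have h1 : M.Ce fun z : ℕ => (∀ n ∈ List.range (z + 1), ∀ x ∈ List.range (z + 1),
          z ≠ (n + x) * (n + x) + n) ∨
          ∃ n x y, z = (n + x) * (n + x) + n ∧ g n = y ∧ y ≠ x := by
        refine Ce.or (by
              apply EIdeal.Ce.ball
              · apply EIdeal.Ce.ball
                · apply EIdeal.Ce.ne
                  · exact H78Ext.P.fst (H78Ext.P.fst H78Ext.P.id)
                  · exact H78Ext.P.add (H78Ext.P.mul (H78Ext.P.add (H78Ext.P.snd (H78Ext.P.fst H78Ext.P.id)) (H78Ext.P.snd H78Ext.P.id)) (H78Ext.P.add (H78Ext.P.snd (H78Ext.P.fst H78Ext.P.id)) (H78Ext.P.snd H78Ext.P.id))) (H78Ext.P.snd (H78Ext.P.fst H78Ext.P.id))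
                · exact H78Ext.P.range (H78Ext.P.add (H78Ext.P.fst H78Ext.P.id) (H78Ext.P.const _))
              · exact H78Ext.P.range (H78Ext.P.add H78Ext.P.id (H78Ext.P.const _))) ?_
        refine Ce.ex (Ce.ex (Ce.ex (Ce.and (by
              apply EIdeal.Ce.eq
              · exact H78Ext.P.fst (H78Ext.P.fst (H78Ext.P.fst H78Ext.P.id))
              · exact H78Ext.P.add (H78Ext.P.mul (H78Ext.P.add (H78Ext.P.snd (H78Ext.P.fst (H78Ext.P.fst H78Ext.P.id))) (H78Ext.P.snd (H78Ext.P.fst H78Ext.P.id))) (H78Ext.P.add (H78Ext.P.snd (H78Ext.P.fst (H78Ext.P.fst H78Ext.P.id))) (H78Ext.P.snd (H78Ext.P.fst H78Ext.P.id)))) (H78Ext.P.snd (H78Ext.P.fst (H78Ext.P.fst H78Ext.P.id)))) (Ce.and ?_ (by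
              apply EIdeal.Ce.ne
              · exact H78Ext.P.snd H78Ext.P.id
              · exact H78Ext.P.snd (H78Ext.P.fst H78Ext.P.id))))))
        exact hgc'.comp (f := fun x : ((ℕ × ℕ) × ℕ) × ℕ => (x.1.1.2, x.2)) (by exact H78Ext.P.pair (H78Ext.P.snd (H78Ext.P.fst (H78Ext.P.fst H78Ext.P.id))) (H78Ext.P.snd H78Ext.P.id))
      refine h1.of_eq fun z => ?_
      show _ ↔ ¬ ∃ n x, g n = x ∧ z = pr n x
      constructor
      · rintro (h1 | ⟨n, x, y, h1, h2, h3⟩) ⟨m, w, h4, h5⟩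
        · have hle : m ≤ z ∧ w ≤ z := by
            rw [h5]
            show m ≤ (m + w) * (m + w) + m ∧ w ≤ (m + w) * (m + w) + m
            constructor
            · omega
            · have := Nat.le_mul_self (m + w)
              omega
          exact h1 m (List.mem_range.2 (by omega)) w (List.mem_range.2 (by omega)) h5
        · have h6 := hinj (h1.symm.trans h5 : pr n x = pr m w)
          rw [h6.1] at h2
          rw [h6.2] at h3
          exact h3 (h2.symm.trans h4)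
      · intro h1
        by_cases h2 : ∃ n x, z = pr n x
        · obtain ⟨n, x, hz⟩ := h2
          exact Or.inr ⟨n, x, g n, hz, rfl, fun h3 => h1 ⟨n, x, h3, hz⟩⟩
        · exact Or.inl fun n _ x _ hz => h2 ⟨n, x, hz⟩
    · intro n
      refine ⟨g n, ⟨n, g n, rfl, rfl⟩, ?_⟩
      rintro y ⟨m, x, hx, hy⟩
      have h6 := hinj (show pr n y = pr m x from hy)
      rw [h6.2, ← hx, h6.1]
    · rintro (n : ℕ) (x : ℕ) (y : ℕ) ⟨a, b, hab, h1⟩ ⟨c, d, hcd, h2⟩
      have h3 := hinj (show pr n x = pr a b from h1)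
      have h4 := hinj (show pr (n + 1) y = pr c d from h2)
      have h5 := hg n
      have hx : x = g n := by rw [h3.2, ← hab, h3.1]
      have hy : y = g (n + 1) := by rw [h4.2, ← hcd, h4.1]
      rw [hx, hy]
      exact h5
  · -- a linear extension
    refine ⟨{z : ℕ | ∃ x y, (L x y ∨ (x = y ∧ x ∈ D)) ∧ z = pr x y}, ⟨?_, ?_⟩, ?_, ?_⟩
    · have : M.Ce fun z : ℕ => ∃ x y, (L x y ∨ (x = y ∧ x ∈ D)) ∧ z = (x + y) * (x + y) + x := by
        refine Ce.ex (Ce.ex (Ce.and (Ce.or (by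
              apply EIdeal.Ce.rel hLc
              · exact H78Ext.P.snd (H78Ext.P.fst H78Ext.P.id)
              · exact H78Ext.P.snd H78Ext.P.id) (Ce.and (by
              apply EIdeal.Ce.eq
              · exact H78Ext.P.snd (H78Ext.P.fst H78Ext.P.id)
              · exact H78Ext.P.snd H78Ext.P.id) ?_)) (by
              apply EIdeal.Ce.eq
              · exact H78Ext.P.fst (H78Ext.P.fst H78Ext.P.id)
              · exact H78Ext.P.add (H78Ext.P.mul (H78Ext.P.add (H78Ext.P.snd (H78Ext.P.fst H78Ext.P.id)) (H78Ext.P.snd H78Ext.P.id)) (H78Ext.P.add (H78Ext.P.snd (H78Ext.P.fst H78Ext.P.id)) (H78Ext.P.snd H78Ext.P.id))) (H78Ext.P.snd (H78Ext.P.fst H78Ext.P.id)))))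
        exact hD1.comp (f := fun x : (ℕ × ℕ) × ℕ => x.1.2) (by exact H78Ext.P.snd (H78Ext.P.fst H78Ext.P.id))
      exact this
    · have h1 : M.Ce fun z : ℕ => (∀ n ∈ List.range (z + 1), ∀ x ∈ List.range (z + 1),
          z ≠ (n + x) * (n + x) + n) ∨
          ∃ x y, (L y x ∨ ¬ x ∈ D ∨ ¬ y ∈ D) ∧ z = (x + y) * (x + y) + x := by
        refine Ce.or (by
              apply EIdeal.Ce.ball
              · apply EIdeal.Ce.ball
                · apply EIdeal.Ce.ne
                  · exact H78Ext.P.fst (H78Ext.P.fst H78Ext.P.id)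
                  · exact H78Ext.P.add (H78Ext.P.mul (H78Ext.P.add (H78Ext.P.snd (H78Ext.P.fst H78Ext.P.id)) (H78Ext.P.snd H78Ext.P.id)) (H78Ext.P.add (H78Ext.P.snd (H78Ext.P.fst H78Ext.P.id)) (H78Ext.P.snd H78Ext.P.id))) (H78Ext.P.snd (H78Ext.P.fst H78Ext.P.id))
                · exact H78Ext.P.range (H78Ext.P.add (H78Ext.P.fst H78Ext.P.id) (H78Ext.P.const _))
              · exact H78Ext.P.range (H78Ext.P.add H78Ext.P.id (H78Ext.P.const _))) ?_
        refine Ce.ex (Ce.ex (Ce.and (Ce.or (by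
              apply EIdeal.Ce.rel hLc
              · exact H78Ext.P.snd H78Ext.P.id
              · exact H78Ext.P.snd (H78Ext.P.fst H78Ext.P.id)) (Ce.or ?_ ?_)) (by
              apply EIdeal.Ce.eq
              · exact H78Ext.P.fst (H78Ext.P.fst H78Ext.P.id)
              · exact H78Ext.P.add (H78Ext.P.mul (H78Ext.P.add (H78Ext.P.snd (H78Ext.P.fst H78Ext.P.id)) (H78Ext.P.snd H78Ext.P.id)) (H78Ext.P.add (H78Ext.P.snd (H78Ext.P.fst H78Ext.P.id)) (H78Ext.P.snd H78Ext.P.id))) (H78Ext.P.snd (H78Ext.P.fst H78Ext.P.id)))))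
        · exact hD2.comp (f := fun x : (ℕ × ℕ) × ℕ => x.1.2) (by exact H78Ext.P.snd (H78Ext.P.fst H78Ext.P.id))
        · exact hD2.comp (f := fun x : (ℕ × ℕ) × ℕ => x.2) (by exact H78Ext.P.snd H78Ext.P.id)
      refine h1.of_eq fun z => ?_
      show _ ↔ ¬ ∃ x y, (L x y ∨ (x = y ∧ x ∈ D)) ∧ z = pr x y
      constructor
      · rintro (h1 | ⟨n, x, h1, h2⟩) ⟨m, w, h4, h5⟩
        · have hle : m ≤ z ∧ w ≤ z := by
            rw [h5]
            show m ≤ (m + w) * (m + w) + m ∧ w ≤ (m + w) * (m + w) + m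
            constructor
            · omega
            · have := Nat.le_mul_self (m + w)
              omega
          exact h1 m (List.mem_range.2 (by omega)) w (List.mem_range.2 (by omega)) h5
        · obtain ⟨rfl, rfl⟩ := hinj (h2.symm.trans h5 : pr n x = pr m w)
          rcases h4 with h4 | ⟨rfl, h4⟩
          · rcases h1 with h1 | h1 | h1
            · exact hL.asymm h1 h4
            · exact h1 (hL.dom _ _ h4).1
            · exact h1 (hL.dom _ _ h4).2
          · rcases h1 with h1 | h1 | h1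
            · exact hL.irr _ h1
            · exact h1 h4
            · exact h1 h4
      · intro h1
        by_cases h2 : ∃ n x, z = pr n x
        · obtain ⟨x, y, hz⟩ := h2
          refine Or.inr ⟨x, y, ?_, hz⟩
          by_cases hx : x ∈ D
          · by_cases hy : y ∈ D
            · left
              by_cases hxy : x = y
              · exact absurd ⟨x, y, Or.inr ⟨hxy, hx⟩, hz⟩ h1
              · rcases hL.tot x y hx hy hxy with h3 | h3
                · exact absurd ⟨x, y, Or.inl h3, hz⟩ h1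
                · exact h3
            · exact Or.inr (Or.inr hy)
          · exact Or.inr (Or.inl hx)
        · exact Or.inl fun n _ x _ hz => h2 ⟨n, x, hz⟩
    · -- it is a linear extension
      have hmem : ∀ x y : ℕ, (pr x y ∈ {z : ℕ | ∃ x y, (L x y ∨ (x = y ∧ x ∈ D)) ∧ z = pr x y}) ↔
          (L x y ∨ (x = y ∧ x ∈ D)) := by
        intro x y
        constructor
        · rintro ⟨a, b, hab, h⟩
          obtain ⟨rfl, rfl⟩ := hinj h
          exact hab
        · intro h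
          exact ⟨x, y, h, rfl⟩
      refine ⟨⟨?_, ?_, ?_, ?_⟩, ?_, ?_⟩
      · intro x y hxy
        rcases (hmem x y).1 hxy with h | ⟨rfl, h⟩
        · exact hL.dom _ _ h
        · exact ⟨h, h⟩
      · intro x hx
        exact (hmem x x).2 (Or.inr ⟨rfl, hx⟩)
      · intro x y hxy hyx
        rcases (hmem x y).1 hxy with h | ⟨h, -⟩
        · rcases (hmem y x).1 hyx with h' | ⟨h', -⟩
          · exact (hL.asymm h h').elim
          · exact h'.symm
        · exact h
      · intro x y z hxy hyz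
        refine (hmem x z).2 ?_
        rcases (hmem x y).1 hxy with h | ⟨rfl, h⟩
        · rcases (hmem y z).1 hyz with h' | ⟨rfl, h'⟩
          · exact Or.inl (hL.trans _ _ _ h h')
          · exact Or.inl h
        · exact (hmem x z).1 hyz
      · intro x hx y hy
        by_cases hxy : x = y
        · exact Or.inl ((hmem x y).2 (Or.inr ⟨hxy, hx⟩))
        · rcases hL.tot x y hx hy hxy with h | h
          · exact Or.inl ((hmem x y).2 (Or.inl h))
          · exact Or.inr ((hmem y x).2 (Or.inl h))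
      · intro x y hxy
        have hxy' : pr x y ∈ P := hxy
        refine (hmem x y).2 ?_
        by_cases he : x = y
        · exact Or.inr ⟨he, (hdom x y hxy').1⟩
        · exact Or.inl (hL.ext x y (hdom x y hxy').1 (hdom x y hxy').2 ⟨hxy', he⟩)
    · -- no descending sequence in the model
      rintro ⟨F, hF, hFu, hFd⟩
      have hF1 : M.Ce fun n : ℕ => n ∈ F := hF.1
      have hFu' : ∀ n : ℕ, ∃! x : ℕ, pr n x ∈ F := hFu
      choose f hf hfu using hFu'
      have hfd : Desc L f := by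
        intro n
        obtain ⟨h1, h2⟩ := hFd n (f n) (f (n + 1)) (hf n) (hf (n + 1))
        obtain ⟨a, b, hab, h⟩ := h1
        obtain ⟨rfl, rfl⟩ := hinj (show pr (f (n + 1)) (f n) = pr a b from h)
        rcases hab with h3 | ⟨h3, -⟩
        · exact h3
        · exact absurd h3 h2
      refine hLd f hfd (Thin.anti (adj_le le_rfl ?_) hM)
      have h1 : M.Ce fun x : ℕ × ℕ => pr x.1 x.2 ∈ F :=
        hF1.comp (f := fun x : ℕ × ℕ => (x.1 + x.2) * (x.1 + x.2) + x.1) (by exact H78Ext.P.add (H78Ext.P.mul (H78Ext.P.add (H78Ext.P.fst H78Ext.P.id) (H78Ext.P.snd H78Ext.P.id)) (H78Ext.P.add (H78Ext.P.fst H78Ext.P.id) (H78Ext.P.snd H78Ext.P.id))) (H78Ext.P.fst H78Ext.P.id))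
      refine h1.of_eq fun x => ?_
      show pr x.1 x.2 ∈ F ↔ f x.1 = x.2
      constructor
      · intro h
        exact (hfu x.1 x.2 h).symm
      · intro h
        rw [← h]
        exact hf x.1

/-! ### Failure of arithmetical comprehension -/

theorem s1_halting : S1 fun n => n ∈ haltingSet := by
  have h1 : REPred fun c : Nat.Partrec.Code => (c.eval 0).Dom := ComputablePred.halting_problem_re 0
  have h2 : S1 fun c : Nat.Partrec.Code => (c.eval 0).Dom := S1.of_re h1
  exact h2.comp (Primrec.ofNat Nat.Partrec.Code)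

theorem not_s1_halting : ¬ S1 fun n => ¬ n ∈ haltingSet := by
  intro h
  apply ComputablePred.halting_problem_not_re 0
  have h1 : S1 fun c : Nat.Partrec.Code => ¬ (encode c ∈ haltingSet) := h.comp Primrec.encode
  refine S1.re (h1.of_eq fun c => ?_)
  unfold haltingSet
  simp

theorem not_arithComprehension {M : EIdeal} (hM : Thin (fun n => n ∈ haltingSet) M) :
    ¬ (omegaStructure (idealSets M)).ArithComprehension := by
  intro h
  obtain ⟨φ, hφ⟩ := s1_halting.definable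
  obtain ⟨Y, hY, hY'⟩ := h 0 0 φ (fun i => i.elim0) (fun i => i.elim0) (fun i => i.elim0)
  apply hM
  refine hY.2.of_eq fun n => not_congr ?_
  exact (hY' n).trans (hφ _ _ _)

/-- **Main theorem.** -/
theorem main : ∃ S : Set (Set ℕ), IsTuringIdeal S ∧ haltingSet ∉ S ∧
    (omegaStructure S).RCA0 ∧ (omegaStructure S).ExtOmegaStar ∧
    ¬ (omegaStructure S).ArithComprehension := by
  have hbase : Thin (fun n => n ∈ haltingSet) base := fun h => not_s1_halting (ce_base.1 h)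
  obtain ⟨M, -, hM, hH⟩ := exists_model s1_halting hbase
  refine ⟨idealSets M, isTuringIdeal M, fun h => hM h.2, rca0 M, ext_omegaStar hM hH,
    not_arithComprehension hM⟩

end Pool.Agent.H78Ext
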